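import Pool.Agent.Y719.TN.Univ

/-!
# Number fields
-/

set_option autoImplicit false
set_option linter.all false

namespace Pool.Agent.Y719.TN

open Polynomial Pool.Agent.Y719.NG Topology
open NumberField IsDedekindDomain Pool.Agent.W401.Cheb

variable {K : Type} [Field K] [NumberField K]

/-- conjugates of Frobenius elements are Frobenius elements -/
lemma frob_conj {v : HeightOneSpectrum (𝓞 K)} {σ : GK K} (h : IsFrob v σ) (τ : GK K) :
    IsFrob v (τ * σ * τ⁻¹) := by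
  obtain ⟨Q, hQ, hv, hx⟩ := h
  let e : 𝓞 (AlgebraicClosure K) ≃+* 𝓞 (AlgebraicClosure K) :=
    { toFun := fun x => τ⁻¹ • x
      invFun := fun x => τ • x
      left_inv := fun x => smul_inv_smul τ x
      right_inv := fun x => inv_smul_smul τ x
      map_mul' := fun x y => smul_mul' _ _ _
      map_add' := fun x y => smul_add _ _ _ }
  refine ⟨Q.comap (e : 𝓞 (AlgebraicClosure K) →+* 𝓞 (AlgebraicClosure K)), ?_, ?_, fun x => ?_⟩
  · exact Ideal.comap_isMaximal_of_surjective _ e.surjective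
  · rw [Ideal.comap_comap, ← hv]
    congr 1
    ext x
    change (((τ⁻¹ • (algebraMap (𝓞 K) (𝓞 (AlgebraicClosure K)) x) :
      𝓞 (AlgebraicClosure K))) : AlgebraicClosure K) = _
    exact (τ⁻¹).commutes (x : K)
  · rw [Ideal.mem_comap]
    change τ⁻¹ • ((τ * σ * τ⁻¹) • x - x ^ Ideal.absNorm v.asIdeal) ∈ Q
    have h1 : τ⁻¹ • ((τ * σ * τ⁻¹) • x - x ^ Ideal.absNorm v.asIdeal) =
        σ • (τ⁻¹ • x) - (τ⁻¹ • x) ^ Ideal.absNorm v.asIdeal := by
      rw [smul_sub, smul_pow', smul_smul, smul_smul]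
      congr 2
      group
    rw [h1]
    exact hx _

/-- density of the Frobenius elements -/
lemma dense_frob (S : Set (HeightOneSpectrum (𝓞 K))) (hS : S.Finite) :
    Dense {g : GK K | ∃ v ∉ S, IsFrob v g} := by
  intro g
  refine closed_univK (closure {g : GK K | ∃ v ∉ S, IsFrob v g}) isClosed_closure ?_ S hS
    (fun v hv σ hσ => subset_closure ⟨v, hv, hσ⟩) g
  intro σ hσ τ
  have h1 : Continuous fun x : GK K => τ * x * τ⁻¹ := by fun_prop
  have h2 := image_closure_subset_closure_image h1 (s := {g : GK K | ∃ v ∉ S, IsFrob v g})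
  have h3 := h2 ⟨σ, hσ, rfl⟩
  refine closure_mono ?_ h3
  rintro _ ⟨x, ⟨v, hv, hx⟩, rfl⟩
  exact ⟨v, hv, frob_conj hx τ⟩

variable {k : Type} [Field k]
  [IsAlgClosed k] [CharZero k] [TopologicalSpace k] [IsTopologicalRing k] [T2Space k] {n N : ℕ}

/-- **Tensorial representations: independence of the coefficient field.** -/
theorem transferK {k₀ : Type} [Field k₀] [IsAlgClosed k₀] [CharZero k₀] {E : Type} [Field E]
    {ρ₀ : GK K →* GL (Fin n) k₀} {W₀ : GK K →* GL (Fin N) k₀} {ρ : GK K →* GL (Fin n) k}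
    {W : GK K →* GL (Fin N) k} (hρ : Continuous ρ) (hW : Continuous W) (hirr : Irr ρ)
    (S : Set (HeightOneSpectrum (𝓞 K))) (hS : S.Finite) (ι₀ : E →+* k₀) (ι : E →+* k)
    (P Q : HeightOneSpectrum (𝓞 K) → E[X])
    (hρ₀ : ∀ v ∉ S, ∀ g, IsFrob v g → (mt ρ₀ g).charpoly = (P v).map ι₀)
    (hW₀ : ∀ v ∉ S, ∀ g, IsFrob v g → (mt W₀ g).charpoly = (Q v).map ι₀)
    (hρ1 : ∀ v ∉ S, ∀ g, IsFrob v g → (mt ρ g).charpoly = (P v).map ι)
    (hW1 : ∀ v ∉ S, ∀ g, IsFrob v g → (mt W g).charpoly = (Q v).map ι)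
    (h : Tnl W₀ ρ₀) : Tnl W ρ := by
  classical
  let D : Set (GK K) := {g : GK K | ∃ v ∉ S, IsFrob v g}
  let P' : GK K → E[X] := fun g => if hg : ∃ v ∉ S, IsFrob v g then P hg.choose else 0
  let Q' : GK K → E[X] := fun g => if hg : ∃ v ∉ S, IsFrob v g then Q hg.choose else 0
  refine Tnl.transfer hρ hW hirr D (dense_frob S hS) ι₀ ι P' Q' ?_ ?_ ?_ ?_ h
  · intro g hg
    have hg' : ∃ v ∉ S, IsFrob v g := hg
    have h1 : P' g = P hg'.choose := dif_pos hg'
    rw [h1]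
    exact hρ₀ _ hg'.choose_spec.1 g hg'.choose_spec.2
  · intro g hg
    have hg' : ∃ v ∉ S, IsFrob v g := hg
    have h1 : Q' g = Q hg'.choose := dif_pos hg'
    rw [h1]
    exact hW₀ _ hg'.choose_spec.1 g hg'.choose_spec.2
  · intro g hg
    have hg' : ∃ v ∉ S, IsFrob v g := hg
    have h1 : P' g = P hg'.choose := dif_pos hg'
    rw [h1]
    exact hρ1 _ hg'.choose_spec.1 g hg'.choose_spec.2
  · intro g hg
    have hg' : ∃ v ∉ S, IsFrob v g := hg
    have h1 : Q' g = Q hg'.choose := dif_pos hg'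
    rw [h1]
    exact hW1 _ hg'.choose_spec.1 g hg'.choose_spec.2

/-- open subgroups have finite index -/
lemma fi_of_open (U : Subgroup (GK K)) (ho : IsOpen (U : Set (GK K))) : U.FiniteIndex := by
  haveI : Finite (GK K ⧸ U) := Subgroup.quotient_finite_of_isOpen _ ho
  exact Subgroup.finiteIndex_of_finite_quotient

end Pool.Agent.Y719.TN
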