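import Pool.Agent.Y719.NG.Grp

/-!
# Burnside's theorem
-/

set_option autoImplicit false
set_option linter.all false

namespace Pool.Agent.Y719.TN

open Polynomial Pool.Agent.Y719.NG

variable {G : Type} [Group G] {k : Type} [Field k] [IsAlgClosed k] {n : ℕ}

/-- the matrices of an irreducible representation span the matrix algebra -/
theorem burnside (ρ : G →* GL (Fin n) k) (h : Irr ρ) :
    Submodule.span k (Set.range (mt ρ)) = ⊤ := by
  classical
  haveI := h.simple
  haveI : FiniteDimensional k (Md (ga ρ)) := inferInstanceAs (FiniteDimensional k (Fin n → k))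
  haveI : Nontrivial (Md (ga ρ)) := IsSimpleModule.nontrivial (MonoidAlgebra k G) (Md (ga ρ))
  -- Schur
  have hschur : ∀ φ : Module.End (MonoidAlgebra k G) (Md (ga ρ)), ∃ c : k, ∀ m, φ m = c • m := by
    intro φ
    let φk : Module.End k (Md (ga ρ)) := φ.restrictScalars k
    obtain ⟨c, hc⟩ := Module.End.exists_eigenvalue φk
    obtain ⟨v, hv⟩ := hc.exists_hasEigenvector
    let ψ : Module.End (MonoidAlgebra k G) (Md (ga ρ)) :=
      φ - (algebraMap k (Module.End (MonoidAlgebra k G) (Md (ga ρ))) c)
    have hψ : ∀ m, ψ m = φ m - c • m := fun m => rfl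
    have hψ0 : ψ = 0 := by
      rcases LinearMap.injective_or_eq_zero ψ with h1 | h1
      · exfalso
        apply hv.2
        apply h1
        rw [hψ, map_zero]
        have h2 : φk v = c • v := hv.apply_eq_smul
        exact sub_eq_zero.2 h2
      · exact h1
    refine ⟨c, fun m => ?_⟩
    have h1 := hψ m
    rw [hψ0, LinearMap.zero_apply] at h1
    exact (sub_eq_zero.1 h1.symm)
  have hmem : ∀ a : MonoidAlgebra k G, ga ρ a ∈ Submodule.span k (Set.range (mt ρ)) := by
    intro a
    induction a using MonoidAlgebra.induction_linear with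
    | zero => rw [map_zero]; exact Submodule.zero_mem _
    | add a b ha hb => rw [map_add]; exact Submodule.add_mem _ ha hb
    | single g c =>
      rw [ga_single]
      exact Submodule.smul_mem _ _ (Submodule.subset_span ⟨g, rfl⟩)
  rw [eq_top_iff]
  intro A _
  let f : Module.End (Module.End (MonoidAlgebra k G) (Md (ga ρ))) (Md (ga ρ)) :=
    { toFun := fun m => (A.mulVec m : Fin n → k)
      map_add' := fun x y => Matrix.mulVec_add A x y
      map_smul' := fun φ m => by
        obtain ⟨c, hc⟩ := hschur φ
        have h1 : φ m = c • m := hc m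
        have h2 : φ (A.mulVec m : Fin n → k) = (c • (A.mulVec m) : Fin n → k) :=
          hc (A.mulVec m : Fin n → k)
        have h3 : A.mulVec (c • m : Fin n → k) = c • (A.mulVec m) := Matrix.mulVec_smul A c m
        change A.mulVec (φ m) = φ (A.mulVec m : Fin n → k)
        exact (congrArg (fun z : Md (ga ρ) => (A.mulVec z : Fin n → k)) h1).trans (h3.trans h2.symm) }
  obtain ⟨a, ha⟩ := jacobson_density f (Finset.univ.image fun i : Fin n => (Pi.single i (1 : k) : Fin n → k))
  have h1 : A = ga ρ a := by
    ext i j
    have h2 := ha (Pi.single j (1 : k) : Fin n → k) (Finset.mem_image_of_mem _ (Finset.mem_univ j))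
    have h3 : A.mulVec (Pi.single j (1 : k)) = (ga ρ a).mulVec (Pi.single j (1 : k)) := h2
    rw [Matrix.mulVec_single_one, Matrix.mulVec_single_one] at h3
    exact congrFun h3 i
  rw [h1]
  exact hmem a

end Pool.Agent.Y719.TN
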