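import Pool.Agent.Y719.TN.Nil

/-!
# Algebras of functions on a group
-/

set_option autoImplicit false
set_option linter.all false

namespace Pool.Agent.Y719.TN

open Polynomial

variable {k : Type} [Field k] {H : Type} [Group H] {n N : ℕ}

/-- the entries of `w` and of the inverse -/
def gW (w : H →* Matrix (Fin N) (Fin N) k) : Set (H → k) :=
  {f | ∃ i j, f = fun x => w x i j} ∪ {f | ∃ i j, f = fun x => w x⁻¹ i j}

/-- the entries of `r` -/
def gR (r : H →* Matrix (Fin n) (Fin n) k) : Set (H → k) := {f | ∃ i j, f = fun x => r x i j}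

/-- the algebra generated by the entries of `w` and the inverse -/
def OO (w : H →* Matrix (Fin N) (Fin N) k) : Subalgebra k (H → k) := Algebra.adjoin k (gW w)

/-- the algebra generated by all entries -/
def AA (r : H →* Matrix (Fin n) (Fin n) k) (w : H →* Matrix (Fin N) (Fin N) k) :
    Subalgebra k (H → k) := Algebra.adjoin k (gW w ∪ gR r)

/-- a matrix of functions with entries in a subalgebra -/
def Ent {a b : ℕ} (S : Subalgebra k (H → k)) (F : H → Matrix (Fin a) (Fin b) k) : Prop :=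
  ∀ i j, (fun x => F x i j) ∈ S

lemma Ent.mul {a b c : ℕ} {S : Subalgebra k (H → k)} {F : H → Matrix (Fin a) (Fin b) k}
    {G : H → Matrix (Fin b) (Fin c) k} (hF : Ent S F) (hG : Ent S G) :
    Ent S (fun x => F x * G x) := by
  intro i j
  have h1 : (fun x => (F x * G x) i j) = ∑ l, (fun x => F x i l) * (fun x => G x l j) := by
    funext x
    rw [Matrix.mul_apply, Finset.sum_apply]
    rfl
  rw [h1]
  exact S.sum_mem fun l _ => S.mul_mem (hF i l) (hG l j)

lemma Ent.congr {a b : ℕ} {S : Subalgebra k (H → k)} {F G : H → Matrix (Fin a) (Fin b) k}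
    (hF : Ent S F) (h : ∀ x, F x = G x) : Ent S G := by
  have h1 : F = G := funext h
  rwa [← h1]

lemma Ent.const {a b : ℕ} (S : Subalgebra k (H → k)) (M : Matrix (Fin a) (Fin b) k) :
    Ent S (fun _ : H => M) := by
  intro i j
  exact S.algebraMap_mem (M i j)

variable {r : H →* Matrix (Fin n) (Fin n) k} {w : H →* Matrix (Fin N) (Fin N) k}

lemma OO_le : OO w ≤ AA r w := Algebra.adjoin_mono Set.subset_union_left

lemma ent_w : Ent (OO w) (fun x => w x) := fun i j =>
  Algebra.subset_adjoin (Or.inl ⟨i, j, rfl⟩)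

lemma ent_w' : Ent (OO w) (fun x => w x⁻¹) := fun i j =>
  Algebra.subset_adjoin (Or.inr ⟨i, j, rfl⟩)

lemma ent_r : Ent (AA r w) (fun x => r x) := fun i j =>
  Algebra.subset_adjoin (Or.inr ⟨i, j, rfl⟩)

lemma Ent.up {a b : ℕ} {F : H → Matrix (Fin a) (Fin b) k} (h : Ent (OO w) F) : Ent (AA r w) F :=
  fun i j => OO_le (h i j)

/-- substitution -/
def sub (σ : H → H) : (H → k) →ₐ[k] (H → k) where
  toFun f x := f (σ x)
  map_one' := rfl
  map_mul' _ _ := rfl
  map_zero' := rfl
  map_add' _ _ := rfl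
  commutes' _ := rfl

lemma sub_apply (σ : H → H) (f : H → k) (x : H) : sub σ f x = f (σ x) := rfl

/-- preservation of the algebras -/
lemma OO_sub {σ : H → H} (h1 : Ent (OO w) (fun x => w (σ x)))
    (h2 : Ent (OO w) (fun x => w (σ x)⁻¹)) {f : H → k} (hf : f ∈ OO w) : sub σ f ∈ OO w := by
  have h3 : OO w ≤ (OO w).comap (sub σ) := by
    refine Algebra.adjoin_le ?_
    rintro g (⟨i, j, rfl⟩ | ⟨i, j, rfl⟩)
    · exact h1 i j
    · exact h2 i j
  exact h3 hf

lemma AA_sub {σ : H → H} (h1 : Ent (AA r w) (fun x => w (σ x)))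
    (h2 : Ent (AA r w) (fun x => w (σ x)⁻¹)) (h3 : Ent (AA r w) (fun x => r (σ x))) {f : H → k}
    (hf : f ∈ AA r w) : sub σ f ∈ AA r w := by
  have h4 : AA r w ≤ (AA r w).comap (sub σ) := by
    refine Algebra.adjoin_le ?_
    rintro g ((⟨i, j, rfl⟩ | ⟨i, j, rfl⟩) | ⟨i, j, rfl⟩)
    · exact h1 i j
    · exact h2 i j
    · exact h3 i j
  exact h4 hf

lemma OO_right (y : H) {f : H → k} (hf : f ∈ OO w) : sub (fun x => x * y) f ∈ OO w := by
  refine OO_sub ?_ ?_ hf
  · have h := (ent_w (w := w)).mul (Ent.const (OO w) (w y))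
    exact h.congr fun x => (map_mul _ _ _).symm
  · have h := (Ent.const (OO w) (w y⁻¹)).mul (ent_w' (w := w))
    exact h.congr fun x => by rw [mul_inv_rev, map_mul]

lemma OO_left (y : H) {f : H → k} (hf : f ∈ OO w) : sub (fun x => y * x) f ∈ OO w := by
  refine OO_sub ?_ ?_ hf
  · have h := (Ent.const (OO w) (w y)).mul (ent_w (w := w))
    exact h.congr fun x => (map_mul _ _ _).symm
  · have h := (ent_w' (w := w)).mul (Ent.const (OO w) (w y⁻¹))
    exact h.congr fun x => by rw [mul_inv_rev, map_mul]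

lemma OO_inv {f : H → k} (hf : f ∈ OO w) : sub (fun x => x⁻¹) f ∈ OO w := by
  refine OO_sub ent_w' ?_ hf
  intro i j
  simp only [inv_inv]
  exact ent_w i j

lemma AA_right (y : H) {f : H → k} (hf : f ∈ AA r w) : sub (fun x => x * y) f ∈ AA r w := by
  refine AA_sub ?_ ?_ ?_ hf
  · have h := (ent_w (w := w)).up (r := r) |>.mul (Ent.const (AA r w) (w y))
    exact h.congr fun x => (map_mul _ _ _).symm
  · have h := (Ent.const (AA r w) (w y⁻¹)).mul ((ent_w' (w := w)).up (r := r))
    exact h.congr fun x => by rw [mul_inv_rev, map_mul]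
  · have h := (ent_r (r := r) (w := w)).mul (Ent.const (AA r w) (r y))
    exact h.congr fun x => (map_mul _ _ _).symm

/-- the functions as matrices over the algebra -/
def Rt (r : H →* Matrix (Fin n) (Fin n) k) (w : H →* Matrix (Fin N) (Fin N) k) :
    Matrix (Fin n) (Fin n) (AA r w) := fun i j => ⟨fun x => r x i j, ent_r i j⟩

def Wt (r : H →* Matrix (Fin n) (Fin n) k) (w : H →* Matrix (Fin N) (Fin N) k) :
    Matrix (Fin N) (Fin N) (AA r w) := fun i j => ⟨fun x => w x i j, ent_w.up i j⟩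

def Wi (r : H →* Matrix (Fin n) (Fin n) k) (w : H →* Matrix (Fin N) (Fin N) k) :
    Matrix (Fin N) (Fin N) (AA r w) := fun i j => ⟨fun x => w x⁻¹ i j, ent_w'.up i j⟩

/-- evaluation -/
def ev (r : H →* Matrix (Fin n) (Fin n) k) (w : H →* Matrix (Fin N) (Fin N) k) (x : H) :
    AA r w →ₐ[k] k := (Pi.evalAlgHom k (fun _ : H => k) x).comp (AA r w).val

lemma ev_apply (x : H) (f : AA r w) : ev r w x f = f.1 x := rfl

lemma ev_Rt (x : H) : (Rt r w).map (ev r w x) = r x := rfl

lemma ev_Wt (x : H) : (Wt r w).map (ev r w x) = w x := rfl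

lemma map_const {a b : ℕ} {B C : Type} [CommRing B] [Algebra k B] [CommRing C] [Algebra k C]
    (φ : B →ₐ[k] C) (p : Matrix (Fin a) (Fin b) k) :
    (p.map (algebraMap k B)).map φ = p.map (algebraMap k C) := by
  ext i j
  simp only [Matrix.map_apply]
  exact φ.commutes _

lemma map_const' {a b : ℕ} {B : Type} [CommRing B] [Algebra k B] 
    (φ : B →ₐ[k] k) (p : Matrix (Fin a) (Fin b) k) :
    (p.map (algebraMap k B)).map φ = p := by
  rw [map_const]
  ext i j
  rfl

lemma map_mul_const {a b c : ℕ} {B : Type} [CommRing B] [Algebra k B]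
    (φ : B →ₐ[k] k) (Y : Matrix (Fin a) (Fin b) B) (p : Matrix (Fin b) (Fin c) k) :
    (Y * p.map (algebraMap k B)).map φ = Y.map φ * p := by
  have h1 : (Y * p.map (algebraMap k B)).map φ = Y.map φ * (p.map (algebraMap k B)).map φ :=
    Matrix.map_mul
  rw [h1, map_const']

/-- the equation in the algebra -/
lemma equation {p : Matrix (Fin n) (Fin n) k} {q : Matrix (Fin N) (Fin N) k}
    (hE : ∀ x, aeval (r x * p) ((w x * q).charpoly ^ n) = 0) :
    aeval (Rt r w * p.map (algebraMap k (AA r w)))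
      ((Wt r w * q.map (algebraMap k (AA r w))).charpoly ^ n) = 0 := by
  ext i j x
  set Y := Rt r w * p.map (algebraMap k (AA r w)) with hY
  set Z := Wt r w * q.map (algebraMap k (AA r w)) with hZ
  have h1 := map_aeval_mat (ev r w x : AA r w →+* k) Y (Z.charpoly ^ n)
  rw [Polynomial.map_pow, ← Matrix.charpoly_map] at h1
  have h2 : Y.map (ev r w x : AA r w →+* k) = r x * p := by
    have := map_mul_const (ev r w x) (Rt r w) p
    rw [ev_Rt] at this
    exact this
  have h3 : Z.map (ev r w x : AA r w →+* k) = w x * q := by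
    have := map_mul_const (ev r w x) (Wt r w) q
    rw [ev_Wt] at this
    exact this
  rw [h2, h3, hE] at h1
  exact congrFun (congrFun h1 i) j

/-- specialisation of the equation -/
lemma transfer {p : Matrix (Fin n) (Fin n) k} {q : Matrix (Fin N) (Fin N) k}
    (hE : ∀ x, aeval (r x * p) ((w x * q).charpoly ^ n) = 0) (φ : AA r w →ₐ[k] k)
    (hφ : (Wt r w).map φ = 1) : aeval ((Rt r w).map φ * p) (q.charpoly ^ n) = 0 := by
  have h1 := congrArg (fun M => M.map (φ : AA r w →+* k)) (equation hE)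
  simp only [map_aeval_mat] at h1
  rw [Polynomial.map_pow, ← Matrix.charpoly_map] at h1
  have h2 : (Rt r w * p.map (algebraMap k (AA r w))).map (φ : AA r w →+* k) =
      (Rt r w).map φ * p := map_mul_const φ (Rt r w) p
  have h3 : (Wt r w * q.map (algebraMap k (AA r w))).map (φ : AA r w →+* k) =
      (Wt r w).map φ * q := map_mul_const φ (Wt r w) q
  rw [h2, h3, hφ, one_mul] at h1
  rw [h1]
  ext i j
  simp

/-- translation by a point -/
noncomputable def tp (φ : AA r w →ₐ[k] k) : AA r w →ₐ[k] (H → k) :=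
  Pi.algHom k (fun _ : H => k) fun y =>
    φ.comp (((sub fun x => x * y).comp (AA r w).val).codRestrict (AA r w) fun f => AA_right y f.2)

lemma tp_apply (φ : AA r w →ₐ[k] k) (f : AA r w) (y : H) :
    tp φ f y = φ ⟨sub (fun x => x * y) f.1, AA_right y f.2⟩ := rfl

lemma phi_mul {a b c : ℕ} (φ : AA r w →ₐ[k] k) (F : Matrix (Fin a) (Fin b) (AA r w))
    (M : Matrix (Fin b) (Fin c) k) (i : Fin a) (j : Fin c) :
    φ (∑ l, F i l * algebraMap k (AA r w) (M l j)) = (F.map φ * M) i j := by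
  rw [map_sum, Matrix.mul_apply]
  refine Finset.sum_congr rfl fun l _ => ?_
  rw [map_mul, AlgHom.commutes]
  rfl

lemma phi_mul' {a b c : ℕ} (φ : AA r w →ₐ[k] k) (M : Matrix (Fin a) (Fin b) k)
    (F : Matrix (Fin b) (Fin c) (AA r w)) (i : Fin a) (j : Fin c) :
    φ (∑ l, algebraMap k (AA r w) (M i l) * F l j) = (M * F.map φ) i j := by
  rw [map_sum, Matrix.mul_apply]
  refine Finset.sum_congr rfl fun l _ => ?_
  rw [map_mul, AlgHom.commutes]
  rfl

lemma shift_Rt (y : H) (i j : Fin n) :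
    (⟨sub (fun x => x * y) (Rt r w i j).1, AA_right y (Rt r w i j).2⟩ : AA r w) =
      ∑ l, Rt r w i l * algebraMap k (AA r w) (r y l j) := by
  apply Subtype.ext
  funext x
  have h1 : ((∑ l, Rt r w i l * algebraMap k (AA r w) (r y l j) : AA r w) : H → k) x =
      ev r w x (∑ l, Rt r w i l * algebraMap k (AA r w) (r y l j)) := rfl
  rw [h1, phi_mul, ev_Rt, ← map_mul]
  rfl

lemma shift_Wt (y : H) (i j : Fin N) :
    (⟨sub (fun x => x * y) (Wt r w i j).1, AA_right y (Wt r w i j).2⟩ : AA r w) =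
      ∑ l, Wt r w i l * algebraMap k (AA r w) (w y l j) := by
  apply Subtype.ext
  funext x
  have h1 : ((∑ l, Wt r w i l * algebraMap k (AA r w) (w y l j) : AA r w) : H → k) x =
      ev r w x (∑ l, Wt r w i l * algebraMap k (AA r w) (w y l j)) := rfl
  rw [h1, phi_mul, ev_Wt, ← map_mul]
  rfl

lemma shift_Wi (y : H) (i j : Fin N) :
    (⟨sub (fun x => x * y) (Wi r w i j).1, AA_right y (Wi r w i j).2⟩ : AA r w) =
      ∑ l, algebraMap k (AA r w) (w y⁻¹ i l) * Wi r w l j := by
  apply Subtype.ext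
  funext x
  have h1 : ((∑ l, algebraMap k (AA r w) (w y⁻¹ i l) * Wi r w l j : AA r w) : H → k) x =
      ev r w x (∑ l, algebraMap k (AA r w) (w y⁻¹ i l) * Wi r w l j) := rfl
  have h2 : (Wi r w).map (ev r w x) = w x⁻¹ := rfl
  rw [h1, phi_mul', h2, ← map_mul, ← mul_inv_rev]
  rfl

/-- points over the identity -/
def Pt (φ : AA r w →ₐ[k] k) : Prop := (Wt r w).map φ = 1 ∧ (Wi r w).map φ = 1

lemma tp_mem {φ : AA r w →ₐ[k] k} (hφ : Pt φ) (f : AA r w) : tp φ f ∈ AA r w := by
  have key : ∀ {f g : H → k}, f = g → g ∈ AA r w → f ∈ AA r w := fun h hg => by rwa [h]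
  have h1 : ∀ f (hf : f ∈ AA r w), tp φ ⟨f, hf⟩ ∈ AA r w := by
    intro f hf
    unfold AA at hf
    induction hf using Algebra.adjoin_induction with
    | mem f hf =>
      rcases hf with (⟨i, j, rfl⟩ | ⟨i, j, rfl⟩) | ⟨i, j, rfl⟩
      · have h2 : tp φ (Wt r w i j) = fun y => w y i j := by
          funext y
          rw [tp_apply, shift_Wt, phi_mul, hφ.1, one_mul]
        exact key h2 (ent_w.up i j)
      · have h2 : tp φ (Wi r w i j) = fun y => w y⁻¹ i j := by
          funext y
          rw [tp_apply, shift_Wi, phi_mul', hφ.2, mul_one]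
        exact key h2 (ent_w'.up i j)
      · have h2 : tp φ (Rt r w i j) = fun y => ((Rt r w).map φ * r y) i j := by
          funext y
          rw [tp_apply, shift_Rt, phi_mul]
        exact key h2 ((Ent.const (AA r w) ((Rt r w).map φ)).mul ent_r i j)
    | algebraMap c =>
      have h2 : tp φ ⟨algebraMap k (H → k) c, (AA r w).algebraMap_mem c⟩ = algebraMap k (H → k) c :=
        (tp φ).commutes c
      exact key h2 ((AA r w).algebraMap_mem c)
    | add f g hf hg ihf ihg =>
      have h2 : tp φ ⟨f + g, (AA r w).add_mem hf hg⟩ = tp φ ⟨f, hf⟩ + tp φ ⟨g, hg⟩ :=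
        map_add (tp φ) ⟨f, hf⟩ ⟨g, hg⟩
      exact key h2 ((AA r w).add_mem ihf ihg)
    | mul f g hf hg ihf ihg =>
      have h2 : tp φ ⟨f * g, (AA r w).mul_mem hf hg⟩ = tp φ ⟨f, hf⟩ * tp φ ⟨g, hg⟩ :=
        map_mul (tp φ) ⟨f, hf⟩ ⟨g, hg⟩
      exact key h2 ((AA r w).mul_mem ihf ihg)
  exact h1 f.1 f.2

/-- powers of a point -/
lemma powers {φ : AA r w →ₐ[k] k} (hφ : Pt φ) (m : ℕ) :
    ∃ ψ : AA r w →ₐ[k] k, Pt ψ ∧ (Rt r w).map ψ = (Rt r w).map φ ^ m := by
  induction m with
  | zero =>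
    refine ⟨ev r w 1, ⟨?_, ?_⟩, ?_⟩
    · rw [ev_Wt, map_one]
    · have h2 : (Wi r w).map (ev r w 1) = w 1⁻¹ := rfl
      rw [h2, inv_one, map_one]
    · rw [ev_Rt, map_one, pow_zero]
  | succ m ih =>
    obtain ⟨ψ, hψ, hm⟩ := ih
    let T : AA r w →ₐ[k] AA r w := (tp φ).codRestrict (AA r w) (tp_mem hφ)
    have hT : ∀ f, (T f).1 = tp φ f := fun f => rfl
    refine ⟨ψ.comp T, ⟨?_, ?_⟩, ?_⟩
    · ext i j
      have h1 : T (Wt r w i j) = Wt r w i j := by
        apply Subtype.ext
        rw [hT]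
        funext y
        rw [tp_apply, shift_Wt, phi_mul, hφ.1, one_mul]
        rfl
      change ψ (T (Wt r w i j)) = _
      rw [h1]
      exact congrFun (congrFun hψ.1 i) j
    · ext i j
      have h1 : T (Wi r w i j) = Wi r w i j := by
        apply Subtype.ext
        rw [hT]
        funext y
        rw [tp_apply, shift_Wi, phi_mul', hφ.2, mul_one]
        rfl
      change ψ (T (Wi r w i j)) = _
      rw [h1]
      exact congrFun (congrFun hψ.2 i) j
    · ext i j
      have h1 : T (Rt r w i j) = ∑ l, algebraMap k (AA r w) ((Rt r w).map φ i l) * Rt r w l j := by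
        apply Subtype.ext
        rw [hT]
        funext y
        have h2 : ((∑ l, algebraMap k (AA r w) ((Rt r w).map φ i l) * Rt r w l j : AA r w) : H → k) y =
            ev r w y (∑ l, algebraMap k (AA r w) ((Rt r w).map φ i l) * Rt r w l j) := rfl
        rw [tp_apply, shift_Rt, phi_mul, h2, phi_mul', ev_Rt]
      change ψ (T (Rt r w i j)) = _
      rw [h1, phi_mul', hm, pow_succ']

end Pool.Agent.Y719.TN
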