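import Pool.Agent.Y719.TN.Core

/-!
# Functions with eigenvalues among the eigenvalues of `w`
-/

set_option autoImplicit false
set_option linter.all false

namespace Pool.Agent.Y719.TN

open Polynomial

variable {k : Type} [Field k] [IsAlgClosed k] [CharZero k] {H : Type} [Group H] {n N : ℕ}
  {r : H →* Matrix (Fin n) (Fin n) k} {w : H →* Matrix (Fin N) (Fin N) k}
  {P : Set (Matrix (Fin n) (Fin n) k × Matrix (Fin N) (Fin N) k)}

/-- the hypotheses -/
structure Hyp (r : H →* Matrix (Fin n) (Fin n) k) (w : H →* Matrix (Fin N) (Fin N) k)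
    (P : Set (Matrix (Fin n) (Fin n) k × Matrix (Fin N) (Fin N) k)) : Prop where
  one : ((1 : Matrix (Fin n) (Fin n) k), (1 : Matrix (Fin N) (Fin N) k)) ∈ P
  span : Submodule.span k (Prod.fst '' P) = ⊤
  eq : ∀ p ∈ P, ∀ x, aeval (r x * p.1) ((w x * p.2).charpoly ^ n) = 0

lemma Hyp.rigid (h : Hyp r w P) {φ : AA r w →ₐ[k] k} (hφ : Pt φ) : (Rt r w).map φ = 1 := by
  have h1 : ∀ m : ℕ, ∀ p ∈ P, aeval ((Rt r w).map φ ^ m * p.1) (p.2.charpoly ^ n) = 0 := by
    intro m p hp
    obtain ⟨ψ, hψ, hm⟩ := powers hφ m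
    rw [← hm]
    exact transfer (h.eq p hp) ψ hψ.1
  refine eq_one_of_unip _ (N * n) ?_ (Prod.fst '' P) h.span ?_
  · have h2 := h1 1 _ h.one
    rw [pow_one, mul_one, Matrix.charpoly_one, Fintype.card_fin, ← pow_mul, map_pow, map_sub,
      aeval_X, map_one] at h2
    exact h2
  · rintro _ ⟨p, hp, rfl⟩
    exact ⟨p.2.charpoly ^ n, pow_ne_zero _ (Matrix.charpoly_monic _).ne_zero, fun m => h1 m p hp⟩

lemma Hyp.uniq (h : Hyp r w P) (x : H) (ψ : AA r w →ₐ[k] k)
    (hψ : ∀ f (hf : f ∈ OO w), ψ ⟨f, OO_le hf⟩ = f x) : (Rt r w).map ψ = r x := by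
  let φ : AA r w →ₐ[k] k :=
    ψ.comp (((sub fun y => y * x⁻¹).comp (AA r w).val).codRestrict (AA r w) fun f =>
      AA_right x⁻¹ f.2)
  have hφ : ∀ f : AA r w, φ f = ψ ⟨sub (fun y => y * x⁻¹) f.1, AA_right x⁻¹ f.2⟩ := fun f => rfl
  have hW : (Wt r w).map ψ = w x := by
    ext i j
    exact hψ _ (ent_w i j)
  have hWi : (Wi r w).map ψ = w x⁻¹ := by
    ext i j
    exact hψ _ (ent_w' i j)
  have hpt : Pt φ := by
    constructor
    · ext i j
      change φ (Wt r w i j) = _
      rw [hφ, shift_Wt, phi_mul, hW, ← map_mul, mul_inv_cancel, map_one]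
    · ext i j
      change φ (Wi r w i j) = _
      rw [hφ, shift_Wi, phi_mul', hWi, inv_inv, ← map_mul, mul_inv_cancel, map_one]
  have h1 := h.rigid hpt
  have h2 : (Rt r w).map φ = (Rt r w).map ψ * r x⁻¹ := by
    ext i j
    change φ (Rt r w i j) = _
    rw [hφ, shift_Rt, phi_mul]
  rw [h2] at h1
  calc (Rt r w).map ψ = (Rt r w).map ψ * (r x⁻¹ * r x) := by
        rw [← map_mul, inv_mul_cancel, map_one, mul_one]
    _ = ((Rt r w).map ψ * r x⁻¹) * r x := by rw [mul_assoc]
    _ = r x := by rw [h1, one_mul]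

/-- the inclusion -/
noncomputable def inc (r : H →* Matrix (Fin n) (Fin n) k) (w : H →* Matrix (Fin N) (Fin N) k) :
    OO w →ₐ[k] AA r w := Subalgebra.inclusion OO_le

lemma Hyp.integral [IsDomain (AA r w)] (h : Hyp r w P) (f : AA r w) :
    letI : Algebra (OO w) (AA r w) := (inc r w).toAlgebra
    IsIntegral (OO w) f := by
  letI : Algebra (OO w) (AA r w) := (inc r w).toAlgebra
  -- the traces
  have h1 : ∀ p ∈ P, IsIntegral (OO w)
      (Rt r w * p.1.map (algebraMap k (AA r w))).trace := by
    intro p hp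
    set Wo : Matrix (Fin N) (Fin N) (OO w) := fun i j => ⟨fun x => w x i j, ent_w i j⟩ with hWo
    have e1 : (Wo * p.2.map (algebraMap k (OO w))).map (algebraMap (OO w) (AA r w)) =
        Wt r w * p.2.map (algebraMap k (AA r w)) := by
      have e2 : (Wo * p.2.map (algebraMap k (OO w))).map (algebraMap (OO w) (AA r w)) =
          Wo.map (algebraMap (OO w) (AA r w)) *
            (p.2.map (algebraMap k (OO w))).map (algebraMap (OO w) (AA r w)) := Matrix.map_mul
      rw [e2]
      rfl
    refine isIntegral_trace _ ((Wo * p.2.map (algebraMap k (OO w))).charpoly ^ n)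
      ((Matrix.charpoly_monic _).pow n) ?_
    rw [Polynomial.map_pow, ← Matrix.charpoly_map, e1]
    exact equation (h.eq p hp)
  have h2 : ∀ p : Matrix (Fin n) (Fin n) k, IsIntegral (OO w)
      (Rt r w * p.map (algebraMap k (AA r w))).trace := by
    intro p
    have hp : p ∈ Submodule.span k (Prod.fst '' P) := by rw [h.span]; trivial
    induction hp using Submodule.span_induction with
    | mem p hp =>
      obtain ⟨q, hq, rfl⟩ := hp
      exact h1 q hq
    | zero =>
      have e : (Rt r w * (0 : Matrix (Fin n) (Fin n) k).map (algebraMap k (AA r w))).trace = 0 := by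
        rw [Matrix.map_zero _ (map_zero _), mul_zero, Matrix.trace_zero]
      rw [e]
      exact isIntegral_zero
    | add a b _ _ ha hb =>
      rw [Matrix.map_add _ (map_add _), mul_add, Matrix.trace_add]
      exact ha.add hb
    | smul c a _ ha =>
      have e : (Rt r w * (c • a).map (algebraMap k (AA r w))).trace =
          (algebraMap (OO w) (AA r w) (algebraMap k (OO w) c)) *
            (Rt r w * a.map (algebraMap k (AA r w))).trace := by
        have e1 : (c • a).map (algebraMap k (AA r w)) =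
            (algebraMap (OO w) (AA r w) (algebraMap k (OO w) c)) •
              a.map (algebraMap k (AA r w)) := by
          ext i j
          simp only [Matrix.map_apply, Matrix.smul_apply, smul_eq_mul, map_mul]
          rfl
        rw [e1, mul_smul_comm, Matrix.trace_smul, smul_eq_mul]
      rw [e]
      exact (isIntegral_algebraMap).mul ha
  have h3 : ∀ i j, IsIntegral (OO w) (Rt r w i j) := by
    intro i j
    have h4 := h2 (Matrix.single j i 1)
    have e : (Rt r w * (Matrix.single j i (1 : k)).map (algebraMap k (AA r w))).trace =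
        Rt r w i j := by
      rw [Matrix.map_single, map_one, Matrix.trace_mul_single]
      simp
    rwa [e] at h4
  -- all elements
  have h5 : ∀ f (hf : f ∈ AA r w), IsIntegral (OO w) (⟨f, hf⟩ : AA r w) := by
    intro f hf
    unfold AA at hf
    induction hf using Algebra.adjoin_induction with
    | mem f hf =>
      rcases hf with (⟨i, j, rfl⟩ | ⟨i, j, rfl⟩) | ⟨i, j, rfl⟩
      · exact isIntegral_algebraMap (R := OO w) (A := AA r w) (x := ⟨fun x => w x i j, ent_w i j⟩)
      · exact isIntegral_algebraMap (R := OO w) (A := AA r w) (x := ⟨fun x => w x⁻¹ i j, ent_w' i j⟩)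
      · exact h3 i j
    | algebraMap c =>
      exact isIntegral_algebraMap (R := OO w) (A := AA r w) (x := algebraMap k (OO w) c)
    | add f g hf hg ihf ihg => exact ihf.add ihg
    | mul f g hf hg ihf ihg => exact ihf.mul ihg
  exact h5 f.1 f.2

lemma inc_mk (f : H → k) (hf : f ∈ OO w) : inc r w ⟨f, hf⟩ = ⟨f, OO_le hf⟩ :=
  Subalgebra.inclusion_mk OO_le f hf

lemma ev_inc (x : H) (f : OO w) : ev r w x (inc r w f) = f.1 x := by
  obtain ⟨f, hf⟩ := f
  rw [inc_mk]
  rfl

lemma inc_inj : Function.Injective (inc r w) := Subalgebra.inclusion_injective OO_le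

/-- a denominator -/
theorem Hyp.denom [IsDomain (AA r w)] (h : Hyp r w P) (i j : Fin n) :
    ∃ b ∈ OO w, b ≠ 0 ∧ b * (fun x => r x i j) ∈ OO w := by
  letI : Algebra (OO w) (AA r w) := (inc r w).toAlgebra
  have halg : ∀ f : OO w, algebraMap (OO w) (AA r w) f = inc r w f := fun f => rfl
  have hinj : Function.Injective (algebraMap (OO w) (AA r w)) := inc_inj
  haveI : FaithfulSMul (OO w) (AA r w) := (faithfulSMul_iff_algebraMap_injective _ _).2 hinj
  haveI : IsDomain (OO w) := Function.Injective.isDomain (algebraMap (OO w) (AA r w)) hinj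
  haveI : IsScalarTower k (OO w) (AA r w) := IsScalarTower.of_algebraMap_eq fun c => by
    rw [halg]
    exact ((inc r w).commutes c).symm
  haveI : Algebra.IsIntegral (OO w) (AA r w) := ⟨fun f => h.integral f⟩
  obtain ⟨u, v, d, hd, hv, huv⟩ := trace_arg (k := k) (O := OO w) (A := AA r w) (X := H)
    (fun x => ev r w x) (Rt r w i j) (fun x ψ hψ => by
      have h1 := h.uniq x ψ fun f hf => by
        have h2 := hψ ⟨f, hf⟩
        rw [halg, ev_inc, inc_mk] at h2
        exact h2
      exact congrFun (congrFun h1 i) j)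
  refine ⟨(d : k) • v.1, (OO w).smul_mem v.2 _, ?_, ?_⟩
  · intro h0
    apply hv
    apply Subtype.ext
    funext x
    have h1 := congrFun h0 x
    have h2 : (d : k) * v.1 x = 0 := h1
    rcases mul_eq_zero.1 h2 with h3 | h3
    · exact absurd h3 (by exact_mod_cast hd.ne')
    · exact h3
  · have h1 : (d : k) • v.1 * (fun x => r x i j) = u.1 := by
      funext x
      have h2 := huv x
      rw [halg, halg, ev_inc, ev_inc] at h2
      have h3 : ev r w x (Rt r w i j) = r x i j := rfl
      rw [h3] at h2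
      change (d : k) * v.1 x * r x i j = u.1 x
      rw [← h2]
      ring
    rw [h1]
    exact u.2

end Pool.Agent.Y719.TN
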