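import Pool.Agent.Y719.TN.Core2

/-!
# Denominators can be removed
-/

set_option autoImplicit false
set_option linter.all false

namespace Pool.Agent.Y719.TN

open Polynomial Module

section pts

variable {k : Type} [Field k] {X : Type}

/-- on a finite-dimensional space of functions every functional is a combination of values -/
lemma functional (D : Submodule k (X → k)) [FiniteDimensional k D] (F : Module.Dual k D) :
    ∃ (T : Finset X) (c : X → k), ∀ f : D, F f = ∑ x ∈ T, c x * f.1 x := by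
  classical
  let e : X → Module.Dual k D := fun x => (LinearMap.proj x).comp D.subtype
  have he : ∀ x f, e x f = f.1 x := fun x f => rfl
  have hspan : Submodule.span k (Set.range e) = ⊤ := by
    by_contra hne
    obtain ⟨G, hG0, hG⟩ := Submodule.exists_le_ker_of_lt_top _ (lt_top_iff_ne_top.2 hne)
    obtain ⟨d, hd⟩ := (Module.evalEquiv k D).surjective G
    apply hG0
    have h1 : d = 0 := by
      apply Subtype.ext
      funext x
      have h2 : G (e x) = 0 := hG (Submodule.subset_span ⟨x, rfl⟩)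
      rw [← hd, Module.evalEquiv_apply] at h2
      exact h2
    rw [← hd, h1, map_zero]
  have hF : F ∈ Submodule.span k (Set.range e) := by rw [hspan]; trivial
  rw [Finsupp.mem_span_range_iff_exists_finsupp] at hF
  obtain ⟨c, hc⟩ := hF
  refine ⟨c.support, c, fun f => ?_⟩
  rw [← hc, Finsupp.sum, LinearMap.sum_apply]
  rfl

end pts

variable {k : Type} [Field k] {H : Type} [Group H] {n N : ℕ}
  {r : H →* Matrix (Fin n) (Fin n) k} {w : H →* Matrix (Fin N) (Fin N) k}

/-- the comultiplication -/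
lemma cop {f : H → k} (hf : f ∈ OO w) : ∃ (ι : Type) (_ : Fintype ι) (a g : ι → (H → k)),
    (∀ i, a i ∈ OO w) ∧ (∀ i, g i ∈ OO w) ∧ ∀ y x, f (y * x) = ∑ i, a i y * g i x := by
  classical
  unfold OO at hf
  induction hf using Algebra.adjoin_induction with
  | mem f hf =>
    rcases hf with ⟨i, j, rfl⟩ | ⟨i, j, rfl⟩
    · refine ⟨Fin N, inferInstance, fun l x => w x i l, fun l x => w x l j, fun l => ent_w i l,
        fun l => ent_w l j, fun y x => ?_⟩
      simp only
      rw [map_mul, Matrix.mul_apply]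
    · refine ⟨Fin N, inferInstance, fun l x => w x⁻¹ l j, fun l x => w x⁻¹ i l,
        fun l => ent_w' l j, fun l => ent_w' i l, fun y x => ?_⟩
      simp only
      rw [mul_inv_rev, map_mul, Matrix.mul_apply]
      exact Finset.sum_congr rfl fun l _ => mul_comm _ _
  | algebraMap c =>
    refine ⟨Unit, inferInstance, fun _ => algebraMap k (H → k) c, fun _ => 1,
      fun _ => (OO w).algebraMap_mem c, fun _ => (OO w).one_mem, fun y x => ?_⟩
    simp
  | add f g _ _ ihf ihg =>
    obtain ⟨ι, _, a, b, ha, hb, h⟩ := ihf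
    obtain ⟨ι', _, a', b', ha', hb', h'⟩ := ihg
    refine ⟨ι ⊕ ι', inferInstance, Sum.elim a a', Sum.elim b b', ?_, ?_, fun y x => ?_⟩
    · rintro (i | i)
      · exact ha i
      · exact ha' i
    · rintro (i | i)
      · exact hb i
      · exact hb' i
    · rw [Pi.add_apply, h, h', Fintype.sum_sum_type]
      rfl
  | mul f g _ _ ihf ihg =>
    obtain ⟨ι, _, a, b, ha, hb, h⟩ := ihf
    obtain ⟨ι', _, a', b', ha', hb', h'⟩ := ihg
    refine ⟨ι × ι', inferInstance, fun p => a p.1 * a' p.2, fun p => b p.1 * b' p.2,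
      fun p => (OO w).mul_mem (ha _) (ha' _), fun p => (OO w).mul_mem (hb _) (hb' _),
      fun y x => ?_⟩
    rw [Pi.mul_apply, h, h', Finset.sum_mul_sum, Fintype.sum_prod_type]
    refine Finset.sum_congr rfl fun i _ => Finset.sum_congr rfl fun j _ => ?_
    simp only [Pi.mul_apply]
    ring

/-- **Denominators can be removed.** -/
theorem remove (b : Fin n → Fin n → (H → k)) (hb : ∀ i j, b i j ∈ OO w)
    (hne : ∏ i, ∏ j, b i j ≠ 0) (hbr : ∀ i j, b i j * (fun x => r x i j) ∈ OO w) (i₀ j₀ : Fin n) :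
    (fun x => r x i₀ j₀) ∈ OO w := by
  classical
  -- the ideal of denominators
  let 𝔡 : Set (H → k) := {f | f ∈ OO w ∧ ∀ i j, f * (fun x => r x i j) ∈ OO w}
  have hadd : ∀ f ∈ 𝔡, ∀ g ∈ 𝔡, f + g ∈ 𝔡 := fun f hf g hg =>
    ⟨(OO w).add_mem hf.1 hg.1, fun i j => by
      rw [add_mul]
      exact (OO w).add_mem (hf.2 i j) (hg.2 i j)⟩
  have hmul : ∀ f ∈ OO w, ∀ g ∈ 𝔡, f * g ∈ 𝔡 := fun f hf g hg =>
    ⟨(OO w).mul_mem hf hg.1, fun i j => by
      rw [mul_assoc]
      exact (OO w).mul_mem hf (hg.2 i j)⟩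
  have hzero : (0 : H → k) ∈ 𝔡 := ⟨(OO w).zero_mem, fun i j => by
    rw [zero_mul]
    exact (OO w).zero_mem⟩
  have hleft : ∀ (y : H), ∀ f ∈ 𝔡, sub (fun x => y * x) f ∈ 𝔡 := by
    intro y f hf
    refine ⟨OO_left y hf.1, fun i j => ?_⟩
    have h1 : sub (fun x => y * x) f * (fun x => r x i j) =
        sub (fun x => y * x) (∑ l, (r y⁻¹ i l) • (f * fun x => r x l j)) := by
      funext x
      rw [Pi.mul_apply, sub_apply, sub_apply, Finset.sum_apply]
      have h2 : r x = r y⁻¹ * r (y * x) := by rw [← map_mul, inv_mul_cancel_left]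
      have h3 : r x i j = ∑ l, r y⁻¹ i l * r (y * x) l j := by
        conv_lhs => rw [h2]
        rw [Matrix.mul_apply]
      rw [h3, Finset.mul_sum]
      refine Finset.sum_congr rfl fun l _ => ?_
      simp only [Pi.smul_apply, Pi.mul_apply, smul_eq_mul]
      ring
    rw [h1]
    exact OO_left y ((OO w).sum_mem fun l _ => (OO w).smul_mem (hf.2 l j) _)
  -- an element
  set b₀ := ∏ i, ∏ j, b i j with hb₀
  have hb₀𝔡 : b₀ ∈ 𝔡 := by
    refine ⟨(OO w).prod_mem fun i _ => (OO w).prod_mem fun j _ => hb i j, fun i j => ?_⟩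
    rw [hb₀, ← Finset.mul_prod_erase _ _ (Finset.mem_univ i),
      ← Finset.mul_prod_erase (Finset.univ) (fun j => b i j) (Finset.mem_univ j)]
    have h2 : (b i j * ∏ x ∈ Finset.univ.erase j, b i x) * (∏ x ∈ Finset.univ.erase i, ∏ j, b x j) *
        (fun x => r x i j) = (b i j * fun x => r x i j) * ((∏ x ∈ Finset.univ.erase j, b i x) *
          ∏ x ∈ Finset.univ.erase i, ∏ j, b x j) := by
      ring
    rw [h2]
    exact (OO w).mul_mem (hbr i j) ((OO w).mul_mem ((OO w).prod_mem fun j _ => hb _ _)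
      ((OO w).prod_mem fun i _ => (OO w).prod_mem fun j _ => hb _ _))
  obtain ⟨x₀, hx₀⟩ : ∃ x, b₀ x ≠ 0 := by
    by_contra hcon
    push Not at hcon
    exact hne (funext hcon)
  set b₁ := sub (fun x => x₀ * x) b₀ with hb₁
  have hb₁𝔡 : b₁ ∈ 𝔡 := hleft x₀ _ hb₀𝔡
  have hb₁1 : b₁ 1 ≠ 0 := by
    rw [hb₁, sub_apply, mul_one]
    exact hx₀
  -- the span of the translates
  let D : Submodule k (H → k) := Submodule.span k (Set.range fun y => sub (fun x => y * x) b₁)
  have hD𝔡 : ∀ f ∈ D, f ∈ 𝔡 := by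
    intro f hf
    induction hf using Submodule.span_induction with
    | mem f hf =>
      obtain ⟨y, rfl⟩ := hf
      exact hleft y _ hb₁𝔡
    | zero => exact hzero
    | add f g _ _ hf hg => exact hadd f hf g hg
    | smul c f _ hf =>
      have h1 := hmul _ ((OO w).algebraMap_mem c) f hf
      rwa [← Algebra.smul_def] at h1
  obtain ⟨ι, _, a, g, ha, hg, hag⟩ := cop hb₁𝔡.1
  have hfd : FiniteDimensional k D := by
    have h1 : D ≤ Submodule.span k (Set.range g) := by
      refine Submodule.span_le.2 ?_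
      rintro _ ⟨y, rfl⟩
      have h2 : sub (fun x => y * x) b₁ = ∑ i, a i y • g i := by
        funext x
        rw [sub_apply, hag, Finset.sum_apply]
        rfl
      change sub (fun x => y * x) b₁ ∈ Submodule.span k (Set.range g)
      rw [h2]
      exact Submodule.sum_mem _ fun i _ => Submodule.smul_mem _ _ (Submodule.subset_span ⟨i, rfl⟩)
    haveI : FiniteDimensional k (Submodule.span k (Set.range g)) :=
      FiniteDimensional.span_of_finite k (Set.finite_range g)
    exact Submodule.finiteDimensional_of_le h1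
  let v := Module.finBasis k D
  have hmemD : ∀ y, sub (fun x => y * x) b₁ ∈ D := fun y => Submodule.subset_span ⟨y, rfl⟩
  -- the coordinates
  have hcoord : ∀ s, (fun y => v.repr ⟨sub (fun x => y * x) b₁, hmemD y⟩ s) ∈ OO w := by
    intro s
    obtain ⟨T, c, hc⟩ := functional D (v.coord s)
    have h1 : (fun y => v.repr ⟨sub (fun x => y * x) b₁, hmemD y⟩ s) =
        ∑ t ∈ T, c t • sub (fun x => x * t) b₁ := by
      funext y
      rw [Finset.sum_apply]
      exact hc ⟨sub (fun x => y * x) b₁, hmemD y⟩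
    rw [h1]
    exact (OO w).sum_mem fun t _ => (OO w).smul_mem (OO_right t hb₁𝔡.1) _
  -- the constant
  have hconst : algebraMap k (H → k) (b₁ 1) ∈ 𝔡 := by
    have h1 : algebraMap k (H → k) (b₁ 1) = ∑ s, sub (fun x => x⁻¹)
        (fun y => v.repr ⟨sub (fun x => y * x) b₁, hmemD y⟩ s) * (v s).1 := by
      funext x
      rw [Finset.sum_apply]
      have h2 := congrArg (fun f : D => f.1 x)
        (v.sum_repr ⟨sub (fun z => x⁻¹ * z) b₁, hmemD x⁻¹⟩)
      simp only [AddSubmonoidClass.coe_finsetSum, Finset.sum_apply] at h2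
      have h3 : sub (fun z => x⁻¹ * z) b₁ x = b₁ 1 := by
        rw [sub_apply, inv_mul_cancel]
      rw [h3] at h2
      exact h2.symm
    rw [h1]
    have hsum : ∀ (T : Finset (Fin (finrank k D))), ∑ s ∈ T, sub (fun x => x⁻¹)
        (fun y => v.repr ⟨sub (fun x => y * x) b₁, hmemD y⟩ s) * (v s).1 ∈ 𝔡 := by
      intro T
      induction T using Finset.induction_on with
      | empty => rw [Finset.sum_empty]; exact hzero
      | insert s T hs ih =>
        rw [Finset.sum_insert hs]
        exact hadd _ (hmul _ (OO_inv (hcoord s)) _ (hD𝔡 _ (v s).2)) _ ih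
    exact hsum _
  have h1 := hconst.2 i₀ j₀
  have h2 : (fun x => r x i₀ j₀) = (b₁ 1)⁻¹ • (algebraMap k (H → k) (b₁ 1) * fun x => r x i₀ j₀) := by
    funext x
    rw [Pi.smul_apply, Pi.mul_apply, smul_eq_mul]
    change r x i₀ j₀ = (b₁ 1)⁻¹ * (b₁ 1 * r x i₀ j₀)
    rw [inv_mul_cancel_left₀ hb₁1]
  rw [h2]
  exact (OO w).smul_mem h1 _

/-- **The connected case.** -/
theorem connected [IsAlgClosed k] [CharZero k]
    {P : Set (Matrix (Fin n) (Fin n) k × Matrix (Fin N) (Fin N) k)} (h : Hyp r w P)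
    (hd : ∀ f ∈ AA r w, ∀ g ∈ AA r w, f * g = 0 → f = 0 ∨ g = 0) (i j : Fin n) :
    (fun x => r x i j) ∈ OO w := by
  classical
  haveI : Nontrivial (AA r w) := ⟨⟨0, 1, fun h0 => by
    have h1 := congrArg (fun f : AA r w => f.1 1) h0
    exact zero_ne_one h1⟩⟩
  haveI : NoZeroDivisors (AA r w) := ⟨fun {a b} hab => by
    have h1 : a.1 * b.1 = 0 := congrArg Subtype.val hab
    rcases hd a.1 a.2 b.1 b.2 h1 with h2 | h2
    · exact Or.inl (Subtype.ext h2)
    · exact Or.inr (Subtype.ext h2)⟩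
  haveI : IsDomain (AA r w) := NoZeroDivisors.to_isDomain _
  choose b hb hb0 hbr using fun i j => h.denom i j
  refine remove b hb ?_ hbr i j
  have h1 : ∏ i, ∏ j, (⟨b i j, OO_le (hb i j)⟩ : AA r w) ≠ 0 := by
    refine Finset.prod_ne_zero_iff.2 fun i _ => Finset.prod_ne_zero_iff.2 fun j _ => ?_
    intro h2
    exact hb0 i j (congrArg Subtype.val h2)
  intro h2
  apply h1
  apply Subtype.ext
  have h3 : ((∏ i, ∏ j, (⟨b i j, OO_le (hb i j)⟩ : AA r w) : AA r w) : H → k) =
      ∏ i, ∏ j, b i j := by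
    rw [show ((∏ i, ∏ j, (⟨b i j, OO_le (hb i j)⟩ : AA r w) : AA r w) : H → k) =
      (AA r w).val (∏ i, ∏ j, (⟨b i j, OO_le (hb i j)⟩ : AA r w)) from rfl, map_prod]
    refine Finset.prod_congr rfl fun i _ => ?_
    rw [map_prod]
    rfl
  rw [h3, h2]
  rfl

end Pool.Agent.Y719.TN
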