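import Pool.Agent.Y719.TN.Gal

/-!
# Representations of topological groups with a dense set of elements
-/

set_option autoImplicit false
set_option linter.all false

namespace Pool.Agent.Y719.TN

open Polynomial Pool.Agent.Y719.NG Topology

variable {Γ : Type} [Group Γ] [TopologicalSpace Γ] [IsTopologicalGroup Γ] {k : Type} [Field k]
  [IsAlgClosed k] [CharZero k] [TopologicalSpace k] [IsTopologicalRing k] [T2Space k] {n N : ℕ}

theorem criterionD (ρ : Γ →* GL (Fin n) k) (W : Γ →* GL (Fin N) k) (hρ : Continuous ρ)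
    (hW : Continuous W) (hirr : Irr ρ) (D : Set Γ) (hD : Dense D)
    (h : ∀ g ∈ D, (mt ρ g).charpoly ∣ (mt W g).charpoly ^ n) :
    ∃ U : Subgroup Γ, U.Normal ∧ IsOpen (U : Set Γ) ∧ ∃ a b : ℕ, SQF a b U W ρ := by
  have hr' : Continuous (mt ρ) := Units.continuous_val.comp hρ
  have hw' : Continuous (mt W) := Units.continuous_val.comp hW
  have hE : ∀ g, aeval (mt ρ g) ((mt W g).charpoly ^ n) = 0 := by
    have h1 : IsClosed {g | aeval (mt ρ g) ((mt W g).charpoly ^ n) = 0} :=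
      isClosed_singleton.preimage (continuous_E hr' hw')
    have h2 : closure D ⊆ {g | aeval (mt ρ g) ((mt W g).charpoly ^ n) = 0} :=
      closure_minimal (fun g hg => E_of_dvd (h g hg)) h1
    intro g
    exact h2 (hD g)
  obtain ⟨U, hn, ho, hfin, a, b, hab⟩ := criterion ρ W hρ hW hirr hE
  exact ⟨U, hn, ho, a, b, hab.sqf⟩

theorem independenceD {k₀ : Type} [Field k₀] [IsAlgClosed k₀] {E : Type} [Field E]
    (ρ₀ : Γ →* GL (Fin n) k₀) (W₀ : Γ →* GL (Fin N) k₀) (ρ : Γ →* GL (Fin n) k)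
    (W : Γ →* GL (Fin N) k) (hρ : Continuous ρ) (hW : Continuous W) (hirr : Irr ρ)
    (D : Set Γ) (hD : Dense D) (ι₀ : E →+* k₀) (ι : E →+* k) (P Q : Γ → E[X])
    (hρ₀ : ∀ g ∈ D, (mt ρ₀ g).charpoly = (P g).map ι₀)
    (hW₀ : ∀ g ∈ D, (mt W₀ g).charpoly = (Q g).map ι₀)
    (hρ1 : ∀ g ∈ D, (mt ρ g).charpoly = (P g).map ι)
    (hW1 : ∀ g ∈ D, (mt W g).charpoly = (Q g).map ι)
    (h : SQ (mt W₀) ρ₀) :
    ∃ U : Subgroup Γ, U.Normal ∧ IsOpen (U : Set Γ) ∧ ∃ a b : ℕ, SQF a b U W ρ := by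
  refine criterionD ρ W hρ hW hirr D hD fun g hg => ?_
  have h1 := dvd_of_roots (mt ρ₀ g) (h.roots g)
  rw [hρ₀ g hg, hW₀ g hg, ← Polynomial.map_pow, Polynomial.map_dvd_map'] at h1
  rw [hρ1 g hg, hW1 g hg, ← Polynomial.map_pow]
  exact Polynomial.map_dvd _ h1

end Pool.Agent.Y719.TN
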