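import Pool.Agent.Y719.TN.Core3

/-!
# Connected subgroups of finite index
-/

set_option autoImplicit false
set_option linter.all false

namespace Pool.Agent.Y719.TN

open Polynomial

variable {k : Type} [Field k] {Γ : Type} [Group Γ] {n N : ℕ}
  (r : Γ →* Matrix (Fin n) (Fin n) k) (w : Γ →* Matrix (Fin N) (Fin N) k)

lemma finite_gens : (gW w ∪ gR r).Finite := by
  refine Set.Finite.union (Set.Finite.union ?_ ?_) ?_
  · refine (Set.finite_range fun p : Fin N × Fin N => fun x => w x p.1 p.2).subset ?_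
    rintro f ⟨i, j, rfl⟩
    exact ⟨(i, j), rfl⟩
  · refine (Set.finite_range fun p : Fin N × Fin N => fun x => w x⁻¹ p.1 p.2).subset ?_
    rintro f ⟨i, j, rfl⟩
    exact ⟨(i, j), rfl⟩
  · refine (Set.finite_range fun p : Fin n × Fin n => fun x => r x p.1 p.2).subset ?_
    rintro f ⟨i, j, rfl⟩
    exact ⟨(i, j), rfl⟩

instance noeth : IsNoetherianRing (AA r w) := by
  classical
  have h1 : (AA r w).FG := by
    unfold AA
    rw [← (finite_gens r w).coe_toFinset]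
    exact Subalgebra.fg_adjoin_finset _
  haveI : Algebra.FiniteType k (AA r w) := (Subalgebra.fg_iff_finiteType _).1 h1
  exact Algebra.FiniteType.isNoetherianRing k (AA r w)

variable {r w}

lemma AA_left (y : Γ) {f : Γ → k} (hf : f ∈ AA r w) : sub (fun x => y * x) f ∈ AA r w := by
  refine AA_sub ?_ ?_ ?_ hf
  · exact ((Ent.const (AA r w) (w y)).mul ((ent_w (w := w)).up (r := r))).congr
      fun x => (map_mul _ _ _).symm
  · exact (((ent_w' (w := w)).up (r := r)).mul (Ent.const (AA r w) (w y⁻¹))).congr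
      fun x => by rw [mul_inv_rev, map_mul]
  · exact ((Ent.const (AA r w) (r y)).mul (ent_r (r := r) (w := w))).congr
      fun x => (map_mul _ _ _).symm

/-- right translation -/
noncomputable def rt (h : Γ) : AA r w →+* AA r w :=
  (((sub fun x => x * h).comp (AA r w).val).codRestrict (AA r w) fun f => AA_right h f.2 :
    AA r w →ₐ[k] AA r w)

lemma rt_apply (h : Γ) (f : AA r w) (x : Γ) : (rt h f).1 x = f.1 (x * h) := rfl

lemma rt_rt (h h' : Γ) (f : AA r w) : rt h (rt h' f) = rt (h * h') f := by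
  apply Subtype.ext
  funext x
  rw [rt_apply, rt_apply, rt_apply, mul_assoc]

lemma rt_one (f : AA r w) : rt 1 f = f := by
  apply Subtype.ext
  funext x
  rw [rt_apply, mul_one]

/-- the image of a prime ideal -/
noncomputable def act (h : Γ) (I : Ideal (AA r w)) : Ideal (AA r w) := I.comap (rt h⁻¹)

lemma mem_act (h : Γ) (I : Ideal (AA r w)) (f : AA r w) : f ∈ act h I ↔ rt h⁻¹ f ∈ I := Iff.rfl

lemma act_act (h h' : Γ) (I : Ideal (AA r w)) : act h (act h' I) = act (h * h') I := by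
  ext f
  rw [mem_act, mem_act, mem_act, rt_rt, mul_inv_rev]

lemma act_one (I : Ideal (AA r w)) : act 1 I = I := by
  ext f
  rw [mem_act, inv_one, rt_one]

lemma act_mono (h : Γ) {I J : Ideal (AA r w)} (hIJ : I ≤ J) : act h I ≤ act h J :=
  Ideal.comap_mono hIJ

lemma act_minimal (h : Γ) {I : Ideal (AA r w)} (hI : I ∈ minimalPrimes (AA r w)) :
    act h I ∈ minimalPrimes (AA r w) := by
  have hp : I.IsPrime := hI.1.1
  refine ⟨⟨Ideal.comap_isPrime _ _, bot_le⟩, fun J hJ hJI => ?_⟩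
  have hJp : J.IsPrime := hJ.1
  have h1 : act h⁻¹ J ≤ I := by
    have := act_mono h⁻¹ hJI
    rwa [act_act, inv_mul_cancel, act_one] at this
  have h2 : I ≤ act h⁻¹ J := hI.2 ⟨Ideal.comap_isPrime _ _, bot_le⟩ h1
  have h3 := act_mono h h2
  rwa [act_act, mul_inv_cancel, act_one] at h3

/-- the action on the minimal primes -/
noncomputable instance actM : MulAction Γ (minimalPrimes (AA r w)) where
  smul h I := ⟨act h I.1, act_minimal h I.2⟩
  one_smul I := Subtype.ext (act_one I.1)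
  mul_smul h h' I := Subtype.ext (act_act h h' I.1).symm

lemma smul_val (h : Γ) (I : minimalPrimes (AA r w)) : (h • I).1 = act h I.1 := rfl

/-- restriction to a subgroup -/
abbrev res {m : ℕ} (r : Γ →* Matrix (Fin m) (Fin m) k) (Γ₁ : Subgroup Γ) :
    Γ₁ →* Matrix (Fin m) (Fin m) k := r.comp Γ₁.subtype

lemma exists_lift (Γ₁ : Subgroup Γ) {f : Γ₁ → k} (hf : f ∈ AA (res r Γ₁) (res w Γ₁)) :
    ∃ F ∈ AA r w, ∀ x : Γ₁, F x = f x := by
  unfold AA at hf
  induction hf using Algebra.adjoin_induction with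
  | mem f hf =>
    rcases hf with (⟨i, j, rfl⟩ | ⟨i, j, rfl⟩) | ⟨i, j, rfl⟩
    · exact ⟨_, ent_w.up i j, fun x => rfl⟩
    · exact ⟨_, ent_w'.up i j, fun x => rfl⟩
    · exact ⟨_, ent_r i j, fun x => rfl⟩
  | algebraMap c => exact ⟨algebraMap k (Γ → k) c, (AA r w).algebraMap_mem c, fun x => rfl⟩
  | add f g _ _ ihf ihg =>
    obtain ⟨F, hF, hF'⟩ := ihf
    obtain ⟨G, hG, hG'⟩ := ihg
    exact ⟨F + G, (AA r w).add_mem hF hG, fun x => by rw [Pi.add_apply, hF', hG']; rfl⟩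
  | mul f g _ _ ihf ihg =>
    obtain ⟨F, hF, hF'⟩ := ihf
    obtain ⟨G, hG, hG'⟩ := ihg
    exact ⟨F * G, (AA r w).mul_mem hF hG, fun x => by rw [Pi.mul_apply, hF', hG']; rfl⟩

variable (r w)

/-- **Existence of connected subgroups of finite index.** -/
theorem exists_connected : ∃ Γ₁ : Subgroup Γ, Γ₁.Normal ∧ Γ₁.FiniteIndex ∧
    ∀ f ∈ AA (res r Γ₁) (res w Γ₁), ∀ g ∈ AA (res r Γ₁) (res w Γ₁), f * g = 0 → f = 0 ∨ g = 0 := by
  classical
  haveI : Finite (minimalPrimes (AA r w)) :=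
    (minimalPrimes.finite_of_isNoetherianRing (AA r w)).to_subtype
  let Γ₁ : Subgroup Γ := (MulAction.toPermHom Γ (minimalPrimes (AA r w))).ker
  have hfi : Γ₁.FiniteIndex := Subgroup.finiteIndex_ker _
  haveI : Finite (Γ ⧸ Γ₁) := Subgroup.finite_quotient_of_finiteIndex
  haveI : Fintype (Γ ⧸ Γ₁) := Fintype.ofFinite _
  have hstab : ∀ h ∈ Γ₁, ∀ I ∈ minimalPrimes (AA r w), ∀ f ∈ I, rt h f ∈ I := by
    intro h hh I hI f hf
    have h1 : h⁻¹ ∈ Γ₁ := Γ₁.inv_mem hh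
    rw [MonoidHom.mem_ker] at h1
    have h2 := congrArg (fun σ : Equiv.Perm (minimalPrimes (AA r w)) => (σ ⟨I, hI⟩).1) h1
    have h3 : act h⁻¹ I = I := h2
    rw [← h3, mem_act, inv_inv] at hf
    exact hf
  refine ⟨Γ₁, MonoidHom.normal_ker _, hfi, ?_⟩
  -- the ideals of the cosets
  let J : Γ ⧸ Γ₁ → Ideal (AA r w) := fun c =>
    { carrier := {f | ∀ x : Γ, (x : Γ ⧸ Γ₁) = c → f.1 x = 0}
      add_mem' := fun {f g} hf hg x hx => by
        change f.1 x + g.1 x = 0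
        rw [hf x hx, hg x hx, add_zero]
      zero_mem' := fun x _ => rfl
      smul_mem' := fun f g hg x hx => by
        change f.1 x * g.1 x = 0
        rw [hg x hx, mul_zero] }
  have hJ : ∀ c (f : AA r w), f ∈ J c ↔ ∀ x : Γ, (x : Γ ⧸ Γ₁) = c → f.1 x = 0 := fun c f => Iff.rfl
  haveI : Nontrivial (AA r w) := ⟨⟨0, 1, fun h0 => by
    have h1 := congrArg (fun f : AA r w => f.1 1) h0
    exact zero_ne_one h1⟩⟩
  obtain ⟨M, hM⟩ := Ideal.exists_maximal (AA r w)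
  haveI : M.IsPrime := hM.isPrime
  obtain ⟨p₀, hp₀, -⟩ := Ideal.exists_minimalPrimes_le (bot_le : (⊥ : Ideal (AA r w)) ≤ M)
  have hp₀' : p₀ ∈ minimalPrimes (AA r w) := hp₀
  have hp₀p : p₀.IsPrime := hp₀'.1.1
  have hinf : (Finset.univ : Finset (Γ ⧸ Γ₁)).inf J ≤ p₀ := by
    intro f hf
    have h1 : f = 0 := by
      apply Subtype.ext
      funext x
      rw [Submodule.mem_finsetInf] at hf
      exact (hJ _ f).1 (hf (x : Γ ⧸ Γ₁) (Finset.mem_univ _)) x rfl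
    rw [h1]
    exact p₀.zero_mem
  obtain ⟨c, -, hc⟩ := (Ideal.IsPrime.inf_le' hp₀p).1 hinf
  obtain ⟨x₀, rfl⟩ := QuotientGroup.mk_surjective c
  -- a minimal prime below
  have hle : ∃ p ∈ minimalPrimes (AA r w), p ≤ J (x₀ : Γ ⧸ Γ₁) := by
    let m : Ideal (AA r w) := RingHom.ker (ev r w x₀ : AA r w →+* k)
    haveI : m.IsPrime := RingHom.ker_isPrime _
    obtain ⟨p, hp, hpm⟩ := Ideal.exists_minimalPrimes_le (bot_le : (⊥ : Ideal (AA r w)) ≤ m)
    refine ⟨p, hp, fun f hf => ?_⟩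
    rw [hJ]
    intro x hx
    have h1 : x₀⁻¹ * x ∈ Γ₁ := QuotientGroup.eq.1 hx.symm
    have h2 := hpm (hstab _ h1 p hp f hf)
    have h3 : (rt (x₀⁻¹ * x) f).1 x₀ = 0 := h2
    rwa [rt_apply, mul_inv_cancel_left] at h3
  obtain ⟨p, hp, hpJ⟩ := hle
  have hpp₀ : p₀ ≤ p := hp₀'.2 ⟨hp.1.1, bot_le⟩ (hpJ.trans hc)
  have hJp₀ : J (x₀ : Γ ⧸ Γ₁) = p₀ := le_antisymm hc (hpp₀.trans hpJ)
  intro f hf g hg hfg
  obtain ⟨F, hF, hF'⟩ := exists_lift Γ₁ hf
  obtain ⟨G, hG, hG'⟩ := exists_lift Γ₁ hg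
  let F₁ : AA r w := ⟨sub (fun x => x₀⁻¹ * x) F, AA_left _ hF⟩
  let G₁ : AA r w := ⟨sub (fun x => x₀⁻¹ * x) G, AA_left _ hG⟩
  have key : ∀ (E : Γ → k) (hE : E ∈ AA r w) (e : Γ₁ → k), (∀ x : Γ₁, E x = e x) →
      ((⟨sub (fun x => x₀⁻¹ * x) E, AA_left _ hE⟩ : AA r w) ∈ J (x₀ : Γ ⧸ Γ₁) ↔ e = 0) := by
    intro E hE e he
    rw [hJ]
    constructor
    · intro h1
      funext x
      have h2 := h1 (x₀ * x) (by
        rw [QuotientGroup.eq, mul_inv_rev, mul_assoc, inv_mul_cancel, mul_one]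
        exact Γ₁.inv_mem x.2)
      change E (x₀⁻¹ * (x₀ * x)) = 0 at h2
      rw [inv_mul_cancel_left, he] at h2
      exact h2
    · rintro h1 x hx
      have h2 : x₀⁻¹ * x ∈ Γ₁ := QuotientGroup.eq.1 hx.symm
      change E (x₀⁻¹ * x) = 0
      have h3 := he ⟨x₀⁻¹ * x, h2⟩
      rw [h1] at h3
      exact h3
  have hmem : F₁ * G₁ ∈ p₀ := by
    rw [← hJp₀, hJ]
    intro x hx
    have h2 : x₀⁻¹ * x ∈ Γ₁ := QuotientGroup.eq.1 hx.symm
    change F (x₀⁻¹ * x) * G (x₀⁻¹ * x) = 0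
    have h3 := hF' ⟨x₀⁻¹ * x, h2⟩
    have h4 := hG' ⟨x₀⁻¹ * x, h2⟩
    have h5 := congrFun hfg ⟨x₀⁻¹ * x, h2⟩
    simp only at h3 h4
    rw [h3, h4]
    exact h5
  rcases hp₀p.mem_or_mem hmem with h1 | h1
  · left
    rw [← hJp₀] at h1
    exact (key F hF f hF').1 h1
  · right
    rw [← hJp₀] at h1
    exact (key G hG g hG').1 h1

end Pool.Agent.Y719.TN
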