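import Pool.Agent.Y719.TN.Dense

/-!
# Subquotients with linear maps on the whole space
-/

set_option autoImplicit false
set_option linter.all false

namespace Pool.Agent.Y719.TN

open Polynomial Pool.Agent.Y719.NG

variable {Γ : Type} [Group Γ] {k : Type} [Field k] {n N : ℕ}

/-- `ρ` is a subquotient of the space `X` with the action `act` -/
def SubQ {X : Type} [AddCommGroup X] [Module k X] (act : Γ → X → X) (ρ : Γ →* GL (Fin n) k) :
    Prop :=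
  ∃ V : Submodule k X, (∀ g, ∀ x ∈ V, act g x ∈ V) ∧ ∃ f : X →ₗ[k] (Fin n → k),
    (∀ y, ∃ x ∈ V, f x = y) ∧ ∀ g, ∀ x ∈ V, f (act g x) = (mt ρ g).mulVec (f x)

lemma SQF.subQ {a b : ℕ} {U : Subgroup Γ} {W : Γ →* GL (Fin N) k} {ρ : Γ →* GL (Fin n) k}
    (h : SQF a b U W ρ) : SubQ (actF a b U W) ρ := by
  obtain ⟨V, hV, f, hf, hfe⟩ := h
  obtain ⟨f', hf'⟩ := LinearMap.exists_extend f
  have h1 : ∀ x (hx : x ∈ V), f' x = f ⟨x, hx⟩ := fun x hx =>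
    congrArg (fun φ : V →ₗ[k] (Fin n → k) => φ ⟨x, hx⟩) hf'
  refine ⟨V, hV, f', fun y => ?_, fun g x hx => ?_⟩
  · obtain ⟨x, hx⟩ := hf y
    exact ⟨x.1, x.2, (h1 x.1 x.2).trans hx⟩
  · rw [h1 _ (hV g x hx), h1 x hx]
    exact hfe g ⟨x, hx⟩ ⟨_, hV g x hx⟩ rfl

lemma SubQ.sq {ι : Type} [Fintype ι] {W : Γ → Matrix ι ι k} {ρ : Γ →* GL (Fin n) k}
    (h : SubQ (fun g (x : ι → k) => (W g).mulVec x) ρ) : SQ W ρ := by
  obtain ⟨V, hV, f, hf, hfe⟩ := h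
  refine ⟨V, hV, f.comp V.subtype, fun y => ?_, fun g x y hxy => ?_⟩
  · obtain ⟨x, hx, hxy⟩ := hf y
    exact ⟨⟨x, hx⟩, hxy⟩
  · have h1 : f ((W g).mulVec x.1) = (mt ρ g).mulVec (f x.1) := hfe g x.1 x.2
    rw [← hxy] at h1
    exact h1

lemma SubQ.of_equiv {X Y : Type} [AddCommGroup X] [Module k X] [AddCommGroup Y] [Module k Y]
    {act : Γ → X → X} {act' : Γ → Y → Y} {ρ : Γ →* GL (Fin n) k} (e : X ≃ₗ[k] Y)
    (he : ∀ g x, e (act g x) = act' g (e x)) (h : SubQ act ρ) : SubQ act' ρ := by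
  obtain ⟨V, hV, f, hf, hfe⟩ := h
  refine ⟨V.map (e : X →ₗ[k] Y), ?_, f.comp (e.symm : Y →ₗ[k] X), fun y => ?_, ?_⟩
  · rintro g _ ⟨x, hx, rfl⟩
    exact ⟨act g x, hV g x hx, he g x⟩
  · obtain ⟨x, hx, hxy⟩ := hf y
    refine ⟨e x, ⟨x, hx, rfl⟩, ?_⟩
    rw [LinearMap.comp_apply, LinearEquiv.coe_coe, LinearEquiv.symm_apply_apply, hxy]
  · rintro g _ ⟨x, hx, rfl⟩
    rw [LinearEquiv.coe_coe, ← he, LinearMap.comp_apply, LinearMap.comp_apply, LinearEquiv.coe_coe,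
      LinearEquiv.symm_apply_apply, LinearEquiv.symm_apply_apply]
    exact hfe g x hx

/-- curried tensor spaces -/
abbrev TC (k : Type) {Γ : Type} [Group Γ] (N a b : ℕ) (U : Subgroup Γ) : Type :=
  (Fin a → Fin N) → (Fin b → Fin N) → Γ ⧸ U → k

/-- the action on curried functions -/
noncomputable def actC (a b : ℕ) (U : Subgroup Γ) (W : Γ →* GL (Fin N) k) (g : Γ)
    (F : TC k N a b U) : TC k N a b U := fun i j c =>
  ∑ i' : Fin a → Fin N, ∑ j' : Fin b → Fin N, ((∏ s, mt W g (i s) (i' s)) *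
    (∏ t, mt W g⁻¹ (j' t) (j t))) * F i' j' (g⁻¹ • c)

/-- currying -/
def cur (k : Type) [Field k] (N a b : ℕ) (U : Subgroup Γ) :
    (Ix N a b U → k) ≃ₗ[k] TC k N a b U where
  toFun F := fun i j c => F (i, j, c)
  invFun F := fun x => F x.1 x.2.1 x.2.2
  map_add' _ _ := rfl
  map_smul' _ _ := rfl
  left_inv _ := rfl
  right_inv _ := rfl

lemma cur_act (a b : ℕ) (U : Subgroup Γ) (W : Γ →* GL (Fin N) k) (g : Γ) (F : Ix N a b U → k) :
    cur k N a b U (actF a b U W g F) = actC a b U W g (cur k N a b U F) := rfl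

lemma SQF.subC {a b : ℕ} {U : Subgroup Γ} {W : Γ →* GL (Fin N) k} {ρ : Γ →* GL (Fin n) k}
    (h : SQF a b U W ρ) : SubQ (actC a b U W) ρ :=
  h.subQ.of_equiv (cur k N a b U) fun g x => cur_act a b U W g x

lemma SubQ.actF {a b : ℕ} {U : Subgroup Γ} {W : Γ →* GL (Fin N) k} {ρ : Γ →* GL (Fin n) k}
    (h : SubQ (actC a b U W) ρ) : SubQ (TN.actF a b U W) ρ :=
  h.of_equiv (cur k N a b U).symm fun g x => rfl

end Pool.Agent.Y719.TN
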