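import Pool.Agent.Y719.TN.Tens

/-!
# Eigenvalues and tensor constructions
-/

set_option autoImplicit false
set_option linter.all false

namespace Pool.Agent.Y719.TN

open Polynomial Pool.Agent.Y719.NG

variable {k : Type} [Field k] {Γ : Type} [Group Γ] {n N : ℕ}

/-- `ρ` is a subquotient of `T` -/
def SQ {ι : Type} [Fintype ι] (T : Γ → Matrix ι ι k) (ρ : Γ →* GL (Fin n) k) : Prop :=
  ∃ V : Submodule k (ι → k), (∀ g, ∀ x ∈ V, (T g).mulVec x ∈ V) ∧
    ∃ f : V →ₗ[k] (Fin n → k), Function.Surjective f ∧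
      ∀ g, ∀ x y : V, y.1 = (T g).mulVec x.1 → f y = (mt ρ g).mulVec (f x)

/-- homomorphism of the group algebra -/
noncomputable def la {ι : Type} [Fintype ι] [DecidableEq ι] (T : Γ →* Matrix ι ι k) :
    MonoidAlgebra k Γ →ₐ[k] Matrix ι ι k := MonoidAlgebra.lift k (Matrix ι ι k) Γ T

lemma la_single {ι : Type} [Fintype ι] [DecidableEq ι] (T : Γ →* Matrix ι ι k) (g : Γ) (c : k) :
    la T (MonoidAlgebra.single g c) = c • T g := by
  unfold la
  rw [MonoidAlgebra.lift_single]

lemma SQ_of {ι : Type} [Fintype ι] [DecidableEq ι] (T : Γ →* Matrix ι ι k)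
    (ρ : Γ →* GL (Fin n) k) (V : Submodule (MonoidAlgebra k Γ) (Mo (la T)))
    (f : V →ₗ[MonoidAlgebra k Γ] Md (ga ρ)) (hf : Function.Surjective f) : SQ (fun g => T g) ρ := by
  have hs : ∀ (c : k) (x : ι → k), (MonoidAlgebra.single (1 : Γ) c : MonoidAlgebra k Γ) •
      (show Mo (la T) from x) = (show Mo (la T) from c • x) := by
    intro c x
    change (la T (MonoidAlgebra.single (1 : Γ) c)).mulVec x = c • x
    rw [la_single, map_one, Matrix.smul_mulVec, Matrix.one_mulVec]
  have hg : ∀ (g : Γ) (x : ι → k), (MonoidAlgebra.single g (1 : k) : MonoidAlgebra k Γ) •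
      (show Mo (la T) from x) = (show Mo (la T) from (T g).mulVec x) := by
    intro g x
    change (la T (MonoidAlgebra.single g (1 : k))).mulVec x = (T g).mulVec x
    rw [la_single, one_smul]
  have hs' : ∀ (c : k) (x : Fin n → k), (MonoidAlgebra.single (1 : Γ) c : MonoidAlgebra k Γ) •
      (show Md (ga ρ) from x) = (show Md (ga ρ) from c • x) := by
    intro c x
    change (ga ρ (MonoidAlgebra.single (1 : Γ) c)).mulVec x = c • x
    rw [ga_single, mt_one, Matrix.smul_mulVec, Matrix.one_mulVec]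
  have hg' : ∀ (g : Γ) (x : Fin n → k), (MonoidAlgebra.single g (1 : k) : MonoidAlgebra k Γ) •
      (show Md (ga ρ) from x) = (show Md (ga ρ) from (mt ρ g).mulVec x) := by
    intro g x
    change (ga ρ (MonoidAlgebra.single g (1 : k))).mulVec x = (mt ρ g).mulVec x
    rw [ga_single, one_smul]
  let V' : Submodule k (ι → k) :=
    { carrier := {x | (show Mo (la T) from x) ∈ V}
      add_mem' := fun {a b} ha hb => V.add_mem ha hb
      zero_mem' := V.zero_mem
      smul_mem' := by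
        intro c x hx
        have h1 := V.smul_mem (MonoidAlgebra.single 1 c) hx
        rw [hs] at h1
        exact h1 }
  let f' : V' →ₗ[k] (Fin n → k) :=
    { toFun := fun x => (f ⟨x.1, x.2⟩ : Md (ga ρ))
      map_add' := fun x y => f.map_add ⟨x.1, x.2⟩ ⟨y.1, y.2⟩
      map_smul' := fun c x => by
        have h1 := f.map_smul (MonoidAlgebra.single (1 : Γ) c) ⟨x.1, x.2⟩
        rw [hs'] at h1
        have h2 : (MonoidAlgebra.single (1 : Γ) c : MonoidAlgebra k Γ) • (⟨x.1, x.2⟩ : V) =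
            ⟨c • x.1, V'.smul_mem c x.2⟩ := Subtype.ext (hs c x.1)
        rw [h2] at h1
        exact h1 }
  refine ⟨V', fun g x hx => ?_, f', ?_, ?_⟩
  · have h1 := V.smul_mem (MonoidAlgebra.single g 1) hx
    rw [hg] at h1
    exact h1
  · intro y
    obtain ⟨x, hx⟩ := hf (show Md (ga ρ) from y)
    exact ⟨⟨x.1, x.2⟩, hx⟩
  · intro g x y hxy
    have h1 := f.map_smul (MonoidAlgebra.single g (1 : k)) ⟨x.1, x.2⟩
    rw [hg'] at h1
    have h2 : (MonoidAlgebra.single g (1 : k) : MonoidAlgebra k Γ) • (⟨x.1, x.2⟩ : V) =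
        ⟨y.1, y.2⟩ := Subtype.ext ((hg g x.1).trans hxy.symm)
    rw [h2] at h1
    exact h1

/-- an irreducible representation with entries in the span is a subquotient -/
theorem SQ_of_ES {Γ₁ : Subgroup Γ} [Fintype (Γ ⧸ Γ₁)] (w : Γ →* Matrix (Fin N) (Fin N) k)
    (ρ : Γ →* GL (Fin n) k) (hirr : Irr ρ) {F : Finset (ℕ × ℕ)}
    (h : ∀ i j, (fun g => mt ρ g i j) ∈ ES Γ₁ w F) :
    ∃ a b : ℕ, SQ (fun g => tm Γ₁ a b w g) ρ := by
  classical
  haveI := hirr.simple
  choose Λ hΛ using fun i j => exists_functional Γ₁ w (h i j)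
  obtain ⟨d, V, f, hf⟩ := exists_subquotient (L := F) (ι := fun d => Ix N d.1.1 d.1.2 Γ₁) (ga ρ)
    (fun d => la (tm Γ₁ d.1.1 d.1.2 w)) (M₀ := Md (ga ρ)) (fun x hx m => by
      change (ga ρ x).mulVec m = (0 : Fin n → k)
      rw [hx, Matrix.zero_mulVec]) (fun x hx => by
      have key : ∀ x : MonoidAlgebra k Γ, ∀ i j, ga ρ x i j =
          Λ i j fun d => la (tm Γ₁ d.1.1 d.1.2 w) x := by
        intro x i j
        induction x using MonoidAlgebra.induction_linear with
        | zero =>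
          have h1 : (fun d : F => la (tm Γ₁ d.1.1 d.1.2 w) 0) = 0 := by
            funext d
            rw [map_zero]
            rfl
          rw [map_zero, h1, map_zero]
          rfl
        | add a b ha hb =>
          have h1 : (fun d : F => la (tm Γ₁ d.1.1 d.1.2 w) (a + b)) =
              (fun d : F => la (tm Γ₁ d.1.1 d.1.2 w) a) + fun d : F => la (tm Γ₁ d.1.1 d.1.2 w) b := by
            funext d
            rw [map_add]
            rfl
          rw [map_add, h1, map_add, ← ha, ← hb]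
          rfl
        | single g c =>
          have h1 : (fun d : F => la (tm Γ₁ d.1.1 d.1.2 w) (MonoidAlgebra.single g c)) =
              c • fun d : F => tm Γ₁ d.1.1 d.1.2 w g := by
            funext d
            rw [la_single]
            rfl
          rw [ga_single, h1, map_smul, ← hΛ]
          rfl
      ext i j
      rw [key]
      have h1 : (fun d : F => la (tm Γ₁ d.1.1 d.1.2 w) x) = 0 := funext fun d => hx d
      rw [h1, map_zero]
      rfl)
  exact ⟨d.1.1, d.1.2, SQ_of _ ρ V f hf⟩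

/-- **The criterion.** -/
theorem criterion [IsAlgClosed k] [CharZero k] [TopologicalSpace k] [IsTopologicalRing k]
    [T1Space k] [TopologicalSpace Γ] [IsTopologicalGroup Γ] (ρ : Γ →* GL (Fin n) k)
    (W : Γ →* GL (Fin N) k) (hρ : Continuous ρ) (hW : Continuous W) (hirr : Irr ρ)
    (hE : ∀ g, aeval (mt ρ g) ((mt W g).charpoly ^ n) = 0) :
    ∃ Γ₁ : Subgroup Γ, Γ₁.Normal ∧ IsOpen (Γ₁ : Set Γ) ∧ ∃ _ : Fintype (Γ ⧸ Γ₁), ∃ a b : ℕ,
      SQ (fun g => tm Γ₁ a b (mh W) g) ρ := by
  obtain ⟨Γ₁, hn, ho, hf, h⟩ := exists_poly ρ W hρ hW hirr hE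
  haveI : Finite (Γ ⧸ Γ₁) := Subgroup.finite_quotient_of_finiteIndex
  haveI : Fintype (Γ ⧸ Γ₁) := Fintype.ofFinite _
  obtain ⟨F, hF⟩ := exists_ES Γ₁ (mh W) (mh ρ) h
  obtain ⟨a, b, hab⟩ := SQ_of_ES (mh W) ρ hirr hF
  exact ⟨Γ₁, hn, ho, inferInstance, a, b, hab⟩

end Pool.Agent.Y719.TN
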