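import Pool.Agent.Y719.TN.Final
import Pool.Agent.Y719.NG.Dens
import Pool.Agent.W401.Cheb.Frob

/-!
# Galois representations
-/

set_option autoImplicit false
set_option linter.all false

namespace Pool.Agent.Y719.TN

open Polynomial Pool.Agent.Y719.NG Topology

section cont

variable {k : Type} [Field k] [TopologicalSpace k] [IsTopologicalRing k] {n N : ℕ}

theorem continuous_coeff (j : ℕ) :
    Continuous fun M : Matrix (Fin N) (Fin N) k => M.charpoly.coeff j := by
  have h : (fun M : Matrix (Fin N) (Fin N) k => M.charpoly.coeff j) = fun M =>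
      MvPolynomial.eval (fun p : Fin N × Fin N => M p.1 p.2)
        ((Matrix.charpoly.univ k (Fin N)).coeff j) := by
    funext M
    have h1 : (Matrix.charpoly.univ k (Fin N)).map
        (MvPolynomial.eval (fun p : Fin N × Fin N => M p.1 p.2)) = M.charpoly :=
      Matrix.charpoly.univ_map_eval₂Hom (Fin N) (RingHom.id k) (fun p => M p.1 p.2)
    rw [← h1, Polynomial.coeff_map]
  rw [h]
  exact (MvPolynomial.continuous_eval _).comp (by fun_prop)

lemma continuous_E {X : Type} [TopologicalSpace X] {R : X → Matrix (Fin n) (Fin n) k}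
    {M : X → Matrix (Fin N) (Fin N) k} (hR : Continuous R) (hM : Continuous M) :
    Continuous fun x => aeval (R x) ((M x).charpoly ^ n) := by
  have h1 : (fun x => aeval (R x) ((M x).charpoly ^ n)) = fun x =>
      (∑ i ∈ Finset.range (N + 1), (M x).charpoly.coeff i • (R x) ^ i) ^ n := by
    funext x
    rw [map_pow, aeval_eq_sum_range' (n := N + 1)]
    rw [Matrix.charpoly_natDegree_eq_dim, Fintype.card_fin]
    exact Nat.lt_succ_self N
  rw [h1]
  refine Continuous.pow (continuous_finsetSum _ fun i _ => ?_) n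
  exact ((continuous_coeff i).comp hM).smul (hR.pow i)

end cont

section alg

variable {k : Type} [Field k] {n N : ℕ}

lemma E_conj (u : GL (Fin n) k) (v : GL (Fin N) k) (R : Matrix (Fin n) (Fin n) k)
    (M : Matrix (Fin N) (Fin N) k) (h : aeval R (M.charpoly ^ n) = 0) :
    aeval (u.1 * R * (u⁻¹).1) ((v.1 * M * (v⁻¹).1).charpoly ^ n) = 0 := by
  rw [Matrix.coe_units_inv v, Matrix.charpoly_units_conj]
  have key : ∀ p : k[X], aeval (u.1 * R * (u⁻¹).1) p = u.1 * aeval R p * (u⁻¹).1 := by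
    intro p
    induction p using Polynomial.induction_on' with
    | add p q hp hq => rw [map_add, map_add, hp, hq, mul_add, add_mul]
    | monomial m c =>
      rw [aeval_monomial, aeval_monomial, Units.conj_pow]
      rw [Algebra.algebraMap_eq_smul_one, smul_mul_assoc, one_mul, smul_mul_assoc, one_mul,
        mul_smul_comm, smul_mul_assoc]
  rw [key, h, mul_zero, zero_mul]

lemma dvd_of_roots [IsAlgClosed k] (R : Matrix (Fin n) (Fin n) k)
    {q : k[X]} (h : ∀ z, R.charpoly.IsRoot z → q.IsRoot z) :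
    R.charpoly ∣ q ^ n := by
  classical
  have hs : R.charpoly = (R.charpoly.roots.map fun a => X - C a).prod := by
    have h1 := (IsAlgClosed.splits R.charpoly).eq_prod_roots
    rwa [(Matrix.charpoly_monic R).leadingCoeff, C_1, one_mul] at h1
  have hc : R.charpoly.roots.card = n := by
    have h1 := (IsAlgClosed.splits R.charpoly).natDegree_eq_card_roots
    rw [← h1, Matrix.charpoly_natDegree_eq_dim, Fintype.card_fin]
  have h2 : (R.charpoly.roots.map fun a => X - C a).prod ∣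
      (R.charpoly.roots.map fun _ => q).prod := by
    refine Multiset.prod_dvd_prod_of_dvd _ _ fun a ha => ?_
    exact dvd_iff_isRoot.2 (h a (isRoot_of_mem_roots ha))
  rw [← hs, Multiset.map_const', Multiset.prod_replicate, hc] at h2
  exact h2

lemma E_of_dvd {R : Matrix (Fin n) (Fin n) k} {q : k[X]} (h : R.charpoly ∣ q) :
    aeval R q = 0 := by
  obtain ⟨s, hs⟩ := h
  rw [hs, map_mul, Matrix.aeval_self_charpoly, zero_mul]

/-- eigenvalues of a subquotient -/
lemma SQ.roots {Γ : Type} [Group Γ] {ρ : Γ →* GL (Fin n) k} {W : Γ → Matrix (Fin N) (Fin N) k}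
    (h : SQ W ρ) (g : Γ) (z : k) (hz : (mt ρ g).charpoly.IsRoot z) :
    (W g).charpoly.IsRoot z := by
  classical
  obtain ⟨V, hV, f, hf, hfe⟩ := h
  by_contra hcon
  -- the restriction of `W g - z`
  let A : V →ₗ[k] V :=
    { toFun := fun x => ⟨(W g).mulVec x.1 - z • x.1, V.sub_mem (hV g _ x.2) (V.smul_mem z x.2)⟩
      map_add' := fun x y => Subtype.ext (by
        change (W g).mulVec (x.1 + y.1) - z • (x.1 + y.1) = _
        rw [Matrix.mulVec_add, smul_add]
        change _ = ((W g).mulVec x.1 - z • x.1) + ((W g).mulVec y.1 - z • y.1)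
        abel)
      map_smul' := fun c x => Subtype.ext (by
        change (W g).mulVec (c • x.1) - z • (c • x.1) = c • ((W g).mulVec x.1 - z • x.1)
        rw [Matrix.mulVec_smul, smul_sub, smul_comm]) }
  have hinj : Function.Injective A := by
    rw [← LinearMap.ker_eq_bot, LinearMap.ker_eq_bot']
    intro x hx
    have h1 : (W g).mulVec x.1 - z • x.1 = 0 := congrArg Subtype.val hx
    apply Subtype.ext
    by_contra hx0
    apply hcon
    rw [IsRoot.def, Matrix.eval_charpoly]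
    refine Matrix.exists_mulVec_eq_zero_iff.1 ⟨x.1, hx0, ?_⟩
    rw [Matrix.sub_mulVec, Matrix.scalar_apply, ← Matrix.smul_one_eq_diagonal, Matrix.smul_mulVec,
      Matrix.one_mulVec, ← neg_sub, h1, neg_zero]
  have hsurj : Function.Surjective A := LinearMap.injective_iff_surjective.1 hinj
  rw [IsRoot.def, Matrix.eval_charpoly] at hz
  have hB : Function.Surjective (Matrix.mulVec (mt ρ g - Matrix.scalar (Fin n) z)) := by
    intro y
    obtain ⟨x, hx⟩ := hf y
    obtain ⟨x', hx'⟩ := hsurj x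
    refine ⟨f x', ?_⟩
    have h1 := hfe g x' ⟨(W g).mulVec x'.1, hV g _ x'.2⟩ rfl
    rw [Matrix.sub_mulVec, ← h1, Matrix.scalar_apply, ← Matrix.smul_one_eq_diagonal,
      Matrix.smul_mulVec, Matrix.one_mulVec, ← hx, ← hx', ← map_smul, ← map_sub]
    rfl
  have hdet : (mt ρ g - Matrix.scalar (Fin n) z).det ≠ 0 := by
    have h1 := Matrix.mulVec_surjective_iff_isUnit.1 hB
    exact ((Matrix.isUnit_iff_isUnit_det _).1 h1).ne_zero
  apply hdet
  rw [← neg_sub, Matrix.det_neg, hz, mul_zero]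

end alg

section galois

open NumberField IsDedekindDomain Pool.Agent.W401.Cheb

variable {K : Type} [Field K] [NumberField K] {k : Type} [Field k] [IsAlgClosed k] [CharZero k]
  [TopologicalSpace k] [IsTopologicalRing k] [T2Space k] {n N : ℕ}

/-- the equation for all elements of the Galois group -/
theorem E_of_frob (ρ : GK K →* GL (Fin n) k) (W : GK K →* GL (Fin N) k) (hρ : Continuous ρ)
    (hW : Continuous W) (S : Set (HeightOneSpectrum (𝓞 K))) (hS : S.Finite)
    (h : ∀ v ∉ S, ∀ g, IsFrob v g → (mt ρ g).charpoly ∣ (mt W g).charpoly ^ n) (g : GK K) :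
    aeval (mt ρ g) ((mt W g).charpoly ^ n) = 0 := by
  have hr' : Continuous (mt ρ) := Units.continuous_val.comp hρ
  have hw' : Continuous (mt W) := Units.continuous_val.comp hW
  refine closed_univK {g | aeval (mt ρ g) ((mt W g).charpoly ^ n) = 0} ?_ ?_ S hS
    (fun v hv σ hσ => E_of_dvd (h v hv σ hσ)) g
  · exact isClosed_singleton.preimage (continuous_E hr' hw')
  · intro σ hσ τ
    have h1 := E_conj (ρ τ) (W τ) (mt ρ σ) (mt W σ) hσ
    have e1 : (ρ τ).1 * mt ρ σ * ((ρ τ)⁻¹).1 = mt ρ (τ * σ * τ⁻¹) := by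
      rw [mt_mul, mt_mul, ← map_inv]
      rfl
    have e2 : (W τ).1 * mt W σ * ((W τ)⁻¹).1 = mt W (τ * σ * τ⁻¹) := by
      rw [mt_mul, mt_mul, ← map_inv]
      rfl
    rw [e1, e2] at h1
    exact h1

variable {Γ : Type} [Group Γ]

/-- the action on functions -/
noncomputable def actF (a b : ℕ) (U : Subgroup Γ) (W : Γ →* GL (Fin N) k) (g : Γ)
    (F : Ix N a b U → k) (c : Ix N a b U) : k :=
  ∑ i : Fin a → Fin N, ∑ j : Fin b → Fin N, (∏ s, mt W g (c.1 s) (i s)) *
    (∏ t, mt W g⁻¹ (j t) (c.2.1 t)) * F (i, j, g⁻¹ • c.2.2)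

lemma tm_mulVec (a b : ℕ) (U : Subgroup Γ) [Fintype (Γ ⧸ U)] (W : Γ →* GL (Fin N) k) (g : Γ)
    (F : Ix N a b U → k) : (tm U a b (mh W) g).mulVec F = actF a b U W g F := by
  funext c
  unfold actF
  rw [Matrix.mulVec, dotProduct, Fintype.sum_prod_type]
  refine Finset.sum_congr rfl fun i _ => ?_
  rw [Fintype.sum_prod_type]
  refine Finset.sum_congr rfl fun j _ => ?_
  rw [Finset.sum_eq_single (g⁻¹ • c.2.2)]
  · have h1 : pm k U g c.2.2 (g⁻¹ • c.2.2) = 1 := by
      unfold pm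
      rw [smul_inv_smul, if_pos rfl]
    rw [tm_apply]
    simp only [h1, mul_one]
    rfl
  · intro d _ hd
    have h1 : pm k U g c.2.2 d = 0 := by
      unfold pm
      rw [if_neg]
      intro h2
      apply hd
      rw [← h2, inv_smul_smul]
    rw [tm_apply]
    simp only [h1, mul_zero, zero_mul]
  · intro h1
    exact absurd (Finset.mem_univ _) h1

/-- subquotients of the tensor constructions -/
def SQF (a b : ℕ) (U : Subgroup Γ) (W : Γ →* GL (Fin N) k) (ρ : Γ →* GL (Fin n) k) : Prop :=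
  ∃ V : Submodule k (Ix N a b U → k), (∀ g, ∀ F ∈ V, actF a b U W g F ∈ V) ∧
    ∃ f : V →ₗ[k] (Fin n → k), Function.Surjective f ∧
      ∀ g, ∀ F F' : V, F'.1 = actF a b U W g F.1 → f F' = (mt ρ g).mulVec (f F)

lemma SQ.sqf {a b : ℕ} {U : Subgroup Γ} [Fintype (Γ ⧸ U)] {W : Γ →* GL (Fin N) k}
    {ρ : Γ →* GL (Fin n) k} (h : SQ (fun g => tm U a b (mh W) g) ρ) : SQF a b U W ρ := by
  obtain ⟨V, hV, f, hf, hfe⟩ := h
  refine ⟨V, fun g F hF => ?_, f, hf, fun g F F' h => ?_⟩
  · rw [← tm_mulVec]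
    exact hV g F hF
  · rw [← tm_mulVec] at h
    exact hfe g F F' h

/-- **Criterion for Galois representations.** -/
theorem criterionK (ρ : GK K →* GL (Fin n) k) (W : GK K →* GL (Fin N) k) (hρ : Continuous ρ)
    (hW : Continuous W) (hirr : Irr ρ) (S : Set (HeightOneSpectrum (𝓞 K))) (hS : S.Finite)
    (h : ∀ v ∉ S, ∀ g, IsFrob v g → (mt ρ g).charpoly ∣ (mt W g).charpoly ^ n) :
    ∃ U : Subgroup (GK K), U.Normal ∧ IsOpen (U : Set (GK K)) ∧ ∃ a b : ℕ, SQF a b U W ρ := by
  obtain ⟨U, hn, ho, hfin, a, b, hab⟩ := criterion ρ W hρ hW hirr (E_of_frob ρ W hρ hW S hS h)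
  exact ⟨U, hn, ho, a, b, hab.sqf⟩

/-- roots instead of divisibility -/
theorem criterionR (ρ : GK K →* GL (Fin n) k) (W : GK K →* GL (Fin N) k) (hρ : Continuous ρ)
    (hW : Continuous W) (hirr : Irr ρ) (S : Set (HeightOneSpectrum (𝓞 K))) (hS : S.Finite)
    (h : ∀ v ∉ S, ∀ g, IsFrob v g → ∀ z, (mt ρ g).charpoly.IsRoot z →
      (mt W g).charpoly.IsRoot z) :
    ∃ U : Subgroup (GK K), U.Normal ∧ IsOpen (U : Set (GK K)) ∧ ∃ a b : ℕ, SQF a b U W ρ :=
  criterionK ρ W hρ hW hirr S hS fun v hv g hg => dvd_of_roots _ (h v hv g hg)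

/-- **Independence of the prime number.** -/
theorem independence {k₀ : Type} [Field k₀] [IsAlgClosed k₀] {E : Type} [Field E]
    (ρ₀ : GK K →* GL (Fin n) k₀) (W₀ : GK K →* GL (Fin N) k₀) (ρ : GK K →* GL (Fin n) k)
    (W : GK K →* GL (Fin N) k) (hρ : Continuous ρ)
    (hW : Continuous W) (hirr : Irr ρ) (S₀ S : Set (HeightOneSpectrum (𝓞 K))) (hS₀ : S₀.Finite)
    (hS : S.Finite) (ι₀ : E →+* k₀) (ι : E →+* k) (P Q : HeightOneSpectrum (𝓞 K) → E[X])
    (hρ₀ : ∀ v ∉ S₀, ∀ g, IsFrob v g → (mt ρ₀ g).charpoly = (P v).map ι₀)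
    (hW₀ : ∀ v ∉ S₀, ∀ g, IsFrob v g → (mt W₀ g).charpoly = (Q v).map ι₀)
    (hρ1 : ∀ v ∉ S, ∀ g, IsFrob v g → (mt ρ g).charpoly = (P v).map ι)
    (hW1 : ∀ v ∉ S, ∀ g, IsFrob v g → (mt W g).charpoly = (Q v).map ι)
    (h : SQ (mt W₀) ρ₀) :
    ∃ U : Subgroup (GK K), U.Normal ∧ IsOpen (U : Set (GK K)) ∧ ∃ a b : ℕ, SQF a b U W ρ := by
  refine criterionK ρ W hρ hW hirr (S₀ ∪ S) (hS₀.union hS) fun v hv g hg => ?_
  rw [Set.mem_union, not_or] at hv
  have h1 := dvd_of_roots (mt ρ₀ g) (h.roots g)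
  rw [hρ₀ v hv.1 g hg, hW₀ v hv.1 g hg, ← Polynomial.map_pow, Polynomial.map_dvd_map'] at h1
  rw [hρ1 v hv.2 g hg, hW1 v hv.2 g hg, ← Polynomial.map_pow]
  exact Polynomial.map_dvd _ h1

end galois

end Pool.Agent.Y719.TN
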