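import Pool.Agent.Y719.TN.Pts

/-!
# Unipotent matrices with few traces, and integral traces
-/

set_option autoImplicit false
set_option linter.all false

namespace Pool.Agent.Y719.TN

open Polynomial

section nat

variable {R S : Type} [CommRing R] [CommRing S] {n : ℕ}

lemma map_aeval_mat (f : R →+* S) (Y : Matrix (Fin n) (Fin n) R) (q : R[X]) :
    (aeval Y q).map f = aeval (Y.map f) (q.map f) := by
  have h1 : f.mapMatrix (aeval Y q) = aeval (f.mapMatrix Y) (q.map f) := by
    induction q using Polynomial.induction_on' with
    | add p q hp hq => rw [map_add, map_add, hp, hq, Polynomial.map_add, map_add]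
    | monomial m c =>
      rw [aeval_monomial, map_mul, map_pow, Polynomial.map_monomial, aeval_monomial]
      congr 1
      ext i j
      simp only [RingHom.mapMatrix_apply, Matrix.map_apply, Matrix.algebraMap_matrix_apply]
      split_ifs
      · rfl
      · exact map_zero f
  exact h1

end nat

section field

variable {k : Type} [Field k] {n : ℕ}

/-- eigenvalues of a matrix killed by a polynomial -/
lemma root_of_charpoly {Y : Matrix (Fin n) (Fin n) k} {q : k[X]} (h : aeval Y q = 0) {μ : k}
    (hμ : μ ∈ Y.charpoly.roots) : q.eval μ = 0 := by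
  have h1 : (Y.charpoly).eval μ = 0 := (mem_roots'.1 hμ).2
  rw [Matrix.eval_charpoly] at h1
  obtain ⟨v, hv0, hv⟩ := Matrix.exists_mulVec_eq_zero_iff.2 h1
  have hv' : Y.mulVec v = μ • v := by
    rw [Matrix.sub_mulVec, Matrix.scalar_apply] at hv
    have h2 : (Matrix.diagonal fun _ : Fin n => μ).mulVec v = μ • v := by
      ext i
      rw [Matrix.mulVec_diagonal]
      rfl
    rw [h2, sub_eq_zero] at hv
    exact hv.symm
  have hpow : ∀ m : ℕ, (Y ^ m).mulVec v = μ ^ m • v := by
    intro m
    induction m with
    | zero => rw [pow_zero, pow_zero, Matrix.one_mulVec, one_smul]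
    | succ m ih =>
      rw [pow_succ, ← Matrix.mulVec_mulVec, hv', Matrix.mulVec_smul, ih, smul_smul, pow_succ]
      congr 1
      ring
  have hq : (aeval Y q).mulVec v = q.eval μ • v := by
    induction q using Polynomial.induction_on' with
    | add p q hp hq => 
      rw [map_add, Matrix.add_mulVec, eval_add, add_smul]
      have e : ∀ p : k[X], (aeval Y p).mulVec v = p.eval μ • v := by
        intro p
        induction p using Polynomial.induction_on' with
        | add p q hp hq => rw [map_add, Matrix.add_mulVec, eval_add, add_smul, hp, hq]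
        | monomial m c =>
          rw [aeval_monomial, eval_monomial, ← Algebra.smul_def, Matrix.smul_mulVec, hpow, smul_smul]
      rw [e, e]
    | monomial m c =>
      rw [aeval_monomial, eval_monomial, ← Algebra.smul_def, Matrix.smul_mulVec, hpow, smul_smul]
  rw [h, Matrix.zero_mulVec] at hq
  by_contra hne
  have h3 := smul_eq_zero.1 hq.symm
  exact h3.elim hne hv0

/-- the sums of `n` roots -/
lemma finite_sums (s : Finset k) (n : ℕ) :
    {t : k | ∃ m : Multiset k, Multiset.card m = n ∧ (∀ x ∈ m, x ∈ s) ∧ m.sum = t}.Finite := by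
  classical
  have h1 : {t : k | ∃ m : Multiset k, Multiset.card m = n ∧ (∀ x ∈ m, x ∈ s) ∧ m.sum = t} ⊆
      Set.range (fun f : Fin n → s => ∑ i, (f i : k)) := by
    rintro t ⟨m, hm, hs, rfl⟩
    obtain ⟨l, rfl⟩ := Quot.exists_rep m
    change l.length = n at hm
    subst hm
    refine ⟨fun i => ⟨l.get i, hs _ (by
      change l.get i ∈ (l : Multiset k)
      rw [Multiset.mem_coe]
      exact List.get_mem l i)⟩, ?_⟩
    change ∑ i, l.get i = (l : Multiset k).sum
    rw [Multiset.sum_coe, ← List.sum_ofFn, List.ofFn_get]
  exact (Set.finite_range _).subset h1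

variable [IsAlgClosed k] [CharZero k]

/-- A unipotent matrix such that the powers, multiplied with the elements of a spanning set, have
eigenvalues in finite sets, is trivial. -/
theorem eq_one_of_unip (A : Matrix (Fin n) (Fin n) k) (J : ℕ) (hA : (A - 1) ^ J = 0)
    (P : Set (Matrix (Fin n) (Fin n) k)) (hP : Submodule.span k P = ⊤)
    (h : ∀ p ∈ P, ∃ q : k[X], q ≠ 0 ∧ ∀ m : ℕ, aeval (A ^ m * p) q = 0) : A = 1 := by
  classical
  have key : ∀ p ∈ P, (A * p).trace = p.trace := by
    intro p hp
    obtain ⟨q, hq0, hq⟩ := h p hp
    -- the traces lie in a finite set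
    have hfin : (Set.range fun m : ℕ => (A ^ m * p).trace).Finite := by
      refine (finite_sums q.roots.toFinset n).subset ?_
      rintro _ ⟨m, rfl⟩
      refine ⟨(A ^ m * p).charpoly.roots, ?_, fun x hx => ?_, ?_⟩
      · rw [splits_iff_card_roots.1 (IsAlgClosed.splits _), Matrix.charpoly_natDegree_eq_dim,
          Fintype.card_fin]
      · rw [Multiset.mem_toFinset, mem_roots hq0]
        exact root_of_charpoly (hq m) hx
      · exact (Matrix.trace_eq_sum_roots_charpoly _).symm
    -- the traces are values of a polynomial
    set Q : k[X] := ∑ j ∈ Finset.range J,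
      C ((((A - 1) ^ j * p).trace) / (j.factorial : k)) * descPochhammer k j with hQ
    have hval : ∀ m : ℕ, Q.eval (m : k) = (A ^ m * p).trace := by
      intro m
      have h1 : A ^ m = ∑ j ∈ Finset.range J, (m.choose j : k) • (A - 1) ^ j := by
        have h2 : A ^ m = ∑ j ∈ Finset.range (m + 1), (m.choose j : k) • (A - 1) ^ j := by
          have h3 : A = (A - 1) + 1 := by abel
          conv_lhs => rw [h3]
          rw [(Commute.one_right (A - 1)).add_pow]
          refine Finset.sum_congr rfl fun j _ => ?_
          rw [one_pow, mul_one, ← nsmul_eq_mul', Nat.cast_smul_eq_nsmul]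
        have h4 : ∀ M : ℕ, J ≤ M → ∑ j ∈ Finset.range M, (m.choose j : k) • (A - 1) ^ j =
            ∑ j ∈ Finset.range J, (m.choose j : k) • (A - 1) ^ j := by
          intro M hM
          refine (Finset.sum_subset (Finset.range_mono hM) fun j _ hj => ?_).symm
          rw [Finset.mem_range, not_lt] at hj
          rw [pow_eq_zero_of_le hj hA, smul_zero]
        have h5 : ∀ M : ℕ, m + 1 ≤ M → ∑ j ∈ Finset.range M, (m.choose j : k) • (A - 1) ^ j =
            ∑ j ∈ Finset.range (m + 1), (m.choose j : k) • (A - 1) ^ j := by
          intro M hM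
          refine (Finset.sum_subset (Finset.range_mono hM) fun j _ hj => ?_).symm
          rw [Finset.mem_range, not_lt] at hj
          rw [Nat.choose_eq_zero_of_lt hj, Nat.cast_zero, zero_smul]
        rw [h2, ← h5 (max J (m + 1)) (le_max_right _ _), h4 _ (le_max_left _ _)]
      rw [h1, Finset.sum_mul, Matrix.trace_sum, hQ, eval_finset_sum]
      refine Finset.sum_congr rfl fun j _ => ?_
      rw [eval_mul, eval_C, smul_mul_assoc, Matrix.trace_smul, smul_eq_mul]
      have h6 : (descPochhammer k j).eval (m : k) = (m.choose j : k) * (j.factorial : k) := by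
        rw [descPochhammer_eval_eq_descFactorial, Nat.descFactorial_eq_factorial_mul_choose]
        push_cast
        ring
      rw [h6]
      have h7 : (j.factorial : k) ≠ 0 := by exact_mod_cast j.factorial_ne_zero
      field_simp
    -- a constant polynomial
    obtain ⟨c, hc⟩ : ∃ c : k, {m : ℕ | (A ^ m * p).trace = c}.Infinite := by
      by_contra hcon
      push Not at hcon
      have h8 : (Set.univ : Set ℕ) = ⋃ c ∈ Set.range (fun m : ℕ => (A ^ m * p).trace),
          {m : ℕ | (A ^ m * p).trace = c} := by
        ext m
        simp only [Set.mem_univ, Set.mem_iUnion, Set.mem_range, true_iff]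
        exact ⟨_, ⟨m, rfl⟩, rfl⟩
      have h9 : (Set.univ : Set ℕ).Finite := by
        rw [h8]
        refine Set.Finite.biUnion hfin fun c _ => ?_
        exact hcon c
      exact Set.infinite_univ h9
    have hQc : Q = C c := by
      refine Polynomial.eq_of_infinite_eval_eq Q (C c) ?_
      have hinj : Function.Injective (fun m : ℕ => (m : k)) := Nat.cast_injective
      refine (hc.image hinj.injOn).mono ?_
      rintro _ ⟨m, hm, rfl⟩
      change Q.eval (m : k) = (C c).eval (m : k)
      rw [hval, eval_C]
      exact hm
    have e0 := hval 0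
    have e1 := hval 1
    rw [hQc, eval_C] at e0 e1
    rw [pow_zero, one_mul] at e0
    rw [pow_one] at e1
    rw [← e0, ← e1]
  have key2 : ∀ p : Matrix (Fin n) (Fin n) k, (A * p).trace = p.trace := by
    intro p
    have hp : p ∈ Submodule.span k P := by rw [hP]; trivial
    induction hp using Submodule.span_induction with
    | mem p hp => exact key p hp
    | zero => rw [mul_zero]
    | add a b _ _ ha hb => rw [mul_add, Matrix.trace_add, Matrix.trace_add, ha, hb]
    | smul c a _ ha => rw [mul_smul_comm, Matrix.trace_smul, Matrix.trace_smul, ha]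
  ext i j
  have h1 := key2 (Matrix.single j i 1)
  have h2 : ∀ M : Matrix (Fin n) (Fin n) k, (M * Matrix.single j i 1).trace = M i j := by
    intro M
    rw [Matrix.trace_mul_single]
    simp
  have h3 := h2 1
  rw [one_mul] at h3
  rw [h2, h3] at h1
  exact h1

end field

section integral

/-- the trace of an integral matrix -/
theorem isIntegral_trace {O A : Type} [CommRing O] [CommRing A] [IsDomain A] [Algebra O A] {n : ℕ}
    (Y : Matrix (Fin n) (Fin n) A) (q : O[X]) (hq : q.Monic)
    (h : aeval Y (q.map (algebraMap O A)) = 0) : IsIntegral O Y.trace := by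
  classical
  let M := FractionRing A
  let Ω := AlgebraicClosure M
  have hAΩ : Function.Injective (algebraMap A Ω) := by
    rw [IsScalarTower.algebraMap_eq A M Ω]
    exact (algebraMap M Ω).injective.comp (IsFractionRing.injective A M)
  have h1 : IsIntegral O (algebraMap A Ω Y.trace) := by
    have e1 : algebraMap A Ω Y.trace = (Y.map (algebraMap A Ω)).trace :=
      (AddMonoidHom.map_trace (algebraMap A Ω).toAddMonoidHom Y)
    rw [e1, Matrix.trace_eq_sum_roots_charpoly]
    refine IsIntegral.multiset_sum fun μ hμ => ?_
    have h2 : aeval (Y.map (algebraMap A Ω)) (q.map (algebraMap O Ω)) = 0 := by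
      have h3 := map_aeval_mat (algebraMap A Ω) Y (q.map (algebraMap O A))
      rw [h, Polynomial.map_map, ← IsScalarTower.algebraMap_eq] at h3
      rw [← h3]
      ext i j
      simp
    have h3 := root_of_charpoly h2 hμ
    refine ⟨q, hq, ?_⟩
    rw [eval_map] at h3
    exact h3
  exact (isIntegral_algebraMap_iff hAΩ).1 h1

end integral

end Pool.Agent.Y719.TN
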