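import Mathlib

/-!
# Integral elements with a unique specialisation
-/

set_option autoImplicit false
set_option linter.all false

namespace Pool.Agent.Y719.TN

open Polynomial

/-- homomorphisms into an algebraically closed field extend to integral extensions -/
theorem extend {k : Type} [Field k] [IsAlgClosed k] {A B : Type} [CommRing A] [CommRing B]
    [Algebra A B] [Algebra.IsIntegral A B] (hinj : Function.Injective (algebraMap A B))
    (e : A →+* k) (he : Function.Surjective e) :
    ∃ Φ : B →+* k, ∀ a, Φ (algebraMap A B a) = e a := by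
  have hm : (RingHom.ker e).IsMaximal := RingHom.ker_isMaximal_of_surjective e he
  obtain ⟨Q, hQ, hQc⟩ := Ideal.exists_ideal_over_maximal_of_isIntegral (S := B) (RingHom.ker e)
    (by rw [(RingHom.injective_iff_ker_eq_bot _).1 hinj]; exact bot_le)
  let κ := B ⧸ Q
  letI : Field κ := Ideal.Quotient.field Q
  let E : (A ⧸ RingHom.ker e) ≃+* k := RingHom.quotientKerEquivOfSurjective he
  let g : (A ⧸ RingHom.ker e) →+* κ := Ideal.Quotient.lift (RingHom.ker e)
    ((Ideal.Quotient.mk Q).comp (algebraMap A B)) (fun a ha => by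
      rw [← hQc, Ideal.mem_comap] at ha
      rw [RingHom.comp_apply, Ideal.Quotient.eq_zero_iff_mem]
      exact ha)
  let j : k →+* κ := g.comp (E.symm : k →+* A ⧸ RingHom.ker e)
  have hj : ∀ a, j (e a) = Ideal.Quotient.mk Q (algebraMap A B a) := by
    intro a
    have h1 : E.symm (e a) = Ideal.Quotient.mk (RingHom.ker e) a := by
      rw [RingEquiv.symm_apply_eq]
      rfl
    change g (E.symm (e a)) = _
    rw [h1]
    rfl
  letI : Algebra k κ := j.toAlgebra
  have hint : Algebra.IsIntegral k κ := by
    refine ⟨fun y => ?_⟩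
    obtain ⟨b, rfl⟩ := Ideal.Quotient.mk_surjective y
    obtain ⟨q, hq, hqb⟩ := Algebra.IsIntegral.isIntegral (R := A) b
    refine ⟨q.map e, hq.map e, ?_⟩
    rw [eval₂_map]
    have h1 : (algebraMap k κ).comp e = (Ideal.Quotient.mk Q).comp (algebraMap A B) := by
      apply RingHom.ext
      intro a
      exact hj a
    rw [h1, ← hom_eval₂, hqb, map_zero]
  have hb : Function.Bijective (algebraMap k κ) := IsAlgClosed.algebraMap_bijective_of_isIntegral
  let F : k ≃+* κ := RingEquiv.ofBijective (algebraMap k κ) hb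
  refine ⟨(F.symm : κ →+* k).comp (Ideal.Quotient.mk Q), fun a => ?_⟩
  change F.symm (Ideal.Quotient.mk Q (algebraMap A B a)) = e a
  rw [RingEquiv.symm_apply_eq]
  exact (hj a).symm

/-- **The trace argument.** -/
theorem trace_arg {k : Type} [Field k] [IsAlgClosed k] {O A : Type} [CommRing O] [IsDomain O]
    [CommRing A] [IsDomain A] [Algebra k O] [Algebra k A] [Algebra O A] [IsScalarTower k O A]
    [FaithfulSMul O A] [Algebra.IsIntegral O A] {X : Type} (ev : X → A →ₐ[k] k) (α : A)
    (huniq : ∀ x, ∀ ψ : A →ₐ[k] k, (∀ o : O, ψ (algebraMap O A o) = ev x (algebraMap O A o)) →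
      ψ α = ev x α) :
    ∃ (u v : O) (d : ℕ), 0 < d ∧ v ≠ 0 ∧
      ∀ x, ev x (algebraMap O A v) * (d * ev x α) = ev x (algebraMap O A u) := by
  classical
  let M := FractionRing A
  let Ω := AlgebraicClosure M
  let L := FractionRing O
  have hAΩ : Function.Injective (algebraMap A Ω) := by
    rw [IsScalarTower.algebraMap_eq A M Ω]
    exact (algebraMap M Ω).injective.comp (IsFractionRing.injective A M)
  have hOA : Function.Injective (algebraMap O A) := FaithfulSMul.algebraMap_injective O A
  have hOΩ : Function.Injective (algebraMap O Ω) := by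
    rw [IsScalarTower.algebraMap_eq O A Ω]
    exact hAΩ.comp hOA
  haveI : FaithfulSMul O Ω := (faithfulSMul_iff_algebraMap_injective O Ω).2 hOΩ
  letI : Algebra L Ω := FractionRing.liftAlgebra O Ω
  haveI : IsScalarTower O L Ω := FractionRing.isScalarTower_liftAlgebra O Ω
  -- `Ω` is algebraic over `L`
  haveI : Algebra.IsAlgebraic M Ω := inferInstance
  haveI : Algebra.IsAlgebraic A Ω := (IsFractionRing.comap_isAlgebraic_iff (A := A) (K := M)).2 inferInstance
  haveI : Algebra.IsAlgebraic O A := inferInstance
  haveI : Algebra.IsAlgebraic O Ω := Algebra.IsAlgebraic.trans O A Ω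
  haveI : Algebra.IsAlgebraic L Ω := (IsFractionRing.comap_isAlgebraic_iff (A := O) (K := L)).1 inferInstance
  haveI : IsAlgClosure L Ω := ⟨inferInstance, inferInstance⟩
  haveI : Normal L Ω := IsAlgClosure.normal L Ω
  -- the integral closure
  let B := integralClosure O Ω
  have hAB : ∀ a : A, algebraMap A Ω a ∈ B := fun a => by
    have h1 : IsIntegral O a := Algebra.IsIntegral.isIntegral a
    exact h1.map (IsScalarTower.toAlgHom O A Ω)
  let i : A →+* B := (algebraMap A Ω).codRestrict B.toSubring hAB
  letI : Algebra A B := i.toAlgebra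
  haveI : IsScalarTower O A B := IsScalarTower.of_algebraMap_eq fun o => by
    apply Subtype.ext
    change algebraMap O Ω o = algebraMap A Ω (algebraMap O A o)
    rw [← IsScalarTower.algebraMap_apply]
  haveI : Algebra.IsIntegral O B := integralClosure.AlgebraIsIntegral
  haveI : Algebra.IsIntegral A B := Algebra.IsIntegral.tower_top O
  have hiinj : Function.Injective (algebraMap A B) := by
    intro a b hab
    exact hAΩ (congrArg Subtype.val hab)
  have hev : ∀ x, Function.Surjective (ev x : A →+* k) := fun x c => ⟨algebraMap k A c, by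
    change ev x (algebraMap k A c) = c
    rw [AlgHom.commutes]
    rfl⟩
  choose Φ hΦ using fun x => extend hiinj (ev x : A →+* k) (hev x)
  -- the conjugates
  set f := minpoly L (algebraMap A Ω α) with hf
  have hαint : IsIntegral L (algebraMap A Ω α) :=
    Algebra.IsIntegral.isIntegral (R := L) (A := Ω) _
  have hf0 : f.Monic := minpoly.monic hαint
  set s := (f.map (algebraMap L Ω)).roots with hs
  have hsplit : (f.map (algebraMap L Ω)).Splits := IsAlgClosed.splits _
  have hcard : Multiset.card s = f.natDegree := by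
    rw [hs, splits_iff_card_roots.1 hsplit, natDegree_map]
  have hd : 0 < f.natDegree := minpoly.natDegree_pos hαint
  have hroot : ∀ β ∈ s, ∃ σ : Ω ≃ₐ[L] Ω, σ (algebraMap A Ω α) = β := by
    intro β hβ
    have h1 : aeval β f = 0 := by
      have h2 := (mem_roots'.1 hβ).2
      rw [IsRoot.def, eval_map] at h2
      rwa [aeval_def]
    obtain ⟨σ, hσ⟩ := minpoly.exists_algEquiv_of_root (K := L) (L := Ω) (x := β)
      (y := algebraMap A Ω α) (Algebra.IsAlgebraic.isAlgebraic _) h1
    exact ⟨σ.symm, by rw [AlgEquiv.symm_apply_eq, hσ]⟩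
  have hσB : ∀ (σ : Ω ≃ₐ[L] Ω) (a : A), σ (algebraMap A Ω a) ∈ B := fun σ a => by
    have h1 : IsIntegral O (algebraMap A Ω a) := hAB a
    exact h1.map ((σ : Ω →ₐ[L] Ω).restrictScalars O)
  have hval : ∀ (x : X) (σ : Ω ≃ₐ[L] Ω), Φ x ⟨σ (algebraMap A Ω α), hσB σ α⟩ = ev x α := by
    intro x σ
    have hO : ∀ o : O, (⟨σ (algebraMap A Ω (algebraMap O A o)), hσB σ _⟩ : B) =
        algebraMap A B (algebraMap O A o) := by
      intro o
      apply Subtype.ext
      change σ (algebraMap A Ω (algebraMap O A o)) = algebraMap A Ω (algebraMap O A o)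
      rw [← IsScalarTower.algebraMap_apply O A Ω, IsScalarTower.algebraMap_apply O L Ω]
      exact σ.commutes _
    let ψ₀ : A →+* k :=
      { toFun := fun a => Φ x ⟨σ (algebraMap A Ω a), hσB σ a⟩
        map_one' := by
          have : (⟨σ (algebraMap A Ω 1), hσB σ 1⟩ : B) = 1 := by
            apply Subtype.ext
            change σ (algebraMap A Ω 1) = 1
            rw [map_one, map_one]
          rw [this, map_one]
        map_zero' := by
          have : (⟨σ (algebraMap A Ω 0), hσB σ 0⟩ : B) = 0 := by
            apply Subtype.ext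
            change σ (algebraMap A Ω 0) = 0
            rw [map_zero, map_zero]
          rw [this, map_zero]
        map_mul' := fun a b => by
          have : (⟨σ (algebraMap A Ω (a * b)), hσB σ _⟩ : B) =
              ⟨σ (algebraMap A Ω a), hσB σ a⟩ * ⟨σ (algebraMap A Ω b), hσB σ b⟩ := by
            apply Subtype.ext
            change σ (algebraMap A Ω (a * b)) = σ (algebraMap A Ω a) * σ (algebraMap A Ω b)
            rw [map_mul, map_mul]
          rw [this, map_mul]
        map_add' := fun a b => by
          have : (⟨σ (algebraMap A Ω (a + b)), hσB σ _⟩ : B) =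
              ⟨σ (algebraMap A Ω a), hσB σ a⟩ + ⟨σ (algebraMap A Ω b), hσB σ b⟩ := by
            apply Subtype.ext
            change σ (algebraMap A Ω (a + b)) = σ (algebraMap A Ω a) + σ (algebraMap A Ω b)
            rw [map_add, map_add]
          rw [this, map_add] }
    have hψO : ∀ o : O, ψ₀ (algebraMap O A o) = ev x (algebraMap O A o) := by
      intro o
      change Φ x ⟨σ (algebraMap A Ω (algebraMap O A o)), hσB σ _⟩ = _
      rw [hO, hΦ]
      rfl
    let ψ : A →ₐ[k] k :=
      { ψ₀ with
        commutes' := fun c => by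
          change ψ₀ (algebraMap k A c) = _
          rw [IsScalarTower.algebraMap_apply k O A, hψO, ← IsScalarTower.algebraMap_apply k O A,
            AlgHom.commutes] }
    exact huniq x ψ hψO
  -- the sum of the conjugates
  have hsum : s.sum = algebraMap L Ω (- f.nextCoeff) := by
    have h1 := (hsplit).nextCoeff_eq_neg_sum_roots_of_monic (hf0.map _)
    rw [nextCoeff_map (algebraMap L Ω).injective] at h1
    rw [map_neg, h1, neg_neg]
  obtain ⟨u, v, hv, huv⟩ := IsFractionRing.div_surjective (A := O) (- f.nextCoeff : L)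
  have hv0 : v ≠ 0 := nonZeroDivisors.ne_zero hv
  have hvL : algebraMap O L v ≠ 0 := by
    rw [Ne, map_eq_zero_iff _ (IsFractionRing.injective O L)]
    exact hv0
  have hmul : algebraMap O Ω v * s.sum = algebraMap O Ω u := by
    rw [hsum, ← huv, IsScalarTower.algebraMap_apply O L Ω, ← map_mul, mul_div_cancel₀ _ hvL,
      ← IsScalarTower.algebraMap_apply O L Ω]
  have hsB : ∀ β ∈ s, β ∈ B := fun β hβ => by
    obtain ⟨σ, hσ⟩ := hroot β hβ
    rw [← hσ]
    exact hσB σ α
  let s' : Multiset B := s.pmap (fun β h => ⟨β, h⟩) hsB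
  have hs' : (s'.sum : Ω) = s.sum := by
    have h1 : (s'.sum : Ω) = (s'.map (fun b : B => (b : Ω))).sum := by
      exact map_multiset_sum B.subtype s'
    rw [h1, Multiset.map_pmap]
    congr 1
    have h2 := Multiset.pmap_eq_map (fun β => β ∈ B) (fun β : Ω => β) s hsB
    rw [Multiset.map_id'] at h2
    exact h2
  have hmulB : algebraMap O B v * s'.sum = algebraMap O B u := by
    apply Subtype.ext
    change algebraMap O Ω v * (s'.sum : Ω) = algebraMap O Ω u
    rw [hs', hmul]
  refine ⟨u, v, f.natDegree, hd, hv0, fun x => ?_⟩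
  have h1 := congrArg (Φ x) hmulB
  have hOB : ∀ o : O, Φ x (algebraMap O B o) = ev x (algebraMap O A o) := by
    intro o
    rw [IsScalarTower.algebraMap_apply O A B, hΦ]
    rfl
  rw [map_mul, hOB, hOB, map_multiset_sum] at h1
  have h2 : (s'.map (Φ x)) = Multiset.replicate (Multiset.card s) (ev x α) := by
    rw [Multiset.eq_replicate]
    refine ⟨?_, ?_⟩
    · rw [Multiset.card_map, Multiset.card_pmap]
    · intro y hy
      rw [Multiset.mem_map] at hy
      obtain ⟨b, hb, rfl⟩ := hy
      rw [Multiset.mem_pmap] at hb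
      obtain ⟨β, hβ, rfl⟩ := hb
      obtain ⟨σ, hσ⟩ := hroot β hβ
      subst hσ
      exact hval x σ
  rw [h2, Multiset.sum_replicate, hcard, nsmul_eq_mul] at h1
  exact h1

end Pool.Agent.Y719.TN
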