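import Pool.Agent.Y719.NG.Grp

/-!
# Subquotients from annihilators
-/

set_option autoImplicit false
set_option linter.all false

namespace Pool.Agent.Y719.TN

open Pool.Agent.Y719.NG

section modules

variable {k : Type} [Field k] {A : Type} [Ring A] [Algebra k A]

/-- the module of an algebra homomorphism into matrices -/
def Mo {ι : Type} [Fintype ι] [DecidableEq ι] (_φ : A →ₐ[k] Matrix ι ι k) : Type := ι → k

variable {ι : Type} [Fintype ι] [DecidableEq ι]

instance (φ : A →ₐ[k] Matrix ι ι k) : AddCommGroup (Mo φ) :=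
  inferInstanceAs (AddCommGroup (ι → k))

instance (φ : A →ₐ[k] Matrix ι ι k) : Module k (Mo φ) :=
  inferInstanceAs (Module k (ι → k))

instance (φ : A →ₐ[k] Matrix ι ι k) : Module A (Mo φ) where
  smul a v := (φ a).mulVec v
  one_smul v := by
    change (φ 1).mulVec v = v
    rw [map_one, Matrix.one_mulVec]
  mul_smul a b v := by
    change (φ (a * b)).mulVec v = (φ a).mulVec ((φ b).mulVec v)
    rw [map_mul, Matrix.mulVec_mulVec]
  smul_zero a := Matrix.mulVec_zero _
  smul_add a v w := Matrix.mulVec_add _ _ _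
  add_smul a b v := by
    change (φ (a + b)).mulVec v = (φ a).mulVec v + (φ b).mulVec v
    rw [map_add, Matrix.add_mulVec]
  zero_smul v := by
    change (φ 0).mulVec v = 0
    rw [map_zero, Matrix.zero_mulVec]

/-- a simple subquotient of a finite product is a subquotient of a factor -/
lemma filtration {B : Type} [Ring B] {M₀ : Type} [AddCommGroup M₀] [Module B M₀]
    {S : Type} [Finite S] (T : S → Type) [∀ s, AddCommGroup (T s)]
    [∀ s, Module B (T s)] (M : Submodule B (∀ s, T s)) (π : M →ₗ[B] M₀) (hπ : π ≠ 0) :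
    ∃ s, ∃ V : Submodule B (T s), ∃ f : V →ₗ[B] M₀, f ≠ 0 := by
  classical
  haveI : Fintype S := Fintype.ofFinite S
  have key : ∀ F : Finset S, ∀ M : Submodule B (∀ s, T s), (∀ x ∈ M, ∀ s ∉ F, x s = 0) →
      ∀ π : M →ₗ[B] M₀, π ≠ 0 → ∃ s, ∃ V : Submodule B (T s), ∃ f : V →ₗ[B] M₀, f ≠ 0 := by
    intro F
    induction F using Finset.induction_on with
    | empty =>
      intro M hM π hπ
      exfalso
      apply hπ
      ext x
      have h1 : x = 0 := Subtype.ext (funext fun s => hM x.1 x.2 s (Finset.notMem_empty s))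
      rw [h1, map_zero, map_zero]
    | insert s F hs ih =>
      intro M hM π hπ
      let M' : Submodule B (∀ s, T s) := M ⊓ LinearMap.ker (LinearMap.proj s : (∀ s, T s) →ₗ[B] T s)
      have hM' : M' ≤ M := inf_le_left
      by_cases h0 : π.comp (Submodule.inclusion hM') = 0
      · let q : M →ₗ[B] T s := (LinearMap.proj s).comp M.subtype
        have hker : LinearMap.ker q ≤ LinearMap.ker π := by
          intro x hx
          rw [LinearMap.mem_ker] at hx ⊢
          have h1 : x.1 ∈ M' := ⟨x.2, hx⟩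
          have h2 := congrArg (fun f : M' →ₗ[B] M₀ => f ⟨x.1, h1⟩) h0
          exact h2
        refine ⟨s, LinearMap.range q,
          ((LinearMap.ker q).liftQ π hker).comp (q.quotKerEquivRange.symm : _ →ₗ[B] _), ?_⟩
        intro h1
        apply hπ
        ext x
        have h2 := congrArg (fun f : LinearMap.range q →ₗ[B] M₀ =>
          f (q.quotKerEquivRange (Submodule.Quotient.mk x))) h1
        have h3 : ((LinearMap.ker q).liftQ π hker) (q.quotKerEquivRange.symm
          (q.quotKerEquivRange (Submodule.Quotient.mk x))) = 0 := h2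
        rw [LinearEquiv.symm_apply_apply] at h3
        exact h3
      · refine ih M' (fun x hx t ht => ?_) _ h0
        by_cases hts : t = s
        · subst hts
          exact hx.2
        · exact hM x (hM' hx) t (by
            rw [Finset.mem_insert]
            push Not
            exact ⟨hts, ht⟩)
  exact key Finset.univ M (fun x _ s hs => absurd (Finset.mem_univ s) hs) π hπ

/-- a simple module killed by the annihilator is a subquotient -/
theorem exists_subquotient {L : Type} [Finite L] {ι₀ : Type} [Fintype ι₀] [DecidableEq ι₀]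
    {ι : L → Type} [∀ l, Fintype (ι l)] [∀ l, DecidableEq (ι l)]
    (φ₀ : A →ₐ[k] Matrix ι₀ ι₀ k) (ψ : ∀ l, A →ₐ[k] Matrix (ι l) (ι l) k)
    {M₀ : Type} [AddCommGroup M₀] [Module A M₀] [hs : IsSimpleModule A M₀]
    (hM₀ : ∀ x : A, φ₀ x = 0 → ∀ m : M₀, x • m = 0)
    (hk : ∀ x : A, (∀ l, ψ l x = 0) → φ₀ x = 0) :
    ∃ l, ∃ V : Submodule A (Mo (ψ l)), ∃ f : V →ₗ[A] M₀, Function.Surjective f := by
  classical
  have hnt : Nontrivial M₀ := IsSimpleModule.nontrivial A M₀
  obtain ⟨v, hv⟩ := exists_ne (0 : M₀)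
  let e : ∀ s : (Σ l, ι l), Mo (ψ s.1) := fun s => (Pi.single s.2 1 : ι s.1 → k)
  let Φ : A →ₗ[A] (∀ s : (Σ l, ι l), Mo (ψ s.1)) :=
    LinearMap.pi fun s => LinearMap.toSpanSingleton A (Mo (ψ s.1)) (e s)
  let π : A →ₗ[A] M₀ := LinearMap.toSpanSingleton A M₀ v
  have hπ : Function.Surjective π := IsSimpleModule.toSpanSingleton_surjective A hv
  have hker : LinearMap.ker Φ ≤ LinearMap.ker π := by
    intro x hx
    rw [LinearMap.mem_ker] at hx ⊢
    have h1 : φ₀ x = 0 := by
      refine hk x fun l => ?_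
      ext i j
      have h2 : (Φ x) ⟨l, j⟩ = 0 := by rw [hx]; rfl
      have h3 : (Φ x) ⟨l, j⟩ = (ψ l x).mulVec (Pi.single j 1) := rfl
      rw [h3] at h2
      have h4 := congrFun (h2 : (ψ l x).mulVec (Pi.single j 1) = (0 : ι l → k)) i
      rw [Matrix.mulVec_single_one] at h4
      exact h4
    exact hM₀ x h1 v
  let g : LinearMap.range Φ →ₗ[A] M₀ :=
    ((LinearMap.ker Φ).liftQ π hker).comp (Φ.quotKerEquivRange.symm : _ →ₗ[A] _)
  have hg : g ≠ 0 := by
    intro h0
    apply hv
    obtain ⟨a, ha⟩ := hπ v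
    have h1 := congrArg (fun f : LinearMap.range Φ →ₗ[A] M₀ =>
      f (Φ.quotKerEquivRange (Submodule.Quotient.mk a))) h0
    have h2 : ((LinearMap.ker Φ).liftQ π hker) (Φ.quotKerEquivRange.symm
      (Φ.quotKerEquivRange (Submodule.Quotient.mk a))) = 0 := h1
    rw [LinearEquiv.symm_apply_apply] at h2
    have h3 : π a = 0 := h2
    rw [← ha, h3]
  obtain ⟨s, V, f, hf⟩ := filtration (fun s : (Σ l, ι l) => Mo (ψ s.1)) (LinearMap.range Φ) g hg
  exact ⟨s.1, V, f, (LinearMap.surjective_or_eq_zero f).resolve_right hf⟩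

end modules

end Pool.Agent.Y719.TN
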