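import Pool.Agent.Y719.TN.Top
import Pool.Agent.Y719.TN.Sub

/-!
# Tensor constructions
-/

set_option autoImplicit false
set_option linter.all false

namespace Pool.Agent.Y719.TN

open Polynomial Pool.Agent.Y719.NG
open scoped Kronecker

variable {k : Type} [Field k]

section matrices

variable {N : ℕ}

/-- tensor powers of a matrix -/
def pw (a : ℕ) (M : Matrix (Fin N) (Fin N) k) : Matrix (Fin a → Fin N) (Fin a → Fin N) k :=
  fun i j => ∏ s, M (i s) (j s)

lemma pw_one (a : ℕ) : pw a (1 : Matrix (Fin N) (Fin N) k) = 1 := by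
  ext i j
  unfold pw
  by_cases h : i = j
  · subst h
    simp
  · rw [Matrix.one_apply_ne h]
    obtain ⟨s, hs⟩ := Function.ne_iff.1 h
    exact Finset.prod_eq_zero (Finset.mem_univ s) (Matrix.one_apply_ne hs)

lemma pw_mul (a : ℕ) (M M' : Matrix (Fin N) (Fin N) k) : pw a (M * M') = pw a M * pw a M' := by
  ext i j
  simp only [pw, Matrix.mul_apply]
  rw [Finset.prod_univ_sum, Fintype.piFinset_univ]
  refine Finset.sum_congr rfl fun l _ => ?_
  rw [Finset.prod_mul_distrib]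

variable {Γ : Type} [Group Γ] (Γ₁ : Subgroup Γ) [Fintype (Γ ⧸ Γ₁)]

open Classical in
/-- permutation matrices -/
noncomputable def pm (k : Type) [Field k] (Γ₁ : Subgroup Γ) (g : Γ) :
    Matrix (Γ ⧸ Γ₁) (Γ ⧸ Γ₁) k := fun c d => if g • d = c then 1 else 0

open Classical in
lemma pm_one : pm k Γ₁ 1 = 1 := by
  ext c d
  unfold pm
  rw [one_smul, Matrix.one_apply]
  by_cases h : c = d
  · subst h
    simp
  · rw [if_neg h, if_neg (Ne.symm h)]

lemma pm_mul (g h : Γ) : pm k Γ₁ (g * h) = pm k Γ₁ g * pm k Γ₁ h := by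
  classical
  ext c d
  rw [Matrix.mul_apply, Finset.sum_eq_single (h • d)]
  · unfold pm
    rw [if_pos (rfl : h • d = h • d), mul_one, mul_smul]
  · intro e _ he
    unfold pm
    rw [if_neg (Ne.symm he), mul_zero]
  · intro h1
    exact absurd (Finset.mem_univ _) h1

/-- the index set -/
abbrev Ix (N a b : ℕ) (Γ₁ : Subgroup Γ) : Type :=
  (Fin a → Fin N) × (Fin b → Fin N) × (Γ ⧸ Γ₁)

open Classical in
/-- the tensor construction -/
noncomputable def tm (a b : ℕ) (w : Γ →* Matrix (Fin N) (Fin N) k) :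
    Γ →* Matrix (Ix N a b Γ₁) (Ix N a b Γ₁) k where
  toFun g := pw a (w g) ⊗ₖ (((pw b (w g⁻¹)).transpose) ⊗ₖ pm k Γ₁ g)
  map_one' := by
    rw [inv_one, map_one, pw_one, pw_one, pm_one, Matrix.transpose_one, Matrix.one_kronecker_one,
      Matrix.one_kronecker_one]
  map_mul' g h := by
    rw [mul_inv_rev, map_mul, map_mul, pw_mul, pw_mul, Matrix.transpose_mul, pm_mul,
      Matrix.mul_kronecker_mul, Matrix.mul_kronecker_mul]

lemma tm_apply (a b : ℕ) (w : Γ →* Matrix (Fin N) (Fin N) k) (g : Γ) (i j : Ix N a b Γ₁) :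
    tm Γ₁ a b w g i j = pw a (w g) i.1 j.1 * (pw b (w g⁻¹) j.2.1 i.2.1 * pm k Γ₁ g i.2.2 j.2.2) :=
  rfl

end matrices

section monomials

variable {H : Type} [Group H] {N : ℕ}

/-- monomials -/
def mono (w : H →* Matrix (Fin N) (Fin N) k) (a b : ℕ) (i i' : Fin a → Fin N)
    (j j' : Fin b → Fin N) : H → k := fun x => pw a (w x) i i' * pw b (w x⁻¹) j j'

/-- the monomials of the given degrees -/
def Mon (w : H →* Matrix (Fin N) (Fin N) k) (F : Finset (ℕ × ℕ)) : Set (H → k) :=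
  {f | ∃ d ∈ F, ∃ (i i' : Fin d.1 → Fin N) (j j' : Fin d.2 → Fin N), f = mono w d.1 d.2 i i' j j'}

lemma Mon_mono (w : H →* Matrix (Fin N) (Fin N) k) {F F' : Finset (ℕ × ℕ)} (h : F ⊆ F') :
    Mon w F ⊆ Mon w F' := by
  rintro f ⟨d, hd, i, i', j, j', rfl⟩
  exact ⟨d, h hd, i, i', j, j', rfl⟩

lemma mono_mul (w : H →* Matrix (Fin N) (Fin N) k) (a b a' b' : ℕ) (i i' : Fin a → Fin N)
    (j j' : Fin b → Fin N) (l l' : Fin a' → Fin N) (m m' : Fin b' → Fin N) :
    mono w a b i i' j j' * mono w a' b' l l' m m' =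
      mono w (a + a') (b + b') (Fin.append i l) (Fin.append i' l') (Fin.append j m)
        (Fin.append j' m') := by
  funext x
  rw [Pi.mul_apply]
  simp only [mono, pw, Fin.prod_univ_add, Fin.append_left, Fin.append_right]
  ring

lemma exists_deg {w : H →* Matrix (Fin N) (Fin N) k} {f : H → k} (hf : f ∈ OO w) :
    ∃ F : Finset (ℕ × ℕ), f ∈ Submodule.span k (Mon w F) := by
  classical
  unfold OO at hf
  induction hf using Algebra.adjoin_induction with
  | mem f hf =>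
    rcases hf with ⟨i, j, rfl⟩ | ⟨i, j, rfl⟩
    · refine ⟨{(1, 0)}, Submodule.subset_span ⟨(1, 0), Finset.mem_singleton_self _,
        fun _ => i, fun _ => j, Fin.elim0, Fin.elim0, ?_⟩⟩
      funext x
      simp [mono, pw]
    · refine ⟨{(0, 1)}, Submodule.subset_span ⟨(0, 1), Finset.mem_singleton_self _,
        Fin.elim0, Fin.elim0, fun _ => i, fun _ => j, ?_⟩⟩
      funext x
      simp [mono, pw]
  | algebraMap c =>
    refine ⟨{(0, 0)}, ?_⟩
    have h1 : algebraMap k (H → k) c = c • mono w 0 0 Fin.elim0 Fin.elim0 Fin.elim0 Fin.elim0 := by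
      funext x
      simp [mono, pw]
    rw [h1]
    exact Submodule.smul_mem _ _ (Submodule.subset_span ⟨(0, 0), Finset.mem_singleton_self _,
      _, _, _, _, rfl⟩)
  | add f g _ _ ihf ihg =>
    obtain ⟨F, hF⟩ := ihf
    obtain ⟨G, hG⟩ := ihg
    exact ⟨F ∪ G, Submodule.add_mem _
      (Submodule.span_mono (Mon_mono w Finset.subset_union_left) hF)
      (Submodule.span_mono (Mon_mono w Finset.subset_union_right) hG)⟩
  | mul f g _ _ ihf ihg =>
    obtain ⟨F, hF⟩ := ihf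
    obtain ⟨G, hG⟩ := ihg
    refine ⟨(F ×ˢ G).image fun d => (d.1.1 + d.2.1, d.1.2 + d.2.2), ?_⟩
    have h1 : f * g ∈ Submodule.span k (Mon w F) * Submodule.span k (Mon w G) :=
      Submodule.mul_mem_mul hF hG
    rw [Submodule.span_mul_span] at h1
    refine Submodule.span_mono ?_ h1
    rintro _ ⟨f, ⟨d, hd, i, i', j, j', rfl⟩, g, ⟨e, he, l, l', m, m', rfl⟩, rfl⟩
    refine ⟨(d.1 + e.1, d.2 + e.2), ?_, _, _, _, _, mono_mul w _ _ _ _ _ _ _ _ _ _ _ _⟩
    exact Finset.mem_image.2 ⟨(d, e), Finset.mem_product.2 ⟨hd, he⟩, rfl⟩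

end monomials

section coset

variable {Γ : Type} [Group Γ] {n N : ℕ} (Γ₁ : Subgroup Γ) [Fintype (Γ ⧸ Γ₁)]
  (w : Γ →* Matrix (Fin N) (Fin N) k)

/-- the span of the entries of the tensor constructions -/
noncomputable def ES (F : Finset (ℕ × ℕ)) : Submodule k (Γ → k) :=
  Submodule.span k {f | ∃ d ∈ F, ∃ i j : Ix N d.1 d.2 Γ₁, f = fun g => tm Γ₁ d.1 d.2 w g i j}

open Classical in
/-- extension by zero -/
noncomputable def ez : (Γ₁ → k) →ₗ[k] (Γ → k) where
  toFun φ g := if h : g ∈ Γ₁ then φ ⟨g, h⟩ else 0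
  map_add' φ ψ := by
    funext g
    by_cases h : g ∈ Γ₁
    · simp [h]
    · simp [h]
  map_smul' c φ := by
    funext g
    by_cases h : g ∈ Γ₁
    · simp [h]
    · simp [h]

lemma ez_mem (φ : Γ₁ → k) {g : Γ} (h : g ∈ Γ₁) : ez Γ₁ φ g = φ ⟨g, h⟩ := dif_pos h

lemma ez_not (φ : Γ₁ → k) {g : Γ} (h : g ∉ Γ₁) : ez Γ₁ φ g = 0 := dif_neg h

lemma ez_ES {F : Finset (ℕ × ℕ)} {φ : Γ₁ → k}
    (hφ : φ ∈ Submodule.span k (Mon (res w Γ₁) F)) : ez Γ₁ φ ∈ ES Γ₁ w F := by
  have h1 : Submodule.span k (Mon (res w Γ₁) F) ≤ (ES Γ₁ w F).comap (ez Γ₁) := by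
    rw [Submodule.span_le]
    rintro _ ⟨d, hd, i, i', j, j', rfl⟩
    refine Submodule.subset_span ⟨d, hd, (i, j', (QuotientGroup.mk 1 : Γ ⧸ Γ₁)),
      (i', j, (QuotientGroup.mk 1 : Γ ⧸ Γ₁)), ?_⟩
    funext g
    rw [tm_apply]
    by_cases h : g ∈ Γ₁
    · rw [ez_mem Γ₁ _ h]
      have h2 : pm k Γ₁ g (QuotientGroup.mk 1) (QuotientGroup.mk 1) = 1 := by
        unfold pm
        rw [if_pos]
        change ((g * 1 : Γ) : Γ ⧸ Γ₁) = _
        rw [mul_one]
        exact QuotientGroup.eq.2 (by rw [mul_one]; exact Γ₁.inv_mem h)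
      simp only [h2, mul_one]
      rfl
    · rw [ez_not Γ₁ _ h]
      have h2 : pm k Γ₁ g (QuotientGroup.mk 1) (QuotientGroup.mk 1) = 0 := by
        unfold pm
        rw [if_neg]
        intro h3
        apply h
        change ((g * 1 : Γ) : Γ ⧸ Γ₁) = _ at h3
        rw [mul_one] at h3
        have h4 := QuotientGroup.eq.1 h3
        rw [mul_one] at h4
        exact (Γ₁.inv_mem_iff).1 h4
      simp only [h2, mul_zero]
  exact h1 hφ

lemma ES_left (y : Γ) {F : Finset (ℕ × ℕ)} {f : Γ → k} (hf : f ∈ ES Γ₁ w F) :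
    (fun g => f (y * g)) ∈ ES Γ₁ w F := by
  have h1 : ES Γ₁ w F ≤ (ES Γ₁ w F).comap (sub fun x => y * x : (Γ → k) →ₐ[k] (Γ → k)).toLinearMap := by
    unfold ES
    rw [Submodule.span_le]
    rintro _ ⟨d, hd, i, j, rfl⟩
    have h2 : (sub fun x => y * x : (Γ → k) →ₐ[k] (Γ → k)) (fun g => tm Γ₁ d.1 d.2 w g i j) =
        ∑ l, tm Γ₁ d.1 d.2 w y i l • fun g => tm Γ₁ d.1 d.2 w g l j := by
      funext g
      rw [sub_apply, map_mul, Matrix.mul_apply, Finset.sum_apply]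
      rfl
    change (sub fun x => y * x : (Γ → k) →ₐ[k] (Γ → k)) (fun g => tm Γ₁ d.1 d.2 w g i j) ∈
      ES Γ₁ w F
    rw [h2]
    exact Submodule.sum_mem _ fun l _ => Submodule.smul_mem _ _
      (Submodule.subset_span ⟨d, hd, l, j, rfl⟩)
  exact h1 hf

/-- the entries of `r` are combinations of the entries of the tensor constructions -/
theorem exists_ES (r : Γ →* Matrix (Fin n) (Fin n) k)
    (h : ∀ i j, (fun x : Γ₁ => r x i j) ∈ OO (res w Γ₁)) :
    ∃ F : Finset (ℕ × ℕ), ∀ i j, (fun g => r g i j) ∈ ES Γ₁ w F := by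
  classical
  choose F hF using fun i j => exists_deg (h i j)
  let F' : Finset (ℕ × ℕ) := Finset.univ.biUnion fun p : Fin n × Fin n => F p.1 p.2
  have hF' : ∀ i j, (fun x : Γ₁ => r x i j) ∈ Submodule.span k (Mon (res w Γ₁) F') := by
    intro i j
    refine Submodule.span_mono (Mon_mono _ ?_) (hF i j)
    exact Finset.subset_biUnion_of_mem (fun p : Fin n × Fin n => F p.1 p.2)
      (Finset.mem_univ ((i, j) : Fin n × Fin n))
  refine ⟨F', fun i j => ?_⟩
  have h1 : (fun g => r g i j) = ∑ c : Γ ⧸ Γ₁, ∑ l, r c.out i l •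
      fun g => ez Γ₁ (fun x : Γ₁ => r x l j) (c.out⁻¹ * g) := by
    funext g
    rw [Finset.sum_apply, Finset.sum_eq_single (g : Γ ⧸ Γ₁)]
    · rw [Finset.sum_apply]
      have h2 : (g : Γ ⧸ Γ₁).out⁻¹ * g ∈ Γ₁ := by
        rw [← QuotientGroup.eq, QuotientGroup.out_eq']
      have h3 : r g = r (g : Γ ⧸ Γ₁).out * r ((g : Γ ⧸ Γ₁).out⁻¹ * g) := by
        rw [← map_mul, mul_inv_cancel_left]
      have h4 : r g i j = (r (g : Γ ⧸ Γ₁).out * r ((g : Γ ⧸ Γ₁).out⁻¹ * g)) i j := by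
        rw [← h3]
      rw [h4, Matrix.mul_apply]
      refine Finset.sum_congr rfl fun l _ => ?_
      rw [Pi.smul_apply, smul_eq_mul, ez_mem Γ₁ _ h2]
    · intro c _ hc
      rw [Finset.sum_apply]
      refine Finset.sum_eq_zero fun l _ => ?_
      rw [Pi.smul_apply, smul_eq_mul, ez_not Γ₁ _, mul_zero]
      intro h5
      apply hc
      rw [← QuotientGroup.eq, QuotientGroup.out_eq'] at h5
      exact h5
    · intro h6
      exact absurd (Finset.mem_univ _) h6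
  rw [h1]
  exact Submodule.sum_mem _ fun c _ => Submodule.sum_mem _ fun l _ => Submodule.smul_mem _ _
    (ES_left Γ₁ w _ (ez_ES Γ₁ w (hF' l j)))

open Classical in
lemma exists_functional {F : Finset (ℕ × ℕ)} {f : Γ → k} (hf : f ∈ ES Γ₁ w F) :
    ∃ Λ : (∀ d : F, Matrix (Ix N d.1.1 d.1.2 Γ₁) (Ix N d.1.1 d.1.2 Γ₁) k) →ₗ[k] k,
      ∀ g, f g = Λ fun d => tm Γ₁ d.1.1 d.1.2 w g := by
  unfold ES at hf
  induction hf using Submodule.span_induction with
  | mem f hf =>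
    obtain ⟨d, hd, i, j, rfl⟩ := hf
    refine ⟨{ toFun := fun M => M ⟨d, hd⟩ i j, map_add' := fun _ _ => rfl,
              map_smul' := fun _ _ => rfl }, fun g => rfl⟩
  | zero => exact ⟨0, fun g => rfl⟩
  | add f g _ _ ihf ihg =>
    obtain ⟨Λ, hΛ⟩ := ihf
    obtain ⟨Λ', hΛ'⟩ := ihg
    exact ⟨Λ + Λ', fun x => by rw [Pi.add_apply, hΛ, hΛ']; rfl⟩
  | smul c f _ ih =>
    obtain ⟨Λ, hΛ⟩ := ih
    exact ⟨c • Λ, fun x => by rw [Pi.smul_apply, hΛ]; rfl⟩

end coset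

end Pool.Agent.Y719.TN
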