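import Pool.Agent.Y719.TN.Dom
import Pool.Agent.Y719.TN.Burn

/-!
# Polynomials in the entries of `W` on an open subgroup
-/

set_option autoImplicit false
set_option linter.all false

namespace Pool.Agent.Y719.TN

open Polynomial Pool.Agent.Y719.NG

variable {k : Type} [Field k] {Γ : Type} [Group Γ] {n N : ℕ}

/-- the homomorphism into the matrices -/
def mh (ρ : Γ →* GL (Fin n) k) : Γ →* Matrix (Fin n) (Fin n) k :=
  (Units.coeHom (Matrix (Fin n) (Fin n) k)).comp ρ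

lemma mh_apply (ρ : Γ →* GL (Fin n) k) (g : Γ) : mh ρ g = mt ρ g := rfl

lemma res_AA {r : Γ →* Matrix (Fin n) (Fin n) k} {w : Γ →* Matrix (Fin N) (Fin N) k}
    {Γ₁ Γ₂ : Subgroup Γ} (h : Γ₁ ≤ Γ₂) {f : Γ₂ → k} (hf : f ∈ AA (res r Γ₂) (res w Γ₂)) :
    (fun x : Γ₁ => f ⟨x.1, h x.2⟩) ∈ AA (res r Γ₁) (res w Γ₁) := by
  unfold AA at hf
  induction hf using Algebra.adjoin_induction with
  | mem f hf =>
    rcases hf with (⟨i, j, rfl⟩ | ⟨i, j, rfl⟩) | ⟨i, j, rfl⟩
    · exact ent_w.up i j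
    · exact ent_w'.up i j
    · exact ent_r i j
  | algebraMap c => exact (AA (res r Γ₁) (res w Γ₁)).algebraMap_mem c
  | add f g _ _ ihf ihg => exact (AA (res r Γ₁) (res w Γ₁)).add_mem ihf ihg
  | mul f g _ _ ihf ihg => exact (AA (res r Γ₁) (res w Γ₁)).mul_mem ihf ihg

lemma AA_cont [TopologicalSpace k] [IsTopologicalRing k] [TopologicalSpace Γ]
    [IsTopologicalGroup Γ] {r : Γ →* Matrix (Fin n) (Fin n) k} {w : Γ →* Matrix (Fin N) (Fin N) k}
    (hr : Continuous r) (hw : Continuous w) {f : Γ → k} (hf : f ∈ AA r w) : Continuous f := by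
  unfold AA at hf
  induction hf using Algebra.adjoin_induction with
  | mem f hf =>
    rcases hf with (⟨i, j, rfl⟩ | ⟨i, j, rfl⟩) | ⟨i, j, rfl⟩
    · exact hw.matrix_elem i j
    · exact (hw.comp continuous_inv).matrix_elem i j
    · exact hr.matrix_elem i j
  | algebraMap c => exact continuous_const
  | add f g _ _ ihf ihg => exact ihf.add ihg
  | mul f g _ _ ihf ihg => exact ihf.mul ihg

/-- **Polynomials on an open subgroup.** -/
theorem exists_poly [IsAlgClosed k] [CharZero k] [TopologicalSpace k] [IsTopologicalRing k]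
    [T1Space k] [TopologicalSpace Γ] [IsTopologicalGroup Γ] (ρ : Γ →* GL (Fin n) k)
    (W : Γ →* GL (Fin N) k) (hρ : Continuous ρ) (hW : Continuous W) (hirr : Irr ρ)
    (hE : ∀ g, aeval (mt ρ g) ((mt W g).charpoly ^ n) = 0) :
    ∃ Γ₁ : Subgroup Γ, Γ₁.Normal ∧ IsOpen (Γ₁ : Set Γ) ∧ Γ₁.FiniteIndex ∧
      ∀ i j, (fun x : Γ₁ => mt ρ x i j) ∈ OO (res (mh W) Γ₁) := by
  obtain ⟨Γ₀, hn, hf, hd⟩ := exists_connected (mh ρ) (mh W)
  haveI := hn
  haveI := hf
  let Γ₁ : Subgroup Γ := Γ₀.topologicalClosure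
  have hle : Γ₀ ≤ Γ₁ := Γ₀.le_topologicalClosure
  have hcl : IsClosed (Γ₁ : Set Γ) := Γ₀.isClosed_topologicalClosure
  haveI hf1 : Γ₁.FiniteIndex := Subgroup.finiteIndex_of_le hle
  have hop : IsOpen (Γ₁ : Set Γ) := Subgroup.isOpen_of_isClosed_of_finiteIndex Γ₁ hcl
  have hn1 : Γ₁.Normal := Subgroup.is_normal_topologicalClosure Γ₀
  have hr' : Continuous (mh ρ) := Units.continuous_val.comp hρ
  have hw' : Continuous (mh W) := Units.continuous_val.comp hW
  have hd1 : ∀ f ∈ AA (res (mh ρ) Γ₁) (res (mh W) Γ₁), ∀ g ∈ AA (res (mh ρ) Γ₁) (res (mh W) Γ₁),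
      f * g = 0 → f = 0 ∨ g = 0 := by
    intro f hf g hg hfg
    have hcont : ∀ f ∈ AA (res (mh ρ) Γ₁) (res (mh W) Γ₁),
        (fun x : Γ₀ => f ⟨x.1, hle x.2⟩) = 0 → f = 0 := by
      intro f hf h0
      have hc1 : Continuous (fun x : Γ₁ => res (mh ρ) Γ₁ x) :=
        hr'.comp (continuous_subtype_val : Continuous (Subtype.val : Γ₁ → Γ))
      have hc2 : Continuous (fun x : Γ₁ => res (mh W) Γ₁ x) :=
        hw'.comp (continuous_subtype_val : Continuous (Subtype.val : Γ₁ → Γ))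
      have hc : Continuous f := AA_cont hc1 hc2 hf
      have hcs : IsClosed {x : Γ₁ | f x = 0} := isClosed_singleton.preimage hc
      funext x
      have hx : x.1 ∈ closure (Γ₀ : Set Γ) := x.2
      have h1 : closure (Γ₀ : Set Γ) ⊆ Subtype.val '' {x : Γ₁ | f x = 0} := by
        apply closure_minimal
        · intro y hy
          exact ⟨⟨y, hle hy⟩, congrFun h0 ⟨y, hy⟩, rfl⟩
        · exact (hcl.isClosedEmbedding_subtypeVal).isClosedMap _ hcs
      obtain ⟨y, hy, hyx⟩ := h1 hx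
      have h2 : y = x := Subtype.ext hyx
      rw [← h2]
      exact hy
    have h3 := hd _ (res_AA hle hf) _ (res_AA hle hg) (by
      funext x
      exact congrFun hfg ⟨x.1, hle x.2⟩)
    rcases h3 with h3 | h3
    · exact Or.inl (hcont f hf h3)
    · exact Or.inr (hcont g hg h3)
  refine ⟨Γ₁, hn1, hop, hf1, fun i j => ?_⟩
  have hyp : Hyp (res (mh ρ) Γ₁) (res (mh W) Γ₁) (Set.range fun h : Γ => (mt ρ h, mt W h)) := by
    refine ⟨⟨1, ?_⟩, ?_, ?_⟩
    · change (mt ρ 1, mt W 1) = _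
      rw [mt_one, mt_one]
    · have h1 : Prod.fst '' (Set.range fun h : Γ => (mt ρ h, mt W h)) = Set.range (mt ρ) := by
        rw [← Set.range_comp]
        rfl
      rw [h1]
      exact burnside ρ hirr
    · rintro _ ⟨h, rfl⟩ x
      have h1 := hE (x.1 * h)
      rw [mt_mul, mt_mul] at h1
      exact h1
  exact connected hyp hd1 i j

end Pool.Agent.Y719.TN
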