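import Pool.Agent.Y719.TN.Ext

/-!
# Eigenvalues of tensor constructions
-/

set_option autoImplicit false
set_option linter.all false

namespace Pool.Agent.Y719.TN

open Polynomial Pool.Agent.Y719.NG Topology

variable {Γ : Type} [Group Γ] {k : Type} [Field k] {n N : ℕ}

/-- eigenvalues of a subquotient -/
lemma SQ.rootsG {ι : Type} [Fintype ι] [DecidableEq ι] {ρ : Γ →* GL (Fin n) k}
    {W : Γ → Matrix ι ι k}
    (h : SQ W ρ) (g : Γ) (z : k) (hz : (mt ρ g).charpoly.IsRoot z) :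
    (W g).charpoly.IsRoot z := by
  classical
  obtain ⟨V, hV, f, hf, hfe⟩ := h
  by_contra hcon
  -- the restriction of `W g - z`
  let A : V →ₗ[k] V :=
    { toFun := fun x => ⟨(W g).mulVec x.1 - z • x.1, V.sub_mem (hV g _ x.2) (V.smul_mem z x.2)⟩
      map_add' := fun x y => Subtype.ext (by
        change (W g).mulVec (x.1 + y.1) - z • (x.1 + y.1) = _
        rw [Matrix.mulVec_add, smul_add]
        change _ = ((W g).mulVec x.1 - z • x.1) + ((W g).mulVec y.1 - z • y.1)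
        abel)
      map_smul' := fun c x => Subtype.ext (by
        change (W g).mulVec (c • x.1) - z • (c • x.1) = c • ((W g).mulVec x.1 - z • x.1)
        rw [Matrix.mulVec_smul, smul_sub, smul_comm]) }
  have hinj : Function.Injective A := by
    rw [← LinearMap.ker_eq_bot, LinearMap.ker_eq_bot']
    intro x hx
    have h1 : (W g).mulVec x.1 - z • x.1 = 0 := congrArg Subtype.val hx
    apply Subtype.ext
    by_contra hx0
    apply hcon
    rw [IsRoot.def, Matrix.eval_charpoly]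
    refine Matrix.exists_mulVec_eq_zero_iff.1 ⟨x.1, hx0, ?_⟩
    rw [Matrix.sub_mulVec, Matrix.scalar_apply, ← Matrix.smul_one_eq_diagonal, Matrix.smul_mulVec,
      Matrix.one_mulVec, ← neg_sub, h1, neg_zero]
  have hsurj : Function.Surjective A := LinearMap.injective_iff_surjective.1 hinj
  rw [IsRoot.def, Matrix.eval_charpoly] at hz
  have hB : Function.Surjective (Matrix.mulVec (mt ρ g - Matrix.scalar (Fin n) z)) := by
    intro y
    obtain ⟨x, hx⟩ := hf y
    obtain ⟨x', hx'⟩ := hsurj x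
    refine ⟨f x', ?_⟩
    have h1 := hfe g x' ⟨(W g).mulVec x'.1, hV g _ x'.2⟩ rfl
    rw [Matrix.sub_mulVec, ← h1, Matrix.scalar_apply, ← Matrix.smul_one_eq_diagonal,
      Matrix.smul_mulVec, Matrix.one_mulVec, ← hx, ← hx', ← map_smul, ← map_sub]
    rfl
  have hdet : (mt ρ g - Matrix.scalar (Fin n) z).det ≠ 0 := by
    have h1 := Matrix.mulVec_surjective_iff_isUnit.1 hB
    exact ((Matrix.isUnit_iff_isUnit_det _).1 h1).ne_zero
  apply hdet
  rw [← neg_sub, Matrix.det_neg, hz, mul_zero]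

lemma tm_mulVecG (a b : ℕ) (U : Subgroup Γ) [Fintype (Γ ⧸ U)] (W : Γ →* GL (Fin N) k) (g : Γ)
    (F : Ix N a b U → k) : (tm U a b (mh W) g).mulVec F = actF a b U W g F := by
  funext c
  unfold actF
  rw [Matrix.mulVec, dotProduct, Fintype.sum_prod_type]
  refine Finset.sum_congr rfl fun i _ => ?_
  rw [Fintype.sum_prod_type]
  refine Finset.sum_congr rfl fun j _ => ?_
  rw [Finset.sum_eq_single (g⁻¹ • c.2.2)]
  · have h1 : pm k U g c.2.2 (g⁻¹ • c.2.2) = 1 := by
      unfold pm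
      rw [smul_inv_smul, if_pos rfl]
    rw [tm_apply]
    simp only [h1, mul_one]
    rfl
  · intro d _ hd
    have h1 : pm k U g c.2.2 d = 0 := by
      unfold pm
      rw [if_neg]
      intro h2
      apply hd
      rw [← h2, inv_smul_smul]
    rw [tm_apply]
    simp only [h1, mul_zero, zero_mul]
  · intro h1
    exact absurd (Finset.mem_univ _) h1

lemma SQ.sqfG {a b : ℕ} {U : Subgroup Γ} [Fintype (Γ ⧸ U)] {W : Γ →* GL (Fin N) k}
    {ρ : Γ →* GL (Fin n) k} (h : SQ (fun g => tm U a b (mh W) g) ρ) : SQF a b U W ρ := by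
  obtain ⟨V, hV, f, hf, hfe⟩ := h
  refine ⟨V, fun g F hF => ?_, f, hf, fun g F F' h => ?_⟩
  · rw [← tm_mulVecG]
    exact hV g F hF
  · rw [← tm_mulVecG] at h
    exact hfe g F F' h

/-- the back translation -/
lemma SQF.sq {a b : ℕ} {U : Subgroup Γ} [Fintype (Γ ⧸ U)] {W : Γ →* GL (Fin N) k}
    {ρ : Γ →* GL (Fin n) k} (h : SQF a b U W ρ) : SQ (fun g => tm U a b (mh W) g) ρ := by
  obtain ⟨V, hV, f, hf, hfe⟩ := h
  refine ⟨V, fun g F hF => ?_, f, hf, fun g F F' h => ?_⟩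
  · rw [tm_mulVecG]
    exact hV g F hF
  · rw [tm_mulVecG] at h
    exact hfe g F F' h

lemma SubQ.sqF {a b : ℕ} {U : Subgroup Γ} {W : Γ →* GL (Fin N) k} {ρ : Γ →* GL (Fin n) k}
    (h : SubQ (TN.actF a b U W) ρ) : SQF a b U W ρ := by
  obtain ⟨V, hV, f, hf, hfe⟩ := h
  refine ⟨V, hV, f.comp V.subtype, fun y => ?_, fun g x y hxy => ?_⟩
  · obtain ⟨x, hx, hxy⟩ := hf y
    exact ⟨⟨x, hx⟩, hxy⟩
  · have h1 : f (TN.actF a b U W g x.1) = (mt ρ g).mulVec (f x.1) := hfe g x.1 x.2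
    rw [← hxy] at h1
    exact h1

section gl

variable (U : Subgroup Γ) [Fintype (Γ ⧸ U)] (a b : ℕ) (W : Γ →* GL (Fin N) k)

/-- the tensor construction as a representation -/
noncomputable def tg : Γ →* GL (Fin (Fintype.card (Ix N a b U))) k := by
  classical
  exact MonoidHom.toHomUnits
    (((Matrix.reindexAlgEquiv k k (Fintype.equivFin (Ix N a b U))).toMulEquiv.toMonoidHom).comp
      (tm U a b (mh W)))

lemma mt_tg (g : Γ) : mt (tg U a b W) g =
    Matrix.reindex (Fintype.equivFin (Ix N a b U)) (Fintype.equivFin (Ix N a b U))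
      (tm U a b (mh W) g) := rfl

open Classical in
lemma charpoly_tg (g : Γ) : (mt (tg U a b W) g).charpoly = (tm U a b (mh W) g).charpoly := by
  rw [mt_tg, Matrix.charpoly_reindex]

variable {U}

lemma pm_of_mem [hn : U.Normal] {u : Γ} (hu : u ∈ U) (x : Γ) (c d : Γ ⧸ U) :
    pm k U (x * u) c d = pm k U x c d := by
  obtain ⟨y, rfl⟩ := QuotientGroup.mk_surjective d
  have h1 : (x * u) • (y : Γ ⧸ U) = x • (y : Γ ⧸ U) := by
    change ((x * u * y : Γ) : Γ ⧸ U) = ((x * y : Γ) : Γ ⧸ U)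
    rw [eq_comm, QuotientGroup.eq]
    have h2 : (x * y)⁻¹ * (x * u * y) = y⁻¹ * u * y := by group
    rw [h2]
    have := hn.conj_mem u hu y⁻¹
    rwa [inv_inv] at this
  unfold pm
  rw [h1]

lemma pm_continuous [TopologicalSpace Γ] [IsTopologicalGroup Γ] [TopologicalSpace k]
    [U.Normal] (ho : IsOpen (U : Set Γ)) (c d : Γ ⧸ U) : Continuous fun g => pm k U g c d := by
  refine IsLocallyConstant.continuous ?_
  rw [IsLocallyConstant.iff_exists_open]
  intro x
  refine ⟨(fun y => x⁻¹ * y) ⁻¹' (U : Set Γ), ho.preimage (continuous_const.mul continuous_id),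
    ?_, fun y hy => ?_⟩
  · change x⁻¹ * x ∈ U
    rw [inv_mul_cancel]
    exact U.one_mem
  · have h1 : y = x * (x⁻¹ * y) := by group
    rw [h1]
    exact pm_of_mem hy x c d

variable {W}

lemma pw_continuous {X : Type} [TopologicalSpace X] [TopologicalSpace k] [IsTopologicalRing k]
    {F : X → Matrix (Fin N) (Fin N) k} (hF : Continuous F) (a : ℕ) (i j : Fin a → Fin N) :
    Continuous fun x => pw a (F x) i j :=
  continuous_finsetProd _ fun s _ => hF.matrix_elem _ _

lemma tm_continuous [TopologicalSpace Γ] [IsTopologicalGroup Γ] [TopologicalSpace k]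
    [IsTopologicalRing k] [U.Normal] (ho : IsOpen (U : Set Γ)) (hW : Continuous W)
    (i j : Ix N a b U) : Continuous fun g => tm U a b (mh W) g i j := by
  have hw : Continuous (mh W) := Units.continuous_val.comp hW
  exact (pw_continuous hw a _ _).mul ((pw_continuous (hw.comp continuous_inv) b _ _).mul
    (pm_continuous ho _ _))

lemma tg_continuous [TopologicalSpace Γ] [IsTopologicalGroup Γ] [TopologicalSpace k]
    [IsTopologicalRing k] [U.Normal] (ho : IsOpen (U : Set Γ)) (hW : Continuous W) :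
    Continuous (tg U a b W) := by
  rw [Units.continuous_iff]
  have h1 : Continuous fun g => mt (tg U a b W) g := by
    refine continuous_matrix fun i j => ?_
    exact tm_continuous a b ho hW _ _
  refine ⟨h1, ?_⟩
  have h2 : (fun g => ((tg U a b W g)⁻¹ : GL (Fin (Fintype.card (Ix N a b U))) k).1) =
      fun g => mt (tg U a b W) g⁻¹ := by
    funext g
    unfold Pool.Agent.Y719.NG.mt
    rw [map_inv]
  change Continuous (fun g => ((tg U a b W g)⁻¹ : GL (Fin (Fintype.card (Ix N a b U))) k).1)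
  rw [h2]
  exact h1.comp continuous_inv

end gl

section poly

lemma OO_le_of {H : Type} [Group H] {M : ℕ} {w' : H →* Matrix (Fin M) (Fin M) k}
    {S : Subalgebra k (H → k)} (h1 : Ent S (fun x => w' x)) (h2 : Ent S (fun x => w' x⁻¹)) :
    OO w' ≤ S := by
  refine Algebra.adjoin_le ?_
  rintro f (⟨i, j, rfl⟩ | ⟨i, j, rfl⟩)
  · exact h1 i j
  · exact h2 i j

lemma pw_ent {H : Type} [Group H] {S : Subalgebra k (H → k)} {F : H → Matrix (Fin N) (Fin N) k}
    (hF : Ent S F) (a : ℕ) (i j : Fin a → Fin N) : (fun x => pw a (F x) i j) ∈ S := by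
  have h1 : (fun x => pw a (F x) i j) = ∏ s, fun x => F x (i s) (j s) := by
    funext x
    rw [Finset.prod_apply]
    rfl
  rw [h1]
  exact S.prod_mem fun s _ => hF _ _

variable {U : Subgroup Γ} [Fintype (Γ ⧸ U)]

lemma tm_ent [U.Normal] {H : Subgroup Γ} (hH : H ≤ U) (a b : ℕ) (W : Γ →* GL (Fin N) k)
    (i j : Ix N a b U) : (fun x : H => tm U a b (mh W) x i j) ∈ OO (res (mh W) H) := by
  have h1 : (fun x : H => pw a (mh W x) i.1 j.1) ∈ OO (res (mh W) H) :=
    pw_ent (F := fun x : H => res (mh W) H x) ent_w a _ _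
  have h2 : (fun x : H => pw b (mh W (x : Γ)⁻¹) j.2.1 i.2.1) ∈ OO (res (mh W) H) :=
    pw_ent (F := fun x : H => res (mh W) H x⁻¹) ent_w' b _ _
  have h3 : (fun x : H => pm k U (x : Γ) i.2.2 j.2.2) ∈ OO (res (mh W) H) := by
    have h4 : (fun x : H => pm k U (x : Γ) i.2.2 j.2.2) =
        algebraMap k (H → k) (pm k U 1 i.2.2 j.2.2) := by
      funext x
      have h5 := pm_of_mem (k := k) (hH x.2) 1 i.2.2 j.2.2
      rw [one_mul] at h5
      exact h5
    rw [h4]
    exact (OO (res (mh W) H)).algebraMap_mem _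
  exact (OO (res (mh W) H)).mul_mem h1 ((OO (res (mh W) H)).mul_mem h2 h3)

lemma res_OO {M : ℕ} {w : Γ →* Matrix (Fin M) (Fin M) k} {H₁ H₂ : Subgroup Γ} (h : H₁ ≤ H₂)
    {f : H₂ → k} (hf : f ∈ OO (res w H₂)) :
    (fun x : H₁ => f ⟨x.1, h x.2⟩) ∈ OO (res w H₁) := by
  unfold OO at hf
  induction hf using Algebra.adjoin_induction with
  | mem f hf =>
    rcases hf with ⟨i, j, rfl⟩ | ⟨i, j, rfl⟩
    · exact ent_w i j
    · exact ent_w' i j
  | algebraMap c => exact (OO (res w H₁)).algebraMap_mem c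
  | add f g _ _ ihf ihg => exact (OO (res w H₁)).add_mem ihf ihg
  | mul f g _ _ ihf ihg => exact (OO (res w H₁)).mul_mem ihf ihg

/-- polynomial on an open normal subgroup of finite index -/
def PolyOn [TopologicalSpace Γ] (W : Γ →* GL (Fin N) k) (ρ : Γ →* GL (Fin n) k) : Prop :=
  ∃ U : Subgroup Γ, U.Normal ∧ IsOpen (U : Set Γ) ∧ U.FiniteIndex ∧
    ∀ i j, (fun x : U => mt ρ x i j) ∈ OO (res (mh W) U)

/-- tensorial -/
def Tnl [TopologicalSpace Γ] (W : Γ →* GL (Fin N) k) (ρ : Γ →* GL (Fin n) k) : Prop :=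
  ∃ U : Subgroup Γ, U.Normal ∧ IsOpen (U : Set Γ) ∧ U.FiniteIndex ∧
    ∃ a b : ℕ, SQF a b U W ρ

lemma PolyOn.tnl [TopologicalSpace Γ] {W : Γ →* GL (Fin N) k} {ρ : Γ →* GL (Fin n) k}
    (hirr : Irr ρ) (h : PolyOn W ρ) : Tnl W ρ := by
  obtain ⟨U, hn, ho, hf, h⟩ := h
  haveI : Finite (Γ ⧸ U) := Subgroup.finite_quotient_of_finiteIndex
  haveI : Fintype (Γ ⧸ U) := Fintype.ofFinite _
  obtain ⟨F, hF⟩ := exists_ES U (mh W) (mh ρ) h
  obtain ⟨a, b, hab⟩ := SQ_of_ES (mh W) ρ hirr hF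
  exact ⟨U, hn, ho, hf, a, b, hab.sqfG⟩

open Classical in
/-- eigenvalues of a tensor construction -/
theorem polyOn_of_tensor [IsAlgClosed k] [CharZero k] [TopologicalSpace k] [IsTopologicalRing k]
    [T1Space k] [TopologicalSpace Γ] [IsTopologicalGroup Γ] (ρ : Γ →* GL (Fin n) k)
    (W : Γ →* GL (Fin N) k) (hρ : Continuous ρ) (hW : Continuous W) (hirr : Irr ρ)
    [hn : U.Normal] (ho : IsOpen (U : Set Γ)) (a b : ℕ)
    (hE : ∀ g, aeval (mt ρ g) ((tm U a b (mh W) g).charpoly ^ n) = 0) : PolyOn W ρ := by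
  obtain ⟨Γ₁, hn1, ho1, hf1, h⟩ := exists_poly ρ (tg U a b W) hρ (tg_continuous a b ho hW) hirr
    (fun g => by rw [charpoly_tg]; exact hE g)
  have hfU : U.FiniteIndex := Subgroup.finiteIndex_of_finite_quotient
  refine ⟨Γ₁ ⊓ U, inferInstance, ho1.inter ho, inferInstance, fun i j => ?_⟩
  have h1 := res_OO (inf_le_left : Γ₁ ⊓ U ≤ Γ₁) (h i j)
  refine OO_le_of ?_ ?_ h1
  · intro i' j'
    exact tm_ent (inf_le_right : Γ₁ ⊓ U ≤ U) a b W _ _
  · intro i' j'
    have h2 := tm_ent (inf_le_right : Γ₁ ⊓ U ≤ U) a b W ((Fintype.equivFin (Ix N a b U)).symm i')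
      ((Fintype.equivFin (Ix N a b U)).symm j')
    exact OO_inv h2

end poly

end Pool.Agent.Y719.TN
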