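import Pool.Agent.Y719.TN.Twist

/-!
# The characteristic polynomials of tensor constructions
-/

set_option autoImplicit false
set_option linter.all false

namespace Pool.Agent.Y719.TN

open Polynomial Pool.Agent.Y719.NG Topology
open scoped Kronecker

section traces

variable {k : Type} [Field k] {ι κ : Type} [Fintype ι] [DecidableEq ι] [Fintype κ] [DecidableEq κ]

/-- the characteristic polynomial determines the traces of the powers -/
lemma traces_of_charpoly {A B : Matrix ι ι k} (h : A.charpoly = B.charpoly) (m : ℕ) :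
    (A ^ m).trace = (B ^ m).trace := by
  have hr : A.charpolyRev = B.charpolyRev := by
    rw [← Matrix.reverse_charpoly, ← Matrix.reverse_charpoly, h]
  induction m using Nat.strong_induction_on with
  | _ m ih =>
    rcases m with _ | m
    · rw [pow_zero, pow_zero]
    · have h1 := Pool.Agent.TH658.Eq.newton A m
      have h2 := Pool.Agent.TH658.Eq.newton B m
      rw [← hr, h1, neg_inj] at h2
      have hmem : (0, m) ∈ Finset.HasAntidiagonal.antidiagonal m := by simp
      rw [← Finset.add_sum_erase _ _ hmem, ← Finset.add_sum_erase _ _ hmem] at h2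
      have h3 : ∑ x ∈ (Finset.HasAntidiagonal.antidiagonal m).erase (0, m),
          A.charpolyRev.coeff x.1 * (A ^ (x.2 + 1)).trace =
          ∑ x ∈ (Finset.HasAntidiagonal.antidiagonal m).erase (0, m),
          A.charpolyRev.coeff x.1 * (B ^ (x.2 + 1)).trace := by
        refine Finset.sum_congr rfl fun x hx => ?_
        rw [Finset.mem_erase, Finset.HasAntidiagonal.mem_antidiagonal] at hx
        have h4 : x.1 ≠ 0 := by
          intro h5
          apply hx.1
          have h6 : x.2 = m := by omega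
          exact Prod.ext h5 h6
        rw [ih (x.2 + 1) (by omega)]
      rw [h3, add_left_inj] at h2
      have h4 : A.charpolyRev.coeff 0 = 1 := by
        rw [coeff_zero_eq_eval_zero, Matrix.eval_charpolyRev]
      simp only [h4, one_mul] at h2
      exact h2

lemma kron_pow (A : Matrix ι ι k) (B : Matrix κ κ k) (m : ℕ) :
    (A ⊗ₖ B) ^ m = (A ^ m) ⊗ₖ (B ^ m) := by
  induction m with
  | zero => rw [pow_zero, pow_zero, pow_zero, Matrix.one_kronecker_one]
  | succ m ih => rw [pow_succ, pow_succ, pow_succ, ih, Matrix.mul_kronecker_mul]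

variable {N : ℕ}

lemma pw_pow (a : ℕ) (M : Matrix (Fin N) (Fin N) k) (m : ℕ) : pw a M ^ m = pw a (M ^ m) := by
  induction m with
  | zero => rw [pow_zero, pow_zero, pw_one]
  | succ m ih => rw [pow_succ, pow_succ, ih, pw_mul]

lemma trace_pw (a : ℕ) (M : Matrix (Fin N) (Fin N) k) : (pw a M).trace = M.trace ^ a := by
  unfold Matrix.trace
  have h1 : (∑ i, M.diag i) ^ a = ∏ _s : Fin a, ∑ i, M.diag i := by
    rw [Finset.prod_const, Finset.card_univ, Fintype.card_fin]
  rw [h1, Finset.prod_univ_sum, Fintype.piFinset_univ]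
  rfl

lemma tensor_charpoly [CharZero k] (a b : ℕ) {M L M' L' : Matrix (Fin N) (Fin N) k}
    (P : Matrix ι ι k) (h : M.charpoly = L.charpoly) (h' : M'.charpoly = L'.charpoly) :
    (pw a M ⊗ₖ ((pw b M').transpose ⊗ₖ P)).charpoly =
      (pw a L ⊗ₖ ((pw b L').transpose ⊗ₖ P)).charpoly := by
  refine Pool.Agent.TH658.Eq.charpoly_eq_of_traces _ _ fun m => ?_
  rw [kron_pow, kron_pow, kron_pow, kron_pow, Matrix.trace_kronecker, Matrix.trace_kronecker,
    Matrix.trace_kronecker, Matrix.trace_kronecker, ← Matrix.transpose_pow, ← Matrix.transpose_pow,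
    Matrix.trace_transpose, Matrix.trace_transpose, pw_pow, pw_pow, pw_pow, pw_pow, trace_pw,
    trace_pw, trace_pw, trace_pw, traces_of_charpoly h, traces_of_charpoly h']

lemma charpoly_inv_eq {A B : Matrix ι ι k} (hA : IsUnit A) (hB : IsUnit B)
    (h : A.charpoly = B.charpoly) : A⁻¹.charpoly = B⁻¹.charpoly := by
  have hr : A.charpolyRev = B.charpolyRev := by
    rw [← Matrix.reverse_charpoly, ← Matrix.reverse_charpoly, h]
  have hd : A.det = B.det := by
    rw [Matrix.det_eq_sign_charpoly_coeff, Matrix.det_eq_sign_charpoly_coeff, h]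
  rw [Matrix.charpoly_inv _ hA, Matrix.charpoly_inv _ hB, hr, hd]

/-- matrices with a given characteristic polynomial -/
lemma exists_companion {E : Type} [Field E] (Q : E[X]) (hQ : Q.Monic) (hN : Q.natDegree = N) :
    ∃ C : Matrix (Fin N) (Fin N) E, C.charpoly = Q := by
  have key : ∀ d (_ : d = N) (C : Matrix (Fin d) (Fin d) E), C.charpoly = Q →
      ∃ C' : Matrix (Fin N) (Fin N) E, C'.charpoly = Q := by
    intro d hd C hC
    subst hd
    exact ⟨C, hC⟩
  let pb := AdjoinRoot.powerBasis hQ.ne_zero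
  refine key pb.dim ?_ (Algebra.leftMulMatrix pb.basis pb.gen) ?_
  · rw [AdjoinRoot.powerBasis_dim, hN]
  · rw [charpoly_leftMulMatrix, AdjoinRoot.powerBasis_gen, AdjoinRoot.minpoly_root hQ.ne_zero,
      hQ.leadingCoeff, inv_one, C_1, mul_one]

end traces

section descent

variable {k k₀ E : Type} [Field k] [CharZero k] [Field k₀] [CharZero k₀] [Field E] {Γ : Type}
  [Group Γ] {N : ℕ}

lemma pw_map {k E : Type} [Field k] [Field E] (ι : E →+* k) (a : ℕ)
    (M : Matrix (Fin N) (Fin N) E) : (pw a M).map ι = pw a (M.map ι) := by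
  ext i j
  simp only [pw, Matrix.map_apply, map_prod]

lemma pm_map {k E : Type} [Field k] [Field E] (ι : E →+* k) (U : Subgroup Γ) (g : Γ) :
    (pm E U g).map ι = pm k U g := by
  classical
  ext c d
  simp only [pm, Matrix.map_apply]
  by_cases h : g • d = c
  · rw [if_pos h, if_pos h, map_one]
  · rw [if_neg h, if_neg h, map_zero]

open Classical in
/-- the image of the tensor construction of a companion matrix -/
lemma tensor_map (ι : E →+* k) (U : Subgroup Γ) [Fintype (Γ ⧸ U)] (a b : ℕ)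
    (C : Matrix (Fin N) (Fin N) E) (hC : IsUnit C) (W : Γ →* GL (Fin N) k) (g : Γ)
    (h : (mt W g).charpoly = C.charpoly.map ι) :
    (tm U a b (mh W) g).charpoly =
      (pw a C ⊗ₖ ((pw b C⁻¹).transpose ⊗ₖ pm E U g)).charpoly.map ι := by
  rw [← Matrix.charpoly_map]
  have h1 : (pw a C ⊗ₖ ((pw b C⁻¹).transpose ⊗ₖ pm E U g)).map ι =
      pw a (C.map ι) ⊗ₖ ((pw b (C.map ι)⁻¹).transpose ⊗ₖ pm k U g) := by
    have h2 : (C.map ι)⁻¹ = C⁻¹.map ι := by
      refine Matrix.inv_eq_right_inv ?_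
      rw [← Matrix.map_mul, Matrix.mul_nonsing_inv _ ((Matrix.isUnit_iff_isUnit_det _).1 hC)]
      exact Matrix.map_one ι (map_zero ι) (map_one ι)
    rw [h2, ← pw_map, ← pw_map, ← pm_map ι]
    ext i j
    change ι (pw a C i.1 j.1 * (pw b C⁻¹ j.2.1 i.2.1 * pm E U g i.2.2 j.2.2)) =
      ι (pw a C i.1 j.1) * (ι (pw b C⁻¹ j.2.1 i.2.1) * ι (pm E U g i.2.2 j.2.2))
    rw [map_mul, map_mul]
  rw [h1]
  have hu : IsUnit (C.map ι) := by
    have := hC.map (RingHom.mapMatrix ι : Matrix (Fin N) (Fin N) E →+* Matrix (Fin N) (Fin N) k)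
    exact this
  have hw : IsUnit (mt W g) := (W g).isUnit
  have h3 : (mt W g).charpoly = (C.map ι).charpoly := by rw [h, Matrix.charpoly_map]
  have h4 : mt W g⁻¹ = (mt W g)⁻¹ := by
    unfold Pool.Agent.Y719.NG.mt
    rw [map_inv, Matrix.coe_units_inv]
  have h5 : (mt W g⁻¹).charpoly = (C.map ι)⁻¹.charpoly := by
    rw [h4]
    exact charpoly_inv_eq hw hu h3
  exact tensor_charpoly a b (pm k U g) h3 h5

open Classical in
/-- **Transfer of divisibilities.** -/
lemma transfer_dvd {n : ℕ} (ι₀ : E →+* k₀) (ι : E →+* k) (U : Subgroup Γ) [Fintype (Γ ⧸ U)]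
    (a b : ℕ) (ρ₀ : Γ →* GL (Fin n) k₀) (W₀ : Γ →* GL (Fin N) k₀) (ρ : Γ →* GL (Fin n) k)
    (W : Γ →* GL (Fin N) k) (g : Γ) (P Q : E[X]) (hρ₀ : (mt ρ₀ g).charpoly = P.map ι₀)
    (hW₀ : (mt W₀ g).charpoly = Q.map ι₀) (hρ : (mt ρ g).charpoly = P.map ι)
    (hW : (mt W g).charpoly = Q.map ι)
    (h : (mt ρ₀ g).charpoly ∣ (tm U a b (mh W₀) g).charpoly ^ n) :
    (mt ρ g).charpoly ∣ (tm U a b (mh W) g).charpoly ^ n := by
  have hQm : Q.Monic := by
    have h1 := Matrix.charpoly_monic (mt W g)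
    rw [hW] at h1
    exact (Polynomial.monic_map_iff).1 h1
  have hQd : Q.natDegree = N := by
    have h1 := Matrix.charpoly_natDegree_eq_dim (mt W g)
    rw [hW, Polynomial.natDegree_map, Fintype.card_fin] at h1
    exact h1
  obtain ⟨C, hC⟩ := exists_companion Q hQm hQd
  have hCu : IsUnit C := by
    rw [Matrix.isUnit_iff_isUnit_det, isUnit_iff_ne_zero]
    intro h0
    have h1 : (mt W g).det = ι C.det := by
      rw [Matrix.det_eq_sign_charpoly_coeff, Matrix.det_eq_sign_charpoly_coeff, hW, hC,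
        Polynomial.coeff_map, map_mul, map_pow, map_neg, map_one]
    rw [h0, map_zero] at h1
    have h2 : IsUnit (mt W g) := (W g).isUnit
    exact ((Matrix.isUnit_iff_isUnit_det _).1 h2).ne_zero h1
  rw [tensor_map ι₀ U a b C hCu W₀ g (by rw [hC, hW₀]), hρ₀, ← Polynomial.map_pow,
    Polynomial.map_dvd_map'] at h
  rw [tensor_map ι U a b C hCu W g (by rw [hC, hW]), hρ, ← Polynomial.map_pow]
  exact Polynomial.map_dvd _ h

end descent

section main

variable {Γ : Type} [Group Γ] [TopologicalSpace Γ] [IsTopologicalGroup Γ] {k : Type} [Field k]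
  [IsAlgClosed k] [CharZero k] [TopologicalSpace k] [IsTopologicalRing k] [T2Space k] {n N : ℕ}

open Classical in
/-- the equation on a dense set -/
lemma E_of_dense (ρ : Γ →* GL (Fin n) k) (W : Γ →* GL (Fin N) k) (hρ : Continuous ρ)
    (hW : Continuous W) (D : Set Γ) (hD : Dense D) (U : Subgroup Γ) [Fintype (Γ ⧸ U)] [U.Normal]
    (ho : IsOpen (U : Set Γ)) (a b : ℕ)
    (h : ∀ g ∈ D, (mt ρ g).charpoly ∣ (tm U a b (mh W) g).charpoly ^ n) (g : Γ) :
    aeval (mt ρ g) ((tm U a b (mh W) g).charpoly ^ n) = 0 := by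
  have hr' : Continuous (mt ρ) := Units.continuous_val.comp hρ
  have hw' : Continuous (mt (tg U a b W)) := Units.continuous_val.comp (tg_continuous a b ho hW)
  have h1 : IsClosed {g | aeval (mt ρ g) ((mt (tg U a b W) g).charpoly ^ n) = 0} :=
    isClosed_singleton.preimage (continuous_E hr' hw')
  have h2 : closure D ⊆ {g | aeval (mt ρ g) ((mt (tg U a b W) g).charpoly ^ n) = 0} :=
    closure_minimal (fun g hg => E_of_dvd (by rw [charpoly_tg]; exact h g hg)) h1
  have h3 := h2 (hD g)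
  rw [Set.mem_setOf_eq, charpoly_tg] at h3
  exact h3

open Classical in
/-- **Tensorial representations: independence of the coefficient field.** -/
theorem Tnl.transfer {k₀ : Type} [Field k₀] [IsAlgClosed k₀] [CharZero k₀] {E : Type} [Field E]
    {ρ₀ : Γ →* GL (Fin n) k₀} {W₀ : Γ →* GL (Fin N) k₀} {ρ : Γ →* GL (Fin n) k}
    {W : Γ →* GL (Fin N) k} (hρ : Continuous ρ) (hW : Continuous W) (hirr : Irr ρ)
    (D : Set Γ) (hD : Dense D) (ι₀ : E →+* k₀) (ι : E →+* k) (P Q : Γ → E[X])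
    (hρ₀ : ∀ g ∈ D, (mt ρ₀ g).charpoly = (P g).map ι₀)
    (hW₀ : ∀ g ∈ D, (mt W₀ g).charpoly = (Q g).map ι₀)
    (hρ1 : ∀ g ∈ D, (mt ρ g).charpoly = (P g).map ι)
    (hW1 : ∀ g ∈ D, (mt W g).charpoly = (Q g).map ι)
    (h : Tnl W₀ ρ₀) : Tnl W ρ := by
  obtain ⟨U, hn, ho, hf, a, b, h⟩ := h
  haveI := hn
  haveI : Finite (Γ ⧸ U) := Subgroup.finite_quotient_of_finiteIndex
  haveI : Fintype (Γ ⧸ U) := Fintype.ofFinite _
  refine (polyOn_of_tensor ρ W hρ hW hirr ho a b
    (E_of_dense ρ W hρ hW D hD U ho a b fun g hg => ?_)).tnl hirr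
  refine transfer_dvd ι₀ ι U a b ρ₀ W₀ ρ W g (P g) (Q g) (hρ₀ g hg) (hW₀ g hg) (hρ1 g hg)
    (hW1 g hg) ?_
  exact dvd_of_roots (mt ρ₀ g) (h.sq.rootsG g)

end main

end Pool.Agent.Y719.TN
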